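import Pool.Agent.H306R2.RZ.Defs4

set_option autoImplicit false

/-! Duality and reciprocity. -/

namespace Pool.Agent.H640R2.RZ4

open Finset Filter Topology MeasureTheory Pool.Agent.H306R2.RZ

noncomputable section

theorem dual (M N : ℕ) (B : ℝ) (hB : 0 ≤ B) (h : LSB M N B) (b : ℕ → ℂ) :
    ∑ n ∈ osf N, ‖∑ m ∈ sqf M, b m * (js m n : ℂ)‖ ^ 2 ≤ B * ∑ m ∈ sqf M, ‖b m‖ ^ 2 := by
  set c : ℕ → ℂ := fun n => ∑ m ∈ sqf M, b m * (js m n : ℂ) with hc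
  set S : ℝ := ∑ n ∈ osf N, ‖c n‖ ^ 2 with hS
  set d : ℕ → ℂ := fun m => ∑ n ∈ osf N, (starRingEnd ℂ) (c n) * (js m n : ℂ) with hd
  have hS0 : 0 ≤ S := Finset.sum_nonneg fun n _ => by positivity
  have h1 : ∑ m ∈ sqf M, ‖d m‖ ^ 2 ≤ B * S := by
    have := h (fun n => (starRingEnd ℂ) (c n))
    simpa [RCLike.norm_conj] using this
  have h2 : (S : ℂ) = ∑ m ∈ sqf M, b m * d m := by
    have e1 : (S : ℂ) = ∑ n ∈ osf N, (starRingEnd ℂ) (c n) * c n := by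
      rw [hS]
      push_cast
      refine Finset.sum_congr rfl fun n _ => ?_
      rw [Complex.conj_mul']
    rw [e1]
    simp only [hd, Finset.mul_sum]
    rw [Finset.sum_comm]
    refine Finset.sum_congr rfl fun n _ => ?_
    rw [hc]
    simp only [Finset.mul_sum]
    refine Finset.sum_congr rfl fun m _ => ?_
    ring
  have h3 : S ≤ ∑ m ∈ sqf M, ‖b m‖ * ‖d m‖ := by
    have e1 : S = ‖(S : ℂ)‖ := by rw [Complex.norm_real, Real.norm_of_nonneg hS0]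
    rw [e1, h2]
    refine (norm_sum_le _ _).trans (Finset.sum_le_sum fun m _ => by rw [norm_mul])
  have h4 : S ^ 2 ≤ (∑ m ∈ sqf M, ‖b m‖ ^ 2) * (B * S) := by
    calc S ^ 2 ≤ (∑ m ∈ sqf M, ‖b m‖ * ‖d m‖) ^ 2 := pow_le_pow_left₀ hS0 h3 2
      _ ≤ (∑ m ∈ sqf M, ‖b m‖ ^ 2) * ∑ m ∈ sqf M, ‖d m‖ ^ 2 := Finset.sum_mul_sq_le_sq_mul_sq _ _ _
      _ ≤ _ := mul_le_mul_of_nonneg_left h1 (Finset.sum_nonneg fun m _ => by positivity)
  have hb0 : 0 ≤ ∑ m ∈ sqf M, ‖b m‖ ^ 2 := Finset.sum_nonneg fun m _ => by positivity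
  rcases eq_or_lt_of_le hS0 with h5 | h5
  · rw [← h5]
    exact mul_nonneg hB hb0
  · have h6 : S * S ≤ S * (B * ∑ m ∈ sqf M, ‖b m‖ ^ 2) := by nlinarith
    exact le_of_mul_le_mul_left h6 h5

/-- the sign of the reciprocity law -/
def sg (r n : ℕ) : ℂ := if r = 3 ∧ n % 4 = 3 then -1 else 1

theorem norm_sg (r n : ℕ) : ‖sg r n‖ = 1 := by
  unfold sg
  split_ifs <;> simp

theorem js_recip {m n : ℕ} (hm : Odd m) (hn : Odd n) :
    (js m n : ℂ) = sg (m % 4) n * (js n m : ℂ) := by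
  have h := jacobiSym.quadratic_reciprocity_if (Nat.odd_iff.1 hm) (Nat.odd_iff.1 hn)
  unfold js sg
  rw [← h]
  split_ifs <;> simp

theorem osf_sub (M : ℕ) : osf M ⊆ sqf M := by
  intro n hn
  simp only [osf, sqf, mem_filter] at hn ⊢
  exact ⟨hn.1, hn.2.2⟩

theorem cls (M N : ℕ) (B : ℝ) (hB : 0 ≤ B) (h : LSB M N B) (r : ℕ) (a : ℕ → ℂ) :
    ∑ m ∈ (osf N).filter (fun m => m % 4 = r), ‖∑ n ∈ osf M, a n * (js m n : ℂ)‖ ^ 2 ≤
      B * ∑ n ∈ osf M, ‖a n‖ ^ 2 := by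
  classical
  have h1 := dual M N B hB h (fun n => if n ∈ osf M then sg r n * a n else 0)
  have e1 : ∑ m ∈ sqf M, ‖(if m ∈ osf M then sg r m * a m else 0)‖ ^ 2 =
      ∑ n ∈ osf M, ‖a n‖ ^ 2 := by
    rw [← Finset.sum_subset (osf_sub M)]
    · refine Finset.sum_congr rfl fun n hn => ?_
      rw [if_pos hn, norm_mul, norm_sg, one_mul]
    · intro n _ hn
      rw [if_neg hn]
      simp
  rw [e1] at h1
  refine le_trans ?_ h1
  refine le_trans ?_ (Finset.sum_le_sum_of_subset_of_nonneg (Finset.filter_subset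
    (fun m => m % 4 = r) (osf N)) fun m _ _ => by positivity)
  refine le_of_eq (Finset.sum_congr rfl fun m hm => ?_)
  rw [mem_filter] at hm
  obtain ⟨hm1, hm2⟩ := hm
  have hmo : Odd m := by
    simp only [osf, mem_filter] at hm1
    exact hm1.2.1
  congr 2
  rw [← Finset.sum_subset (osf_sub M)]
  · refine Finset.sum_congr rfl fun n hn => ?_
    have hno : Odd n := by
      simp only [osf, mem_filter] at hn
      exact hn.2.1
    rw [if_pos hn, js_recip hmo hno, hm2]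
    ring
  · intro n _ hn
    rw [if_neg hn, zero_mul]

theorem odds (M N : ℕ) (B : ℝ) (hB : 0 ≤ B) (h : LSB M N B) (a : ℕ → ℂ) :
    ∑ m ∈ osf N, ‖∑ n ∈ osf M, a n * (js m n : ℂ)‖ ^ 2 ≤
      2 * B * ∑ n ∈ osf M, ‖a n‖ ^ 2 := by
  classical
  have h1 := cls M N B hB h 1 a
  have h3 := cls M N B hB h 3 a
  have e : ∑ m ∈ osf N, ‖∑ n ∈ osf M, a n * (js m n : ℂ)‖ ^ 2 =
      ∑ m ∈ (osf N).filter (fun m => m % 4 = 1), ‖∑ n ∈ osf M, a n * (js m n : ℂ)‖ ^ 2 +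
      ∑ m ∈ (osf N).filter (fun m => m % 4 = 3), ‖∑ n ∈ osf M, a n * (js m n : ℂ)‖ ^ 2 := by
    rw [← Finset.sum_filter_add_sum_filter_not (osf N) (fun m => m % 4 = 1)]
    congr 1
    refine Finset.sum_congr ?_ fun _ _ => rfl
    ext m
    simp only [osf, mem_filter]
    constructor
    · rintro ⟨⟨h1, h2, h3⟩, h4⟩
      have := Nat.odd_iff.1 h2
      exact ⟨⟨h1, h2, h3⟩, by omega⟩
    · rintro ⟨⟨h1, h2, h3⟩, h4⟩
      exact ⟨⟨h1, h2, h3⟩, by omega⟩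
  rw [e]
  linarith

theorem abs_js_le (k : ℤ) (n : ℕ) : ‖(js k n : ℂ)‖ ≤ 1 := by
  unfold js
  rcases jacobiSym.trichotomy k n with h | h | h <;> rw [h] <;> simp

theorem js_two_mul (m n : ℕ) : (js ((2 * m : ℕ) : ℤ) n : ℂ) = (js 2 n : ℂ) * (js m n : ℂ) := by
  unfold js
  push_cast
  rw [jacobiSym.mul_left]
  push_cast
  rfl

theorem sqf_sub (N : ℕ) : sqf N ⊆ osf N ∪ (osf N).image fun m => 2 * m := by
  intro m hm
  simp only [sqf, osf, mem_filter, mem_Icc, mem_union, mem_image] at hm ⊢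
  obtain ⟨⟨h1, h2⟩, h3⟩ := hm
  rcases Nat.even_or_odd m with he | ho
  · right
    obtain ⟨k, hk⟩ := he
    have hk2 : m = 2 * k := by omega
    subst hk2
    refine ⟨k, ⟨⟨by omega, by omega⟩, ?_, h3.of_mul_right⟩, rfl⟩
    by_contra hno
    rw [Nat.not_odd_iff_even] at hno
    obtain ⟨l, hl⟩ := hno
    have h4 : 2 * 2 ∣ 2 * k := ⟨l, by omega⟩
    have h5 := h3 2 h4
    rw [Nat.isUnit_iff] at h5
    omega
  · left
    exact ⟨⟨h1, h2⟩, ho, h3⟩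

/-- duality and reciprocity -/
theorem HR (M N : ℕ) (B : ℝ) (hB : 0 ≤ B) (h : LSB M N B) :
    (∀ b : ℕ → ℂ, ∑ n ∈ osf N, ‖∑ m ∈ sqf M, b m * (js m n : ℂ)‖ ^ 2 ≤
      B * ∑ m ∈ sqf M, ‖b m‖ ^ 2) ∧ LSB N M (64 * B) := by
  classical
  refine ⟨dual M N B hB h, ?_⟩
  intro a
  have hA : 0 ≤ ∑ n ∈ osf M, ‖a n‖ ^ 2 := Finset.sum_nonneg fun n _ => by positivity
  have h1 := odds M N B hB h a
  have h2 := odds M N B hB h (fun n => a n * (js 2 n : ℂ))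
  have h3 : ∑ n ∈ osf M, ‖a n * (js 2 n : ℂ)‖ ^ 2 ≤ ∑ n ∈ osf M, ‖a n‖ ^ 2 := by
    refine Finset.sum_le_sum fun n _ => ?_
    refine pow_le_pow_left₀ (norm_nonneg _) ?_ 2
    rw [norm_mul]
    exact mul_le_of_le_one_right (norm_nonneg _) (abs_js_le 2 n)
  have h4 : ∑ m ∈ sqf N, ‖∑ n ∈ osf M, a n * (js m n : ℂ)‖ ^ 2 ≤
      ∑ m ∈ osf N, ‖∑ n ∈ osf M, a n * (js m n : ℂ)‖ ^ 2 +
      ∑ m ∈ osf N, ‖∑ n ∈ osf M, a n * (js 2 n : ℂ) * (js m n : ℂ)‖ ^ 2 := by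
    have e2 : ∑ m ∈ ((osf N).image (fun m : ℕ => (2 * m : ℕ)) : Finset ℕ),
        ‖∑ n ∈ osf M, a n * (js (m : ℕ) n : ℂ)‖ ^ 2 =
        ∑ m ∈ osf N, ‖∑ n ∈ osf M, a n * (js 2 n : ℂ) * (js m n : ℂ)‖ ^ 2 := by
      rw [Finset.sum_image (fun x _ y _ hxy => by
        have : 2 * x = 2 * y := hxy
        omega)]
      refine Finset.sum_congr rfl fun m _ => ?_
      congr 2
      refine Finset.sum_congr rfl fun n _ => ?_
      rw [js_two_mul]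
      ring
    rw [← e2]
    refine (Finset.sum_le_sum_of_subset_of_nonneg (sqf_sub N) fun m _ _ => by positivity).trans ?_
    rw [← Finset.sum_union_inter]
    exact le_add_of_nonneg_right (Finset.sum_nonneg fun m _ => by positivity)
  have h5 : 2 * B * ∑ n ∈ osf M, ‖a n * (js 2 n : ℂ)‖ ^ 2 ≤ 2 * B * ∑ n ∈ osf M, ‖a n‖ ^ 2 :=
    mul_le_mul_of_nonneg_left h3 (by positivity)
  have h6 : 0 ≤ B * ∑ n ∈ osf M, ‖a n‖ ^ 2 := mul_nonneg hB hA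
  nlinarith

end

end Pool.Agent.H640R2.RZ4
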