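import Mathlib
import Pool.Agent.H295R2.Beu.Defs

/-!
# Task A1: bounds of `psi` and `psi` annihilates `u ↦ {t u}` for `t ≥ 1`
-/

set_option autoImplicit false

open MeasureTheory Filter Topology Set

namespace Pool.Agent.H640R2.BeuA1

open Pool.Agent.H295R2.Beu

theorem psiBound : PsiBound := by
  intro u hu
  have hpi := Real.pi_pos
  have hpi2 : Real.pi < 3.1416 := Real.pi_lt_d4
  have hu2 : 0 < u ^ 2 := by positivity
  have hu3 : 0 < u ^ 3 := by positivity
  have hs1 : |Real.sin (Real.pi * u / 2)| ≤ 1 := Real.abs_sin_le_one _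
  have hc1 : |Real.cos (Real.pi * u / 2)| ≤ 1 := Real.abs_cos_le_one _
  have hs0 : 0 ≤ |Real.sin (Real.pi * u / 2)| := abs_nonneg _
  have hc0 : 0 ≤ |Real.cos (Real.pi * u / 2)| := abs_nonneg _
  have hsx : |Real.sin (Real.pi * u / 2)| ≤ Real.pi * u / 2 := by
    have h1 : |Real.sin (Real.pi * u / 2)| ≤ |Real.pi * u / 2| := Real.abs_sin_le_abs
    rwa [abs_of_pos (by positivity : 0 < Real.pi * u / 2)] at h1
  have key : |psi u| ≤ 2 * |Real.sin (Real.pi * u / 2)| ^ 4 / u ^ 3 +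
      2 * Real.pi * |Real.sin (Real.pi * u / 2)| ^ 3 * |Real.cos (Real.pi * u / 2)| / u ^ 2 := by
    unfold psi
    refine (abs_sub _ _).trans ?_
    rw [abs_div, abs_div, abs_of_pos hu3, abs_of_pos hu2, abs_mul, abs_mul, abs_mul, abs_mul,
      abs_pow, abs_pow, abs_of_pos hpi, abs_two]
  set s := |Real.sin (Real.pi * u / 2)| with hs
  set c := |Real.cos (Real.pi * u / 2)| with hc
  have hs3 : s ^ 3 ≤ (Real.pi * u / 2) ^ 3 := pow_le_pow_left₀ hs0 hsx 3
  have hs2 : s ^ 2 ≤ (Real.pi * u / 2) ^ 2 := pow_le_pow_left₀ hs0 hsx 2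
  constructor
  · refine key.trans ?_
    have h1 : 2 * s ^ 4 / u ^ 3 ≤ Real.pi ^ 3 / 4 := by
      rw [div_le_iff₀ hu3]
      have : s ^ 4 ≤ s ^ 3 := pow_le_pow_of_le_one hs0 hs1 (by norm_num)
      calc 2 * s ^ 4 ≤ 2 * (Real.pi * u / 2) ^ 3 := by linarith
        _ = Real.pi ^ 3 / 4 * u ^ 3 := by ring
    have h2 : 2 * Real.pi * s ^ 3 * c / u ^ 2 ≤ Real.pi ^ 3 / 2 := by
      rw [div_le_iff₀ hu2]
      have h3 : s ^ 3 ≤ s ^ 2 := pow_le_pow_of_le_one hs0 hs1 (by norm_num)
      have h4 : s ^ 3 * c ≤ s ^ 2 * 1 := mul_le_mul h3 hc1 hc0 (by positivity)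
      calc 2 * Real.pi * s ^ 3 * c = 2 * Real.pi * (s ^ 3 * c) := by ring
        _ ≤ 2 * Real.pi * (Real.pi * u / 2) ^ 2 := by
            refine mul_le_mul_of_nonneg_left ?_ (by positivity)
            linarith
        _ = Real.pi ^ 3 / 2 * u ^ 2 := by ring
    have h5 : Real.pi ^ 3 ≤ 3.1416 ^ 3 := pow_le_pow_left₀ hpi.le hpi2.le 3
    have h6 : (3.1416 : ℝ) ^ 3 ≤ 31.01 := by norm_num
    linarith
  · refine key.trans ?_
    have h1 : 2 * s ^ 4 / u ^ 3 ≤ Real.pi / u ^ 2 := by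
      rw [div_le_div_iff₀ hu3 hu2]
      have : s ^ 4 ≤ s ^ 1 := pow_le_pow_of_le_one hs0 hs1 (by norm_num)
      calc 2 * s ^ 4 * u ^ 2 ≤ 2 * (Real.pi * u / 2) * u ^ 2 := by
            refine mul_le_mul_of_nonneg_right ?_ hu2.le
            linarith
        _ = Real.pi * u ^ 3 := by ring
    have h2 : 2 * Real.pi * s ^ 3 * c / u ^ 2 ≤ 2 * Real.pi / u ^ 2 := by
      refine div_le_div_of_nonneg_right ?_ hu2.le
      have h3 : s ^ 3 ≤ 1 := pow_le_one₀ hs0 hs1
      have h4 : s ^ 3 * c ≤ 1 * 1 := mul_le_mul h3 hc1 hc0 (by norm_num)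
      calc 2 * Real.pi * s ^ 3 * c = 2 * Real.pi * (s ^ 3 * c) := by ring
        _ ≤ 2 * Real.pi * (1 * 1) := mul_le_mul_of_nonneg_left h4 (by positivity)
        _ = 2 * Real.pi := by ring
    have h3 : Real.pi / u ^ 2 + 2 * Real.pi / u ^ 2 ≤ 24 / u ^ 2 := by
      rw [← add_div]
      exact div_le_div_of_nonneg_right (by linarith) hu2.le
    linarith

theorem F_bound (u : ℝ) (hu : 0 < u) : |F u| ≤ 24 ∧ |F u| ≤ 24 / u ^ 2 := by
  have hpi := Real.pi_pos
  have hpi2 : Real.pi < 3.1416 := Real.pi_lt_d4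
  have hu2 : 0 < u ^ 2 := by positivity
  have hs1 : |Real.sin (Real.pi * u / 2)| ≤ 1 := Real.abs_sin_le_one _
  have hs0 : 0 ≤ |Real.sin (Real.pi * u / 2)| := abs_nonneg _
  have hsx : |Real.sin (Real.pi * u / 2)| ≤ Real.pi * u / 2 := by
    have h1 : |Real.sin (Real.pi * u / 2)| ≤ |Real.pi * u / 2| := Real.abs_sin_le_abs
    rwa [abs_of_pos (by positivity : 0 < Real.pi * u / 2)] at h1
  have key : |F u| = |Real.sin (Real.pi * u / 2)| ^ 4 / u ^ 2 := by
    unfold F
    rw [abs_div, abs_pow, abs_of_pos hu2]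
  rw [key]
  set s := |Real.sin (Real.pi * u / 2)| with hs
  have hs2 : s ^ 2 ≤ (Real.pi * u / 2) ^ 2 := pow_le_pow_left₀ hs0 hsx 2
  constructor
  · rw [div_le_iff₀ hu2]
    have h1 : s ^ 4 ≤ s ^ 2 := pow_le_pow_of_le_one hs0 hs1 (by norm_num)
    have h2 : Real.pi ^ 2 ≤ 3.1416 ^ 2 := pow_le_pow_left₀ hpi.le hpi2.le 2
    have h3 : (3.1416 : ℝ) ^ 2 ≤ 10 := by norm_num
    calc s ^ 4 ≤ (Real.pi * u / 2) ^ 2 := h1.trans hs2
      _ = Real.pi ^ 2 / 4 * u ^ 2 := by ring
      _ ≤ 24 * u ^ 2 := mul_le_mul_of_nonneg_right (by linarith) hu2.le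
  · refine div_le_div_of_nonneg_right ?_ hu2.le
    exact (pow_le_one₀ hs0 hs1).trans (by norm_num)

theorem integrableOn_of_bound {f : ℝ → ℝ} (hf : Measurable f)
    (hb : ∀ u : ℝ, 0 < u → |f u| ≤ 24 ∧ |f u| ≤ 24 / u ^ 2) : IntegrableOn f (Ioi 0) := by
  have h0 : Ioi (0 : ℝ) = Ioc 0 1 ∪ Ioi 1 := by
    rw [Ioc_union_Ioi_eq_Ioi zero_le_one]
  rw [h0]
  refine IntegrableOn.union ?_ ?_
  · refine Measure.integrableOn_of_bounded (M := 24) (by simp) hf.aestronglyMeasurable ?_
    rw [ae_restrict_iff' measurableSet_Ioc]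
    refine Filter.Eventually.of_forall ?_
    intro u hu
    rw [Real.norm_eq_abs]
    exact (hb u hu.1).1
  · have h1 : IntegrableOn (fun u : ℝ => 24 * u ^ (-2 : ℝ)) (Ioi 1) :=
      (integrableOn_Ioi_rpow_of_lt (by norm_num) zero_lt_one).const_mul 24
    refine Integrable.mono' h1 hf.aestronglyMeasurable ?_
    rw [ae_restrict_iff' measurableSet_Ioi]
    refine Filter.Eventually.of_forall ?_
    intro u hu
    have hu0 : (0 : ℝ) < u := lt_trans zero_lt_one hu
    rw [Real.norm_eq_abs]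
    refine ((hb u hu0).2).trans (le_of_eq ?_)
    rw [Real.rpow_neg hu0.le, div_eq_mul_inv]
    norm_num

theorem measurable_psi : Measurable psi := by
  unfold psi
  fun_prop

theorem measurable_F : Measurable F := by
  unfold F
  fun_prop

theorem psi_int : IntegrableOn psi (Ioi 0) := integrableOn_of_bound measurable_psi psiBound

theorem F_int : IntegrableOn F (Ioi 0) := integrableOn_of_bound measurable_F F_bound

theorem hasDerivAt_F (u : ℝ) (hu : u ≠ 0) : HasDerivAt F (-psi u) u := by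
  have h1 : HasDerivAt (fun u : ℝ => Real.pi * u / 2) (Real.pi / 2) u := by
    have := ((hasDerivAt_id u).const_mul Real.pi).div_const 2
    simpa using this
  have h2 := (h1.sin).fun_pow 4
  have h3 := hasDerivAt_pow 2 u
  have h4 := h2.fun_div h3 (by positivity)
  have h5 : HasDerivAt F _ u := h4
  convert h5 using 1
  unfold psi
  push_cast
  field_simp
  ring

theorem F_zero : F 0 = 0 := by
  unfold F
  simp

theorem continuous_F : Continuous F := by
  rw [continuous_iff_continuousAt]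
  intro u
  by_cases hu : u = 0
  · subst hu
    rw [ContinuousAt, F_zero]
    have h1 : Tendsto (fun u : ℝ => (Real.pi / 2) ^ 4 * u ^ 2) (𝓝 0) (𝓝 0) := by
      have : Continuous (fun u : ℝ => (Real.pi / 2) ^ 4 * u ^ 2) := by fun_prop
      have h := this.tendsto 0
      simpa using h
    refine squeeze_zero_norm ?_ h1
    intro v
    by_cases hv : v = 0
    · subst hv
      rw [F_zero]
      simp
    · have hv2 : 0 < v ^ 2 := by positivity
      unfold F
      rw [norm_div, norm_pow, norm_pow, Real.norm_eq_abs, Real.norm_eq_abs, sq_abs,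
        div_le_iff₀ hv2]
      have h2 : |Real.sin (Real.pi * v / 2)| ≤ |Real.pi * v / 2| := Real.abs_sin_le_abs
      calc |Real.sin (Real.pi * v / 2)| ^ 4 ≤ |Real.pi * v / 2| ^ 4 :=
            pow_le_pow_left₀ (abs_nonneg _) h2 4
        _ = (Real.pi * v / 2) ^ 4 := by
            rw [← abs_pow]
            exact abs_of_nonneg (by positivity)
        _ = (Real.pi / 2) ^ 4 * v ^ 2 * v ^ 2 := by ring
  · exact (hasDerivAt_F u hu).continuousAt

theorem fract_mul_psi_int (t : ℝ) : IntegrableOn (fun u => Int.fract (t * u) * psi u) (Ioi 0) := by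
  refine Integrable.bdd_mul (c := 1) psi_int ?_ ?_
  · exact ((measurable_fract.comp (measurable_const_mul t)).aestronglyMeasurable)
  · refine Filter.Eventually.of_forall ?_
    intro u
    rw [Real.norm_eq_abs, abs_of_nonneg (Int.fract_nonneg _)]
    exact (Int.fract_lt_one _).le

theorem intervalInt_of_Ioi {f : ℝ → ℝ} (hf : IntegrableOn f (Ioi 0)) {a b : ℝ} (ha : 0 ≤ a)
    (hab : a ≤ b) : IntervalIntegrable f volume a b := by
  rw [intervalIntegrable_iff_integrableOn_Ioc_of_le hab]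
  exact hf.mono_set (fun x hx => lt_of_le_of_lt ha hx.1)

theorem piece (t : ℝ) (ht : 0 < t) (k : ℕ) :
    ∫ u in ((k : ℝ) / t)..(((k + 1 : ℕ) : ℝ) / t), Int.fract (t * u) * psi u =
      t * (∫ u in ((k : ℝ) / t)..(((k + 1 : ℕ) : ℝ) / t), F u) - F (((k + 1 : ℕ) : ℝ) / t) := by
  have ha : 0 ≤ (k : ℝ) / t := by positivity
  have hab : (k : ℝ) / t ≤ ((k + 1 : ℕ) : ℝ) / t := by
    apply div_le_div_of_nonneg_right _ ht.le
    push_cast
    linarith
  have h1 : ∫ u in ((k : ℝ) / t)..(((k + 1 : ℕ) : ℝ) / t), Int.fract (t * u) * psi u =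
      ∫ u in ((k : ℝ) / t)..(((k + 1 : ℕ) : ℝ) / t), (t * u - k) * psi u := by
    rw [intervalIntegral.integral_of_le hab, intervalIntegral.integral_of_le hab,
      integral_Ioc_eq_integral_Ioo, integral_Ioc_eq_integral_Ioo]
    refine setIntegral_congr_fun measurableSet_Ioo ?_
    intro u hu
    have hu1 : (k : ℝ) ≤ t * u := by
      have := hu.1
      rw [div_lt_iff₀ ht] at this
      linarith
    have hu2 : t * u < k + 1 := by
      have := hu.2
      rw [lt_div_iff₀ ht] at this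
      push_cast at this
      linarith
    have hfl : ⌊t * u⌋ = (k : ℤ) := by
      rw [Int.floor_eq_iff]
      constructor
      · exact_mod_cast hu1
      · exact_mod_cast hu2
    show Int.fract (t * u) * psi u = (t * u - k) * psi u
    rw [Int.fract, hfl]
    push_cast
    rfl
  have hpsi := intervalInt_of_Ioi psi_int ha hab
  have hF : IntervalIntegrable F volume ((k : ℝ) / t) (((k + 1 : ℕ) : ℝ) / t) :=
    continuous_F.intervalIntegrable _ _
  have hc : IntervalIntegrable (fun u => (t * u - k) * psi u) volume ((k : ℝ) / t)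
      (((k + 1 : ℕ) : ℝ) / t) := by
    refine hpsi.continuousOn_mul ?_
    fun_prop
  have hF' : IntervalIntegrable (fun u => t * F u) volume ((k : ℝ) / t)
      (((k + 1 : ℕ) : ℝ) / t) := hF.const_mul t
  have h2 := intervalIntegral.integral_eq_sub_of_hasDerivAt_of_le (f := fun u => (t * u - k) * F u)
    (f' := fun u => t * F u - (t * u - k) * psi u) hab
    (by
      have : Continuous fun u => (t * u - k) * F u := by
        have := continuous_F
        fun_prop
      exact this.continuousOn)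
    (by
      intro u hu
      have hu0 : u ≠ 0 := (lt_of_le_of_lt ha hu.1).ne'
      have h3 : HasDerivAt (fun u : ℝ => t * u - k) t u := by
        have := ((hasDerivAt_id u).const_mul t).sub_const (k : ℝ)
        simpa using this
      have h4 := h3.fun_mul (hasDerivAt_F u hu0)
      have h6 : t * F u - (t * u - k) * psi u = t * F u + (t * u - k) * (-psi u) := by ring
      show HasDerivAt (fun u => (t * u - k) * F u) (t * F u - (t * u - k) * psi u) u
      rw [h6]
      exact h4)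
    (hF'.sub hc)
  rw [intervalIntegral.integral_sub hF' hc, intervalIntegral.integral_const_mul] at h2
  rw [h1]
  have h5 : t * (((k + 1 : ℕ) : ℝ) / t) - k = 1 := by
    field_simp
    push_cast
    ring
  have h6 : t * ((k : ℝ) / t) - k = 0 := by
    field_simp
    ring
  simp only [h5, h6, one_mul, zero_mul, sub_zero] at h2
  linarith

theorem sum_piece (t : ℝ) (ht : 0 < t) (K : ℕ) :
    ∫ u in (0 : ℝ)..((K : ℝ) / t), Int.fract (t * u) * psi u =
      t * (∫ u in (0 : ℝ)..((K : ℝ) / t), F u) - ∑ k ∈ Finset.range K, F (((k + 1 : ℕ) : ℝ) / t) := by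
  have hle : ∀ k : ℕ, (k : ℝ) / t ≤ ((k + 1 : ℕ) : ℝ) / t := by
    intro k
    apply div_le_div_of_nonneg_right _ ht.le
    push_cast
    linarith
  have h1 := intervalIntegral.sum_integral_adjacent_intervals
    (f := fun u => Int.fract (t * u) * psi u) (μ := volume) (a := fun k : ℕ => (k : ℝ) / t) (n := K)
    (fun k _ => intervalInt_of_Ioi (fract_mul_psi_int t) (by positivity) (hle k))
  have h2 := intervalIntegral.sum_integral_adjacent_intervals
    (f := F) (μ := volume) (a := fun k : ℕ => (k : ℝ) / t) (n := K)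
    (fun k _ => continuous_F.intervalIntegrable _ _)
  have h0 : ((0 : ℕ) : ℝ) / t = 0 := by simp
  rw [h0] at h1 h2
  rw [← h1, ← h2, Finset.mul_sum, ← Finset.sum_sub_distrib]
  exact Finset.sum_congr rfl fun k _ => piece t ht k

theorem bernoulli_two_eval (x : ℝ) :
    (Polynomial.map (algebraMap ℚ ℝ) (Polynomial.bernoulli (2 * 1))).eval x = x ^ 2 - x + 1 / 6 := by
  rw [Polynomial.bernoulli_def]
  simp [Finset.sum_range_succ, bernoulli_one, bernoulli_two]
  norm_num
  ring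

theorem hasSum_cos (x : ℝ) (hx : x ∈ Icc (0 : ℝ) 1) :
    HasSum (fun n : ℕ => 1 / (n : ℝ) ^ 2 * Real.cos (2 * Real.pi * n * x))
      (Real.pi ^ 2 * (x ^ 2 - x + 1 / 6)) := by
  have h := hasSum_one_div_nat_pow_mul_cos one_ne_zero hx
  rw [bernoulli_two_eval] at h
  convert h using 1
  norm_num [Nat.factorial]
  ring

theorem hasSum_F (t : ℝ) (ht : 1 ≤ t) :
    HasSum (fun k : ℕ => F ((k : ℝ) / t)) (t * Real.pi ^ 2 / 8) := by
  have ht0 : 0 < t := by linarith
  have hx1 : 1 / (2 * t) ∈ Icc (0 : ℝ) 1 := by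
    constructor
    · positivity
    · rw [div_le_one (by positivity)]
      linarith
  have hx2 : 1 / t ∈ Icc (0 : ℝ) 1 := by
    constructor
    · positivity
    · rw [div_le_one (by positivity)]
      linarith
  have hx0 : (0 : ℝ) ∈ Icc (0 : ℝ) 1 := ⟨le_rfl, zero_le_one⟩
  have h0 := (hasSum_cos 0 hx0).mul_left (3 / 8 * t ^ 2)
  have h1 := (hasSum_cos _ hx1).mul_left (1 / 2 * t ^ 2)
  have h2 := (hasSum_cos _ hx2).mul_left (1 / 8 * t ^ 2)
  have h3 := (h0.sub h1).add h2
  have hv : t * Real.pi ^ 2 / 8 = 3 / 8 * t ^ 2 * (Real.pi ^ 2 * ((0 : ℝ) ^ 2 - 0 + 1 / 6)) -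
        1 / 2 * t ^ 2 * (Real.pi ^ 2 * ((1 / (2 * t)) ^ 2 - 1 / (2 * t) + 1 / 6)) +
      1 / 8 * t ^ 2 * (Real.pi ^ 2 * ((1 / t) ^ 2 - 1 / t + 1 / 6)) := by
    field_simp
    ring
  rw [hv]
  refine h3.congr_fun ?_
  intro k
  unfold F
  have e1 : Real.cos (2 * Real.pi * k * (1 / (2 * t))) =
      Real.cos (2 * (Real.pi * (k / t) / 2)) := by
    congr 1
    field_simp
  have e2 : Real.cos (2 * Real.pi * k * (1 / t)) =
      Real.cos (2 * (2 * (Real.pi * (k / t) / 2))) := by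
    congr 1
    field_simp
  rw [e1, e2, mul_zero, Real.cos_zero, Real.cos_two_mul (2 * (Real.pi * (k / t) / 2)),
    Real.cos_two_mul (Real.pi * (k / t) / 2)]
  have e3 := Real.sin_sq_add_cos_sq (Real.pi * (k / t) / 2)
  have e4 : Real.cos (Real.pi * (k / t) / 2) ^ 2 = 1 - Real.sin (Real.pi * (k / t) / 2) ^ 2 := by
    linarith
  rw [e4]
  by_cases hk : (k : ℝ) = 0
  · rw [hk]
    simp
  · field_simp
    ring

theorem phi_eq (t : ℝ) (ht : 1 ≤ t) :
    ∫ u in Ioi (0 : ℝ), Int.fract (t * u) * psi u =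
      t * ((∫ u in Ioi (0 : ℝ), F u) - Real.pi ^ 2 / 8) := by
  have ht0 : 0 < t := by linarith
  have hb : Tendsto (fun K : ℕ => (K : ℝ) / t) atTop atTop :=
    tendsto_natCast_atTop_atTop.atTop_div_const ht0
  have h1 := intervalIntegral_tendsto_integral_Ioi 0 (fract_mul_psi_int t) hb
  have h2 := intervalIntegral_tendsto_integral_Ioi 0 F_int hb
  have h3 : Tendsto (fun K : ℕ => ∑ k ∈ Finset.range K, F (((k + 1 : ℕ) : ℝ) / t)) atTop
      (𝓝 (t * Real.pi ^ 2 / 8)) := by
    have h4 := (hasSum_F t ht).tendsto_sum_nat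
    have h5 := h4.comp (tendsto_add_atTop_nat 1)
    refine h5.congr ?_
    intro K
    show ∑ k ∈ Finset.range (K + 1), F ((k : ℝ) / t) = _
    rw [Finset.sum_range_succ', Nat.cast_zero, zero_div, F_zero, add_zero]
  have h6 := (h2.const_mul t).sub h3
  have h7 : Tendsto (fun K : ℕ => ∫ u in (0 : ℝ)..((K : ℝ) / t), Int.fract (t * u) * psi u) atTop
      (𝓝 (t * (∫ u in Ioi (0 : ℝ), F u) - t * Real.pi ^ 2 / 8)) := by
    refine h6.congr ?_
    intro K
    exact (sum_piece t ht0 K).symm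
  rw [tendsto_nhds_unique h1 h7]
  ring

theorem psiAnn : PsiAnn := by
  intro t ht
  have hB : (∫ u in Ioi (0 : ℝ), F u) - Real.pi ^ 2 / 8 = 0 := by
    by_contra hne
    have hpos : 0 < |(∫ u in Ioi (0 : ℝ), F u) - Real.pi ^ 2 / 8| := abs_pos.2 hne
    have hbd : ∀ t : ℝ, 1 ≤ t → t * |(∫ u in Ioi (0 : ℝ), F u) - Real.pi ^ 2 / 8| ≤
        ∫ u in Ioi (0 : ℝ), |psi u| := by
      intro t ht
      have ht0 : 0 < t := by linarith
      have h1 : t * |(∫ u in Ioi (0 : ℝ), F u) - Real.pi ^ 2 / 8| =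
          ‖∫ u in Ioi (0 : ℝ), Int.fract (t * u) * psi u‖ := by
        rw [phi_eq t ht, norm_mul, Real.norm_eq_abs, Real.norm_eq_abs, abs_of_pos ht0]
      rw [h1]
      refine (norm_integral_le_integral_norm _).trans ?_
      refine integral_mono (fract_mul_psi_int t).norm psi_int.abs ?_
      intro u
      show ‖Int.fract (t * u) * psi u‖ ≤ |psi u|
      rw [norm_mul, Real.norm_eq_abs, Real.norm_eq_abs, abs_of_nonneg (Int.fract_nonneg _)]
      exact mul_le_of_le_one_left (abs_nonneg _) (Int.fract_lt_one _).le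
    set P := ∫ u in Ioi (0 : ℝ), |psi u| with hP
    set B := |(∫ u in Ioi (0 : ℝ), F u) - Real.pi ^ 2 / 8| with hBdef
    have h1 := hbd (max 1 ((P + 1) / B)) (le_max_left _ _)
    have h2 : P + 1 ≤ max 1 ((P + 1) / B) * B := by
      have h3 : (P + 1) / B ≤ max 1 ((P + 1) / B) := le_max_right _ _
      rwa [div_le_iff₀ hpos] at h3
    linarith
  rw [phi_eq t ht, hB, mul_zero]

end Pool.Agent.H640R2.BeuA1
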