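import Pool.Agent.H295R2.MK.Defs

set_option autoImplicit false

/-! F2: the constant. -/

namespace Pool.Agent.H640R2.MK

open H295MK Pool.Agent.H306R2

theorem vol_ratio (q : ℕ) (a x : ℝ) (ha : 0 < a) (hx : 0 < x) :
    (a * (x * volE q)) ^ 2 / (a * (x * volN q)) =
      a / ((4 * q).factorial : ℝ) * (x * ((4 * q).choose q : ℝ) ^ 2) := by
  have h1 : (0 : ℝ) < (q.factorial : ℝ) := by exact_mod_cast Nat.factorial_pos q
  have h2 : (0 : ℝ) < ((2 * q).factorial : ℝ) := by exact_mod_cast Nat.factorial_pos _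
  have h3 : (0 : ℝ) < ((3 * q).factorial : ℝ) := by exact_mod_cast Nat.factorial_pos _
  have h4 : (0 : ℝ) < ((4 * q).factorial : ℝ) := by exact_mod_cast Nat.factorial_pos _
  have hc : ((4 * q).choose q : ℝ) = ((4 * q).factorial : ℝ) /
      ((q.factorial : ℝ) * ((3 * q).factorial : ℝ)) := by
    rw [Nat.cast_choose ℝ (by omega : q ≤ 4 * q), show 4 * q - q = 3 * q by omega]
  rw [hc]
  unfold volE volN
  field_simp

/-- F2 -/
theorem const_holds : Const := by
  intro j hj
  have hj0 : (0 : ℝ) < (j : ℝ) := by exact_mod_cast hj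
  have ha : 0 < aF (2 * (j : ℝ)) := aF_pos (by positivity)
  have hx : (0 : ℝ) < (1 / 2) ^ (4 * j ^ 2) := by positivity
  exact vol_ratio (j ^ 2) (aF (2 * j)) ((1 / 2) ^ (4 * j ^ 2)) ha hx

end Pool.Agent.H640R2.MK
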