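import Pool.Agent.H306R2.RZ.Defs4

set_option autoImplicit false

/-! Elementary symmetric functions of mostly negative signs. -/

namespace Pool.Agent.H640R2.RZ4

open Finset Filter Topology MeasureTheory Pool.Agent.H306R2.RZ

namespace SP1aux

open Polynomial in
theorem coeff_one_sub (n k : ℕ) :
    ((1 - X : ℝ[X]) ^ n).coeff k = (n.choose k : ℝ) * (-1) ^ k := by
  have h : (1 - X : ℝ[X]) ^ n = ((1 + X : ℝ[X]) ^ n).comp (C (-1) * X) := by
    simp [sub_eq_add_neg]
  rw [h, comp_C_mul_X_coeff, coeff_one_add_X_pow]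

open Polynomial in
theorem esym_coeff (P : Finset ℕ) (x : ℕ → ℝ) (k : ℕ) :
    (∏ p ∈ P, (1 + C (x p) * X : ℝ[X])).coeff k = ∑ S ∈ P.powersetCard k, ∏ p ∈ S, x p := by
  classical
  rw [prod_one_add, finsetSum_coeff, powersetCard_eq_filter, sum_filter]
  refine sum_congr rfl fun t _ => ?_
  rw [prod_mul_distrib, prod_const, ← map_prod, coeff_C_mul_X_pow]
  by_cases h : k = t.card
  · rw [if_pos h, if_pos h.symm]
  · rw [if_neg h, if_neg (fun h' => h h'.symm)]

open Polynomial in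
theorem esym_formula (P : Finset ℕ) (x : ℕ → ℝ) (hx : ∀ p ∈ P, x p = -1 ∨ x p = 0 ∨ x p = 1)
    (k : ℕ) : ∑ S ∈ P.powersetCard k, ∏ p ∈ S, x p =
      ∑ j ∈ range (k + 1), (((P.filter (fun p => x p = 1)).card.choose j : ℕ) : ℝ) *
        ((((P.filter (fun p => x p = -1)).card.choose (k - j) : ℕ) : ℝ) * (-1) ^ (k - j)) := by
  classical
  rw [← esym_coeff]
  have h1 : (∏ p ∈ P, (1 + C (x p) * X : ℝ[X])) =
      (1 + X) ^ (P.filter (fun p => x p = 1)).card *
        (1 - X) ^ (P.filter (fun p => x p = -1)).card := by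
    rw [← prod_const, ← prod_const, prod_filter, prod_filter, ← prod_mul_distrib]
    refine prod_congr rfl fun p hp => ?_
    rcases hx p hp with h | h | h
    · rw [h, if_neg (by norm_num), if_pos rfl]
      simp [sub_eq_add_neg]
    · rw [h, if_neg (by norm_num), if_neg (by norm_num)]
      simp
    · rw [h, if_pos rfl, if_neg (by norm_num)]
      simp
  rw [h1, coeff_mul, Finset.Nat.sum_antidiagonal_eq_sum_range_succ
    (fun i j => ((1 + X : ℝ[X]) ^ (P.filter (fun p => x p = 1)).card).coeff i *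
      ((1 - X : ℝ[X]) ^ (P.filter (fun p => x p = -1)).card).coeff j)]
  refine sum_congr rfl fun j _ => ?_
  rw [coeff_one_add_X_pow, coeff_one_sub]

/-- the ratio of binomial coefficients -/
theorem step (a b k i : ℕ) (hi : i + 1 ≤ k) (h : 4 * a * k + k ≤ b) :
    4 * a * b.choose i ≤ b.choose (i + 1) := by
  have hb : 0 < b - i := by
    have : k ≤ b := by omega
    omega
  refine Nat.le_of_mul_le_mul_right ?_ hb
  have e1 : b.choose (i + 1) * (i + 1) = b.choose i * (b - i) := Nat.choose_succ_right_eq b i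
  calc 4 * a * b.choose i * (b - i) = 4 * a * (b.choose i * (b - i)) := by ring
    _ = 4 * a * (b.choose (i + 1) * (i + 1)) := by rw [e1]
    _ = b.choose (i + 1) * (4 * a * (i + 1)) := by ring
    _ ≤ b.choose (i + 1) * (b - i) := by
        refine Nat.mul_le_mul_left _ ?_
        have h2 : 4 * a * (i + 1) ≤ 4 * a * k := Nat.mul_le_mul_left _ hi
        omega

theorem steps (a b k : ℕ) (h : 4 * a * k + k ≤ b) : ∀ j ≤ k,
    (4 * a) ^ j * b.choose (k - j) ≤ b.choose k := by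
  intro j
  induction j with
  | zero => intro _; simp
  | succ j ih =>
    intro hj
    have h1 := ih (by omega)
    have h2 := step a b k (k - (j + 1)) (by omega) h
    have h3 : k - (j + 1) + 1 = k - j := by omega
    rw [h3] at h2
    calc (4 * a) ^ (j + 1) * b.choose (k - (j + 1)) =
        (4 * a) ^ j * (4 * a * b.choose (k - (j + 1))) := by ring
      _ ≤ (4 * a) ^ j * b.choose (k - j) := Nat.mul_le_mul_left _ h2
      _ ≤ _ := h1

theorem term_le (a b k : ℕ) (h : 4 * a * k + k ≤ b) (j : ℕ) (hj : j ≤ k) :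
    ((a.choose j : ℕ) : ℝ) * ((b.choose (k - j) : ℕ) : ℝ) ≤ (b.choose k : ℝ) * (1 / 4) ^ j := by
  have h1 : (4 : ℝ) ^ j * (a : ℝ) ^ j * ((b.choose (k - j) : ℕ) : ℝ) ≤ (b.choose k : ℝ) := by
    have := steps a b k h j hj
    rw [mul_pow] at this
    exact_mod_cast this
  have h2 : ((a.choose j : ℕ) : ℝ) ≤ (a : ℝ) ^ j := by
    exact_mod_cast Nat.choose_le_pow a j
  have h3 : (0 : ℝ) < 4 ^ j := by positivity
  rw [one_div, inv_pow, ← div_eq_mul_inv, le_div_iff₀ h3]
  calc ((a.choose j : ℕ) : ℝ) * ((b.choose (k - j) : ℕ) : ℝ) * 4 ^ j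
      ≤ (a : ℝ) ^ j * ((b.choose (k - j) : ℕ) : ℝ) * 4 ^ j := by gcongr
    _ = (4 : ℝ) ^ j * (a : ℝ) ^ j * ((b.choose (k - j) : ℕ) : ℝ) := by ring
    _ ≤ _ := h1

theorem geom_le (k : ℕ) : ∑ j ∈ range k, (1 / 4 : ℝ) ^ (j + 1) ≤ 1 / 3 := by
  have h1 : ∀ n : ℕ, ∑ j ∈ range n, (1 / 4 : ℝ) ^ (j + 1) = 1 / 3 - (1 / 3) * (1 / 4) ^ n := by
    intro n
    induction n with
    | zero => simp
    | succ n ih =>
      rw [sum_range_succ, ih, pow_succ]
      ring
  rw [h1]
  have : (0 : ℝ) ≤ (1 / 3) * (1 / 4) ^ k := by positivity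
  linarith

end SP1aux

open SP1aux in
/-- elementary symmetric functions of mostly negative signs -/
theorem SP1 (P : Finset ℕ) (x : ℕ → ℝ) (hx : ∀ p ∈ P, x p = -1 ∨ x p = 0 ∨ x p = 1)
    (k m N : ℕ) (hm : (P.filter (fun p => x p = 1)).card ≤ m)
    (hN : N ≤ (P.filter (fun p => x p = -1)).card) (h : 4 * m * k + k ≤ N) :
    (N.choose k : ℝ) / 2 ≤ |∑ S ∈ P.powersetCard k, ∏ p ∈ S, x p| := by
  classical
  rw [esym_formula P x hx k]
  set a : ℕ := (P.filter (fun p => x p = 1)).card with ha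
  set b : ℕ := (P.filter (fun p => x p = -1)).card with hb
  have hab : 4 * a * k + k ≤ b := by
    have h1 : 4 * a * k ≤ 4 * m * k := Nat.mul_le_mul_right _ (Nat.mul_le_mul_left _ hm)
    omega
  rw [sum_range_succ']
  have h0 : |((a.choose 0 : ℕ) : ℝ) * (((b.choose (k - 0) : ℕ) : ℝ) * (-1) ^ (k - 0))| =
      (b.choose k : ℝ) := by
    rw [Nat.choose_zero_right, Nat.cast_one, one_mul, Nat.sub_zero, abs_mul, abs_pow, abs_neg,
      abs_one, one_pow, mul_one, abs_of_nonneg (Nat.cast_nonneg _)]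
  have h1 : |∑ j ∈ range k, ((a.choose (j + 1) : ℕ) : ℝ) *
      (((b.choose (k - (j + 1)) : ℕ) : ℝ) * (-1) ^ (k - (j + 1)))| ≤ (b.choose k : ℝ) * (1 / 3) := by
    calc _ ≤ ∑ j ∈ range k, |((a.choose (j + 1) : ℕ) : ℝ) *
          (((b.choose (k - (j + 1)) : ℕ) : ℝ) * (-1) ^ (k - (j + 1)))| := abs_sum_le_sum_abs _ _
      _ ≤ ∑ j ∈ range k, (b.choose k : ℝ) * (1 / 4) ^ (j + 1) := by
          refine sum_le_sum fun j hj => ?_
          rw [← mul_assoc, abs_mul, abs_pow, abs_neg, abs_one, one_pow, mul_one,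
            abs_of_nonneg (by positivity)]
          exact term_le a b k hab (j + 1) (mem_range.mp hj)
      _ = (b.choose k : ℝ) * ∑ j ∈ range k, (1 / 4 : ℝ) ^ (j + 1) := by rw [mul_sum]
      _ ≤ _ := mul_le_mul_of_nonneg_left (geom_le k) (Nat.cast_nonneg _)
  have h2 : (N.choose k : ℝ) ≤ (b.choose k : ℝ) := by
    exact_mod_cast Nat.choose_le_choose k hN
  have h3 : (0 : ℝ) ≤ (b.choose k : ℝ) := Nat.cast_nonneg _
  have h4 := abs_sub_abs_le_abs_sub
    (((a.choose 0 : ℕ) : ℝ) * (((b.choose (k - 0) : ℕ) : ℝ) * (-1) ^ (k - 0)))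
    (-(∑ j ∈ range k, ((a.choose (j + 1) : ℕ) : ℝ) *
      (((b.choose (k - (j + 1)) : ℕ) : ℝ) * (-1) ^ (k - (j + 1)))))
  rw [h0, abs_neg, sub_neg_eq_add, add_comm] at h4
  linarith

end Pool.Agent.H640R2.RZ4
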