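import Mathlib

open Complex ComplexConjugate Matrix
open scoped ComplexOrder

namespace H640R2.PhaseMu

/-- the closed sector of half-angle `θ` -/
def sector (θ : ℝ) : Set ℂ := {z | z = 0 ∨ |Complex.arg z| ≤ θ}

/-- `op A` is the matrix `A` acting on `ℂⁿ` with its Euclidean norm and inner product. So
`inner ℂ x (op A x)` is the number `x* A x` and `‖op A‖` is the largest singular value of `A`. -/
noncomputable def op {n : ℕ} (A : Matrix (Fin n) (Fin n) ℂ) :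
    EuclideanSpace ℂ (Fin n) →L[ℂ] EuclideanSpace ℂ (Fin n) :=
  Matrix.toEuclideanCLM (n := Fin n) (𝕜 := ℂ) A

/-- The class `𝚪_θ`: every point of the numerical range lies in the closed sector
`{z : z = 0 or |arg z| ≤ θ}`. -/
def GammaClass {n : ℕ} (θ : ℝ) : Set (Matrix (Fin n) (Fin n) ℂ) :=
  {Γ | ∀ x : EuclideanSpace ℂ (Fin n), ‖x‖ = 1 → inner ℂ x (op Γ x) ∈ sector θ}

/-- `S_θ(M)`: the `Γ ∈ 𝚪_θ` for which `I + Γ M` is singular. -/
def SingSet {n : ℕ} (θ : ℝ) (M : Matrix (Fin n) (Fin n) ℂ) : Set (Matrix (Fin n) (Fin n) ℂ) :=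
  {Γ | Γ ∈ GammaClass θ ∧ (1 + Γ * M).det = 0}

open scoped Classical in
/-- the phase-sensitive structured singular value `μ_θ(M)` -/
noncomputable def mu {n : ℕ} (θ : ℝ) (M : Matrix (Fin n) (Fin n) ℂ) : ℝ :=
  if (SingSet θ M).Nonempty then 1 / sInf ((fun Γ => ‖op Γ‖) '' SingSet θ M) else 0

/-- feasibility of the linear matrix inequality at level `γ` (`≺ 0` is written as positive
definiteness of the negative) -/
def LMI {n : ℕ} (θ : ℝ) (M : Matrix (Fin n) (Fin n) ℂ) (γ : ℝ) : Prop :=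
  ∃ r : ℝ, 0 < r ∧ ∃ β : ℝ, (θ ≠ 0 → β ∈ Set.Icc (-Real.cot θ) (Real.cot θ)) ∧
    (-((r : ℂ) • (Mᴴ * M - ((γ : ℂ) ^ 2) • (1 : Matrix (Fin n) (Fin n) ℂ)) -
      ((1 + Complex.I * (β : ℂ)) • M + ((1 + Complex.I * (β : ℂ)) • M)ᴴ))).PosDef

/-- the LMI upper bound -/
noncomputable def muHat {n : ℕ} (θ : ℝ) (M : Matrix (Fin n) (Fin n) ℂ) : ℝ :=
  sInf {γ : ℝ | 0 < γ ∧ LMI θ M γ}

/-- `x` lies over minus the sector: `-x* M x` is in the closed sector of half-angle `θ` -/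
def Over {n : ℕ} (θ : ℝ) (M : Matrix (Fin n) (Fin n) ℂ) (x : EuclideanSpace ℂ (Fin n)) : Prop :=
  -inner ℂ x (op M x) ∈ sector θ

/-- `x` is a unit vector with `-Re x* M x ≥ cos θ ‖M x‖` -/
def Strong {n : ℕ} (θ : ℝ) (M : Matrix (Fin n) (Fin n) ℂ) (x : EuclideanSpace ℂ (Fin n)) : Prop :=
  ‖x‖ = 1 ∧ Real.cos θ * ‖op M x‖ ≤ -(inner ℂ x (op M x)).re

/-- no unit vector lies over minus the sector, or some strong `x` maximises `‖M x‖` over the unit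
vectors lying over minus the sector -/
def Criterion {n : ℕ} (θ : ℝ) (M : Matrix (Fin n) (Fin n) ℂ) : Prop :=
  (∀ x : EuclideanSpace ℂ (Fin n), ‖x‖ = 1 → ¬ Over θ M x) ∨
    ∃ x : EuclideanSpace ℂ (Fin n), Strong θ M x ∧
      ∀ y : EuclideanSpace ℂ (Fin n), ‖y‖ = 1 → Over θ M y → ‖op M y‖ ≤ ‖op M x‖

/-- (a): `M x = 0` for every `x` over minus the sector -/
def CaseA {n : ℕ} (θ : ℝ) (M : Matrix (Fin n) (Fin n) ℂ) : Prop :=
  ∀ x : EuclideanSpace ℂ (Fin n), Over θ M x → op M x = 0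

/-- (b): some strong `x` has `‖M x‖` equal to the largest singular value of `M` -/
def CaseB {n : ℕ} (θ : ℝ) (M : Matrix (Fin n) (Fin n) ℂ) : Prop :=
  ∃ x : EuclideanSpace ℂ (Fin n), Strong θ M x ∧ ‖op M x‖ = ‖op M‖

/-- (c): some unit `x` and `l ≠ 0` with `|arg (-l)| = θ` satisfy `M x = l x`, `M* x = conj l x`,
and `‖M y‖ ≤ |l| ‖y‖` for every `y` over minus the sector -/
def CaseC {n : ℕ} (θ : ℝ) (M : Matrix (Fin n) (Fin n) ℂ) : Prop :=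
  ∃ x : EuclideanSpace ℂ (Fin n), ‖x‖ = 1 ∧ ∃ l : ℂ, l ≠ 0 ∧ |Complex.arg (-l)| = θ ∧
    op M x = l • x ∧ op Mᴴ x = conj l • x ∧
      ∀ y : EuclideanSpace ℂ (Fin n), Over θ M y → ‖op M y‖ ≤ ‖l‖ * ‖y‖

end H640R2.PhaseMu
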