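import Mathlib
import Pool.Agent.H640R2.PhaseMuDefs

open Complex ComplexConjugate

namespace H640R2.PhaseMu

variable {E : Type*} [NormedAddCommGroup E] [InnerProductSpace ℂ E]

theorem mem_sector {θ : ℝ} (h0 : 0 ≤ θ) (h1 : θ ≤ Real.pi / 2) (z : ℂ) :
    z ∈ sector θ ↔ Real.cos θ * ‖z‖ ≤ z.re := by
  have hpi := Real.pi_pos
  constructor
  · rintro (h | h)
    · simp [h]
    · rw [← Complex.norm_mul_cos_arg z, mul_comm]
      refine mul_le_mul_of_nonneg_left ?_ (norm_nonneg _)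
      rw [← Real.cos_abs (Complex.arg z)]
      exact Real.cos_le_cos_of_nonneg_of_le_pi (abs_nonneg _) (by linarith) h
  · intro h
    by_cases hz : z = 0
    · exact Or.inl hz
    · right
      have hz' : 0 < ‖z‖ := norm_pos_iff.mpr hz
      rw [← Complex.norm_mul_cos_arg z, mul_comm] at h
      have h2 : Real.cos θ ≤ Real.cos |Complex.arg z| := by
        rw [Real.cos_abs]
        exact le_of_mul_le_mul_left h hz'
      by_contra hcon
      push Not at hcon
      have := Real.strictAntiOn_cos (show θ ∈ Set.Icc 0 Real.pi from ⟨h0, by linarith⟩)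
        (show |Complex.arg z| ∈ Set.Icc 0 Real.pi from ⟨abs_nonneg _, Complex.abs_arg_le_pi z⟩) hcon
      linarith

/-- in the sector, `|Im| cos θ ≤ sin θ Re`. -/
theorem sector_im {θ : ℝ} (h0 : 0 ≤ θ) (h1 : θ ≤ Real.pi / 2) {z : ℂ}
    (h : Real.cos θ * ‖z‖ ≤ z.re) : Real.cos θ * |z.im| ≤ Real.sin θ * z.re := by
  have hc : 0 ≤ Real.cos θ := Real.cos_nonneg_of_mem_Icc ⟨by linarith, h1⟩
  have hs : 0 ≤ Real.sin θ := Real.sin_nonneg_of_nonneg_of_le_pi h0 (by linarith [Real.pi_pos])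
  have hre : 0 ≤ z.re := le_trans (by positivity) h
  have h2 : (Real.cos θ * ‖z‖) ^ 2 ≤ z.re ^ 2 := pow_le_pow_left₀ (by positivity) h 2
  rw [mul_pow, ← Complex.normSq_eq_norm_sq, Complex.normSq_apply] at h2
  have h3 : Real.sin θ ^ 2 + Real.cos θ ^ 2 = 1 := Real.sin_sq_add_cos_sq θ
  have h4 : (Real.cos θ * |z.im|) ^ 2 ≤ (Real.sin θ * z.re) ^ 2 := by
    rw [mul_pow, mul_pow, sq_abs]
    nlinarith
  exact le_trans (le_abs_self _) (abs_le_of_sq_le_sq h4 (by positivity))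

/-- Key lemma, necessity: a sectorial operator attaining its norm at `y`. -/
theorem key_necessity [CompleteSpace E] {θ : ℝ} (h0 : 0 ≤ θ) (h1 : θ ≤ Real.pi / 2) (G : E →L[ℂ] E)
    (hG : ∀ x, Real.cos θ * ‖inner ℂ x (G x)‖ ≤ (inner ℂ x (G x)).re)
    (hn : ∀ x, ‖G x‖ ≤ ‖x‖) (y : E) (hy : ‖G y‖ = ‖y‖) :
    Real.cos θ * ‖y‖ ^ 2 ≤ (inner ℂ y (G y)).re := by
  set z := G y with hz
  have hs : 0 ≤ Real.sin θ := Real.sin_nonneg_of_nonneg_of_le_pi h0 (by linarith [Real.pi_pos])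
  -- adjoint
  have hadj : (ContinuousLinearMap.adjoint G) z = y := by
    have hGn : ‖G‖ ≤ 1 := G.opNorm_le_bound zero_le_one (by simpa using hn)
    have hA : ‖(ContinuousLinearMap.adjoint G) z‖ ≤ ‖z‖ := by
      calc _ ≤ ‖ContinuousLinearMap.adjoint G‖ * ‖z‖ := ContinuousLinearMap.le_opNorm _ _
        _ = ‖G‖ * ‖z‖ := by rw [LinearIsometryEquiv.norm_map]
        _ ≤ 1 * ‖z‖ := by gcongr
        _ = ‖z‖ := one_mul _
    have h2 : ‖(ContinuousLinearMap.adjoint G) z - y‖ ^ 2 ≤ 0 := by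
      rw [@norm_sub_sq ℂ, ContinuousLinearMap.adjoint_inner_left, ← hz]
      have : RCLike.re (inner ℂ z z) = ‖z‖ ^ 2 := by
        rw [inner_self_eq_norm_sq_to_K]; norm_cast
      rw [this]
      have : ‖(ContinuousLinearMap.adjoint G) z‖ ^ 2 ≤ ‖z‖ ^ 2 := pow_le_pow_left₀ (norm_nonneg _) hA 2
      rw [hy] at *
      linarith
    have h3 : ‖(ContinuousLinearMap.adjoint G) z - y‖ = 0 := by
      have := sq_nonneg ‖(ContinuousLinearMap.adjoint G) z - y‖
      exact pow_eq_zero_iff (two_ne_zero) |>.mp (le_antisymm h2 this)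
    exact sub_eq_zero.mp (norm_eq_zero.mp h3)
  have hw2 : inner ℂ z (G z) = inner ℂ y z := by
    rw [← ContinuousLinearMap.adjoint_inner_left, hadj]
  set w := inner ℂ y z with hw
  set r := inner ℂ y (G z) with hr
  have hzz : inner ℂ z z = ((‖y‖ ^ 2 : ℝ) : ℂ) := by
    rw [inner_self_eq_norm_sq_to_K, hy]; norm_cast
  have hform : ∀ ω : ℂ, ω * conj ω = 1 → inner ℂ (y - ω • z) (G (y - ω • z)) =
      2 * w - ω * r - conj ω * ((‖y‖ ^ 2 : ℝ) : ℂ) := by
    intro ω hω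
    rw [map_sub, map_smul, ← hz, inner_sub_left, inner_sub_right, inner_sub_right, inner_smul_left,
      inner_smul_right, inner_smul_left, inner_smul_right, ← hw, ← hr, hzz, hw2]
    linear_combination (w) * hω
  -- the case `θ = 0`
  rcases h0.eq_or_lt with h00 | h00
  · have hθ : θ = 0 := h00.symm
    subst hθ
    simp only [Real.cos_zero, one_mul] at hG ⊢
    have hreal : ∀ x, (inner ℂ x (G x)).im = 0 := by
      intro x
      have := hG x
      have h2 := Complex.re_le_norm (inner ℂ x (G x))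
      have h3 : (inner ℂ x (G x)).re = ‖inner ℂ x (G x)‖ := le_antisymm h2 this
      have h4 := Complex.normSq_apply (inner ℂ x (G x))
      rw [Complex.normSq_eq_norm_sq, ← h3] at h4
      have h5 : (inner ℂ x (G x)).im ^ 2 = 0 := by nlinarith
      exact pow_eq_zero_iff (two_ne_zero) |>.mp h5
    have hsym : (G : E →ₗ[ℂ] E).IsSymmetric := by
      rw [LinearMap.isSymmetric_iff_inner_map_self_real]
      intro v
      rw [Complex.conj_eq_iff_im]
      have := hreal v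
      rw [← inner_conj_symm, Complex.conj_im] 
      simpa using this
    have hr1 : r = ((‖y‖ ^ 2 : ℝ) : ℂ) := by
      rw [hr, ← hzz, hz]
      exact (hsym y (G y)).symm
    have := hG (y - (1:ℂ) • z)
    have h2 := hform 1 (by simp)
    have h3 : 0 ≤ (inner ℂ (y - (1:ℂ) • z) (G (y - (1:ℂ) • z))).re := le_trans (norm_nonneg _) this
    rw [h2, hr1] at h3
    simp only [map_one, one_mul, Complex.sub_re, Complex.ofReal_re, Complex.mul_re, Complex.re_ofNat,
      Complex.im_ofNat, zero_mul, sub_zero] at h3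
    linarith
  · -- rotated inequalities
    have hsp : 0 < Real.sin θ := Real.sin_pos_of_pos_of_lt_pi h00 (by linarith [Real.pi_pos])
    have hsc := Real.sin_sq_add_cos_sq θ
    set S := Real.sin θ with hS
    set C := Real.cos θ with hC
    have hω1 : (⟨C, S⟩ : ℂ) * conj (⟨C, S⟩ : ℂ) = 1 := by
      apply Complex.ext <;> simp <;> nlinarith
    have hω2 : (⟨C, -S⟩ : ℂ) * conj (⟨C, -S⟩ : ℂ) = 1 := by
      apply Complex.ext <;> simp <;> nlinarith
    have e1 := hform _ hω1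
    have e2 := hform _ hω2
    have g1 := sector_im h0 h1 (hG (y - (⟨C, S⟩ : ℂ) • z))
    have g2 := sector_im h0 h1 (hG (y - (⟨C, -S⟩ : ℂ) • z))
    rw [e1] at g1
    rw [e2] at g2
    have g1' : C * (2 * w - (⟨C, S⟩ : ℂ) * r - conj (⟨C, S⟩ : ℂ) * ((‖y‖ ^ 2 : ℝ) : ℂ)).im ≤
        S * (2 * w - (⟨C, S⟩ : ℂ) * r - conj (⟨C, S⟩ : ℂ) * ((‖y‖ ^ 2 : ℝ) : ℂ)).re := by
      refine le_trans ?_ g1
      have hc : 0 ≤ C := Real.cos_nonneg_of_mem_Icc ⟨by linarith, h1⟩
      exact mul_le_mul_of_nonneg_left (le_abs_self _) hc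
    have g2' : C * -(2 * w - (⟨C, -S⟩ : ℂ) * r - conj (⟨C, -S⟩ : ℂ) * ((‖y‖ ^ 2 : ℝ) : ℂ)).im ≤
        S * (2 * w - (⟨C, -S⟩ : ℂ) * r - conj (⟨C, -S⟩ : ℂ) * ((‖y‖ ^ 2 : ℝ) : ℂ)).re := by
      refine le_trans ?_ g2
      have hc : 0 ≤ C := Real.cos_nonneg_of_mem_Icc ⟨by linarith, h1⟩
      exact mul_le_mul_of_nonneg_left (neg_le_abs _) hc
    simp only [Complex.sub_re, Complex.sub_im, Complex.mul_re, Complex.mul_im, Complex.conj_re,
      Complex.conj_im, Complex.ofReal_re, Complex.ofReal_im, Complex.re_ofNat, Complex.im_ofNat] at g1' g2'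
    have : 0 ≤ 4 * S * (w.re - C * ‖y‖ ^ 2) := by
      nlinarith
    have h5 : 0 ≤ w.re - C * ‖y‖ ^ 2 := by
      by_contra hcon
      push Not at hcon
      have : 4 * S * (w.re - C * ‖y‖ ^ 2) < 0 := mul_neg_of_pos_of_neg (by positivity) hcon
      linarith
    linarith

end H640R2.PhaseMu
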