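import Mathlib
import Pool.Agent.H640R2.PhaseMuA

open Complex ComplexConjugate

namespace H640R2.PhaseMu

variable {E : Type*} [NormedAddCommGroup E] [InnerProductSpace ℂ E]

/-- Householder: a symmetric isometry taking `y` to `k`. -/
theorem exists_householder (y k : E) (hn : ‖y‖ = ‖k‖) (him : (inner ℂ y k).im = 0) :
    ∃ H : E →L[ℂ] E, H y = k ∧ (∀ x, ‖H x‖ = ‖x‖) ∧ (∀ x, (inner ℂ x (H x)).im = 0) := by
  by_cases hyk : y = k
  · refine ⟨ContinuousLinearMap.id ℂ E, by simpa using hyk, by simp, ?_⟩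
    intro x
    simp only [ContinuousLinearMap.id_apply]
    rw [inner_self_eq_norm_sq_to_K]
    norm_cast
  · set d := y - k with hd
    have hd0 : d ≠ 0 := sub_ne_zero.mpr hyk
    have hdn : (0:ℝ) < ‖d‖ ^ 2 := by positivity
    let H : E →L[ℂ] E := ContinuousLinearMap.id ℂ E -
      ((2 / ‖d‖ ^ 2 : ℝ) : ℂ) • (innerSL ℂ d).smulRight d
    have hH : ∀ x, H x = x - (((2 / ‖d‖ ^ 2 : ℝ) : ℂ) * inner ℂ d x) • d := by
      intro x
      simp [H, smul_smul]
    refine ⟨H, ?_, ?_, ?_⟩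
    · rw [hH]
      have h1 : inner ℂ d y = ((‖y‖ ^ 2 - (inner ℂ y k).re : ℝ) : ℂ) := by
        rw [hd, inner_sub_left, inner_self_eq_norm_sq_to_K]
        have : inner ℂ k y = (((inner ℂ y k).re : ℝ) : ℂ) := by
          rw [← inner_conj_symm k y]
          apply Complex.ext
          · rw [Complex.conj_re, Complex.ofReal_re]
          · rw [Complex.conj_im, Complex.ofReal_im, him, neg_zero]
        rw [this]
        push_cast
        rfl
      have h2 : ‖d‖ ^ 2 = 2 * (‖y‖ ^ 2 - (inner ℂ y k).re) := by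
        rw [hd, @norm_sub_sq ℂ, ← hn]
        simp only [RCLike.re_to_complex]
        ring
      rw [h1]
      have h3 : (((2 / ‖d‖ ^ 2 : ℝ) : ℂ) * ((‖y‖ ^ 2 - (inner ℂ y k).re : ℝ) : ℂ)) = 1 := by
        rw [← Complex.ofReal_mul]
        have : (2 / ‖d‖ ^ 2) * (‖y‖ ^ 2 - (inner ℂ y k).re) = 1 := by
          field_simp
          linarith
        rw [this]; simp
      rw [h3, one_smul, hd]
      abel
    · intro x
      rw [hH]
      have : ‖x - (((2 / ‖d‖ ^ 2 : ℝ) : ℂ) * inner ℂ d x) • d‖ ^ 2 = ‖x‖ ^ 2 := by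
        rw [@norm_sub_sq ℂ, inner_smul_right, norm_smul]
        have h1 : RCLike.re ((((2 / ‖d‖ ^ 2 : ℝ) : ℂ) * inner ℂ d x) * inner ℂ x d) =
            (2 / ‖d‖ ^ 2) * ‖inner ℂ d x‖ ^ 2 := by
          rw [mul_assoc]
          have : inner ℂ d x * inner ℂ x d = ((‖inner ℂ d x‖ ^ 2 : ℝ) : ℂ) := by
            rw [← inner_conj_symm x d, Complex.mul_conj, Complex.normSq_eq_norm_sq]
          rw [this, ← Complex.ofReal_mul]
          exact Complex.ofReal_re _
        rw [h1, norm_mul, Complex.norm_real, Real.norm_of_nonneg (by positivity)]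
        field_simp
        ring
      have h2 : 0 ≤ ‖x - (((2 / ‖d‖ ^ 2 : ℝ) : ℂ) * inner ℂ d x) • d‖ := norm_nonneg _
      have h3 : 0 ≤ ‖x‖ := norm_nonneg _
      nlinarith [sq_nonneg (‖x - (((2 / ‖d‖ ^ 2 : ℝ) : ℂ) * inner ℂ d x) • d‖ - ‖x‖),
        (pow_left_inj₀ h2 h3 (two_ne_zero)).mp this]
    · intro x
      rw [hH, inner_sub_right, inner_smul_right, mul_assoc]
      have : inner ℂ d x * inner ℂ x d = ((‖inner ℂ d x‖ ^ 2 : ℝ) : ℂ) := by
        rw [← inner_conj_symm x d, Complex.mul_conj, Complex.normSq_eq_norm_sq]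
      rw [this, ← Complex.ofReal_mul, inner_self_eq_norm_sq_to_K, Complex.sub_im, Complex.ofReal_im]
      have h5 : (RCLike.ofReal ‖x‖ : ℂ) ^ 2 = ((‖x‖ ^ 2 : ℝ) : ℂ) := by push_cast; rfl
      rw [h5, Complex.ofReal_im, sub_zero]

/-- Key lemma, sufficiency. -/
theorem key_sufficiency {θ : ℝ} (h0 : 0 ≤ θ) (h1 : θ ≤ Real.pi / 2) (y z : E) (hy : y ≠ 0)
    (h : Real.cos θ * (‖y‖ * ‖z‖) ≤ (inner ℂ y z).re) :
    ∃ G : E →L[ℂ] E, G y = z ∧ (∀ x, ‖G x‖ ≤ ‖z‖ / ‖y‖ * ‖x‖) ∧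
      (∀ x, Real.cos θ * ‖inner ℂ x (G x)‖ ≤ (inner ℂ x (G x)).re) := by
  have hc : 0 ≤ Real.cos θ := Real.cos_nonneg_of_mem_Icc ⟨by linarith, h1⟩
  by_cases hz : z = 0
  · exact ⟨0, by simp [hz], by simp [hz], by simp⟩
  have hyn : 0 < ‖y‖ := norm_pos_iff.mpr hy
  have hzn : 0 < ‖z‖ := norm_pos_iff.mpr hz
  set c := ‖z‖ / ‖y‖ with hcdef
  have hcpos : 0 < c := by positivity
  -- normalised target
  set z1 := ((c⁻¹ : ℝ) : ℂ) • z with hz1
  have hz1n : ‖z1‖ = ‖y‖ := by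
    rw [hz1, norm_smul, Complex.norm_real, Real.norm_of_nonneg (by positivity), hcdef]
    field_simp
  have hzz1 : z = ((c : ℝ) : ℂ) • z1 := by
    rw [hz1, smul_smul, ← Complex.ofReal_mul, mul_inv_cancel₀ hcpos.ne']; simp
  clear_value z1
  set C := (inner ℂ y z1).re / ‖y‖ ^ 2 with hC
  have hCre : (inner ℂ y z1).re = C * ‖y‖ ^ 2 := by
    rw [hC]; field_simp
  have hθC : Real.cos θ ≤ C := by
    have h2 : (inner ℂ y z).re = c * (inner ℂ y z1).re := by
      conv_lhs => rw [hzz1, inner_smul_right]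
      simp
    rw [h2, hCre] at h
    have h3 : c * ‖y‖ = ‖z‖ := by rw [hcdef]; field_simp
    rw [← h3] at h
    have : Real.cos θ * (c * ‖y‖ ^ 2) ≤ C * (c * ‖y‖ ^ 2) := by nlinarith
    exact le_of_mul_le_mul_right this (by positivity)
  have hC0 : 0 ≤ C := le_trans hc hθC
  have hC1 : C ≤ 1 := by
    have h2 : (inner ℂ y z1).re ≤ ‖y‖ * ‖z1‖ := le_trans (Complex.re_le_norm _) (norm_inner_le_norm _ _)
    rw [hCre, hz1n] at h2
    have : C * ‖y‖ ^ 2 ≤ 1 * ‖y‖ ^ 2 := by nlinarith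
    exact le_of_mul_le_mul_right this (by positivity)
  rcases hC1.eq_or_lt with hC1 | hC1
  · -- z1 = y
    have h3 : ‖z1 - y‖ ^ 2 = 0 := by
      rw [@norm_sub_sq ℂ, hz1n, ← inner_conj_symm z1 y]
      simp only [RCLike.re_to_complex, Complex.conj_re]
      rw [hCre, hC1]; ring
    have h4 : z1 = y := sub_eq_zero.mp (norm_eq_zero.mp (pow_eq_zero_iff (two_ne_zero) |>.mp h3))
    refine ⟨((c : ℝ) : ℂ) • ContinuousLinearMap.id ℂ E, ?_, ?_, ?_⟩
    · simp [hzz1, h4]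
    · intro x
      simp only [_root_.smul_apply, ContinuousLinearMap.id_apply]
      rw [norm_smul, Complex.norm_real, Real.norm_of_nonneg hcpos.le]
    · intro x
      simp only [_root_.smul_apply, ContinuousLinearMap.id_apply]
      rw [inner_smul_right, inner_self_eq_norm_sq_to_K]
      have : ((c : ℝ) : ℂ) * ((‖x‖ : ℝ) : ℂ) ^ 2 = ((c * ‖x‖ ^ 2 : ℝ) : ℂ) := by push_cast; ring
      have h5 : (((‖x‖ : ℝ) : ℂ)) = RCLike.ofReal ‖x‖ := rfl
      rw [← h5, this, Complex.norm_real, Real.norm_of_nonneg (by positivity), Complex.ofReal_re]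
      have h6 : 0 ≤ c * ‖x‖ ^ 2 := by positivity
      have := Real.cos_le_one θ
      nlinarith
  · set S := Real.sqrt (1 - C ^ 2) with hS
    have hS2 : S ^ 2 = 1 - C ^ 2 := Real.sq_sqrt (by nlinarith)
    have hSpos : 0 < S := Real.sqrt_pos.mpr (by nlinarith)
    -- the target of the symmetric isometry
    set k := (-Complex.I * ((S⁻¹ : ℝ) : ℂ)) • (z1 - (C : ℂ) • y) with hk
    have hkn : ‖y‖ = ‖k‖ := by
      have h2 : ‖z1 - (C : ℂ) • y‖ ^ 2 = (S * ‖y‖) ^ 2 := by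
        rw [@norm_sub_sq ℂ, inner_smul_right, norm_smul, Complex.norm_real,
          Real.norm_of_nonneg hC0, hz1n, ← inner_conj_symm z1 y]
        have : RCLike.re ((C : ℂ) * conj (inner ℂ y z1)) = C * (inner ℂ y z1).re := by
          rw [RCLike.re_to_complex, Complex.re_ofReal_mul, Complex.conj_re]
        rw [this, hCre, mul_pow, mul_pow, hS2]
        ring
      have h3 : ‖z1 - (C : ℂ) • y‖ = S * ‖y‖ :=
        (pow_left_inj₀ (norm_nonneg _) (by positivity) (two_ne_zero)).mp h2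
      rw [hk, norm_smul, h3, norm_mul, norm_neg, Complex.norm_I, Complex.norm_real,
        Real.norm_of_nonneg (by positivity)]
      field_simp
    have hkim : (inner ℂ y k).im = 0 := by
      rw [hk, inner_smul_right, inner_sub_right, inner_smul_right, inner_self_eq_norm_sq_to_K]
      have h5 : (RCLike.ofReal ‖y‖ : ℂ) = ((‖y‖ : ℝ) : ℂ) := rfl
      rw [h5]
      have : (inner ℂ y z1 : ℂ) - (C : ℂ) * ((‖y‖ : ℝ) : ℂ) ^ 2 = ((inner ℂ y z1).im : ℂ) * Complex.I := by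
        apply Complex.ext
        · simp [hCre, ← Complex.ofReal_pow]
        · simp [← Complex.ofReal_pow]
      rw [this]
      simp
    obtain ⟨H, hHy, hHn, hHr⟩ := exists_householder y k hkn hkim
    refine ⟨((c : ℝ) : ℂ) • (((C : ℝ) : ℂ) • ContinuousLinearMap.id ℂ E +
      (Complex.I * ((S : ℝ) : ℂ)) • H), ?_, ?_, ?_⟩
    · simp only [_root_.smul_apply, _root_.add_apply,
        ContinuousLinearMap.id_apply]
      rw [hHy, hk, smul_smul]
      have : Complex.I * ((S : ℝ) : ℂ) * (-Complex.I * ((S⁻¹ : ℝ) : ℂ)) = 1 := by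
        have : ((S : ℝ) : ℂ) ≠ 0 := by exact_mod_cast hSpos.ne'
        push_cast
        field_simp
        rw [Complex.I_sq]; ring
      rw [this, one_smul, add_sub_cancel, ← hzz1]
    · intro x
      simp only [_root_.smul_apply, _root_.add_apply,
        ContinuousLinearMap.id_apply]
      rw [norm_smul, Complex.norm_real, Real.norm_of_nonneg hcpos.le]
      have : ‖((C : ℝ) : ℂ) • x + (Complex.I * ((S : ℝ) : ℂ)) • H x‖ ^ 2 = ‖x‖ ^ 2 := by
        rw [@norm_add_sq ℂ, inner_smul_left, inner_smul_right, norm_smul, norm_smul, hHn,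
          norm_mul, Complex.norm_I, Complex.norm_real, Complex.norm_real,
          Real.norm_of_nonneg hC0, Real.norm_of_nonneg hSpos.le, mul_pow, mul_pow, one_mul, hS2]
        have : RCLike.re ((starRingEnd ℂ) (C : ℂ) * (Complex.I * (S : ℂ) * inner ℂ x (H x))) = 0 := by
          simp [hHr x]
        rw [this]
        ring
      have h3 := (pow_left_inj₀ (norm_nonneg _) (norm_nonneg _) (two_ne_zero)).mp this
      rw [h3]
    · intro x
      simp only [_root_.smul_apply, _root_.add_apply,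
        ContinuousLinearMap.id_apply]
      rw [inner_smul_right, inner_add_right, inner_smul_right, inner_smul_right,
        inner_self_eq_norm_sq_to_K]
      have h5 : (RCLike.ofReal ‖x‖ : ℂ) = ((‖x‖ : ℝ) : ℂ) := rfl
      rw [h5]
      set t := (inner ℂ x (H x)).re with ht
      have h6 : inner ℂ x (H x) = (t : ℂ) := by
        apply Complex.ext <;> simp [ht, hHr x]
      rw [h6]
      have htle : |t| ≤ ‖x‖ ^ 2 := by
        have := norm_inner_le_norm (𝕜 := ℂ) x (H x)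
        rw [h6, Complex.norm_real, hHn, Real.norm_eq_abs] at this
        nlinarith
      have htsq : t ^ 2 ≤ (‖x‖ ^ 2) ^ 2 := by
        rw [← sq_abs t]
        exact pow_le_pow_left₀ (abs_nonneg _) htle 2
      have h7 : ((c : ℝ) : ℂ) * ((C : ℂ) * ((‖x‖ : ℝ) : ℂ) ^ 2 + Complex.I * (S : ℂ) * (t : ℂ)) =
          ((c : ℝ) : ℂ) * (⟨C * ‖x‖ ^ 2, S * t⟩ : ℂ) := by
        congr 1
        apply Complex.ext <;> simp [← Complex.ofReal_pow]
      rw [h7, norm_mul, Complex.norm_real, Real.norm_of_nonneg hcpos.le]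
      have h8 : ‖(⟨C * ‖x‖ ^ 2, S * t⟩ : ℂ)‖ ≤ ‖x‖ ^ 2 := by
        have : ‖(⟨C * ‖x‖ ^ 2, S * t⟩ : ℂ)‖ ^ 2 ≤ (‖x‖ ^ 2) ^ 2 := by
          rw [← Complex.normSq_eq_norm_sq, Complex.normSq_apply]
          simp only
          have : (S * t) * (S * t) ≤ (1 - C ^ 2) * (‖x‖ ^ 2) ^ 2 := by
            rw [← hS2]; nlinarith [sq_nonneg S]
          nlinarith
        exact (pow_le_pow_iff_left₀ (norm_nonneg _) (by positivity) (two_ne_zero)).mp this
      simp only [Complex.mul_re, Complex.ofReal_re, Complex.ofReal_im, zero_mul, sub_zero]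
      have h9 : Real.cos θ * ‖(⟨C * ‖x‖ ^ 2, S * t⟩ : ℂ)‖ ≤ C * ‖x‖ ^ 2 :=
        mul_le_mul hθC h8 (norm_nonneg _) hC0
      calc Real.cos θ * (c * ‖(⟨C * ‖x‖ ^ 2, S * t⟩ : ℂ)‖)
          = c * (Real.cos θ * ‖(⟨C * ‖x‖ ^ 2, S * t⟩ : ℂ)‖) := by ring
        _ ≤ c * (C * ‖x‖ ^ 2) := mul_le_mul_of_nonneg_left h9 hcpos.le

end H640R2.PhaseMu
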