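import Mathlib

open Complex ComplexConjugate

namespace H640R2.PhaseMu

variable {E : Type*} [NormedAddCommGroup E] [InnerProductSpace ℂ E]

theorem exists_phase (p q : ℂ) : ∃ ω : ℂ, ω * conj ω = 1 ∧ (ω * p + conj ω * q).im = 0 := by
  by_cases h : p - conj q = 0
  · refine ⟨1, by simp, ?_⟩
    have : p = conj q := sub_eq_zero.mp h
    rw [this]; simp
  · set d := p - conj q with hd
    have hn : ‖d‖ ≠ 0 := norm_ne_zero_iff.mpr h
    refine ⟨conj d * ((‖d‖⁻¹ : ℝ) : ℂ), ?_, ?_⟩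
    · rw [map_mul, Complex.conj_conj, Complex.conj_ofReal]
      have : conj d * ((‖d‖⁻¹ : ℝ) : ℂ) * (d * ((‖d‖⁻¹ : ℝ) : ℂ)) =
          (d * conj d) * (((‖d‖⁻¹ : ℝ) : ℂ) ^ 2) := by ring
      rw [this, Complex.mul_conj, Complex.normSq_eq_norm_sq, ← Complex.ofReal_pow,
        ← Complex.ofReal_mul]
      have : ‖d‖ ^ 2 * ‖d‖⁻¹ ^ 2 = 1 := by field_simp
      rw [this]; simp
    · rw [map_mul, Complex.conj_conj, Complex.conj_ofReal]
      have e1 : conj d * ((‖d‖⁻¹ : ℝ) : ℂ) * p + d * ((‖d‖⁻¹ : ℝ) : ℂ) * q =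
          ((‖d‖⁻¹ : ℝ) : ℂ) * (conj d * p + d * q) := by ring
      rw [e1, Complex.im_ofReal_mul]
      have e2 : (conj d * p + d * q).im = 0 := by
        rw [hd]
        simp
        ring
      rw [e2, mul_zero]

/-- Toeplitz–Hausdorff. -/
theorem toeplitz_hausdorff (A : E →L[ℂ] E) :
    Convex ℝ {z : ℂ | ∃ x : E, ‖x‖ = 1 ∧ inner ℂ x (A x) = z} := by
  rintro a ⟨x, hx, hxa⟩ b ⟨y, hy, hyb⟩ s t hs ht hst
  by_cases hab : a = b
  · refine ⟨x, hx, ?_⟩
    rw [← hab, ← add_smul, hst, one_smul, hxa]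
  have hba : b - a ≠ 0 := sub_ne_zero.mpr (Ne.symm hab)
  let B : E →L[ℂ] E := (b - a)⁻¹ • (A - a • ContinuousLinearMap.id ℂ E)
  have hB : ∀ u, B u = (b - a)⁻¹ • (A u - a • u) := by intro u; simp [B]
  have hnorm : ∀ u : E, ((‖u‖ : ℝ) : ℂ) = 1 → True := fun _ _ => trivial
  have hself : ∀ u : E, inner ℂ u u = ((‖u‖ ^ 2 : ℝ) : ℂ) := by
    intro u
    rw [inner_self_eq_norm_sq_to_K]
    push_cast; rfl
  have hBA : ∀ u, inner ℂ u (A u) = (b - a) * inner ℂ u (B u) + a * ((‖u‖ ^ 2 : ℝ) : ℂ) := by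
    intro u
    rw [hB, inner_smul_right, inner_sub_right, inner_smul_right, hself]
    field_simp
    ring
  have hBx : inner ℂ x (B x) = 0 := by
    rw [hB, inner_smul_right, inner_sub_right, inner_smul_right, hself, hxa, hx]; simp
  have hBy : inner ℂ y (B y) = 1 := by
    rw [hB, inner_smul_right, inner_sub_right, inner_smul_right, hself, hyb, hy]
    field_simp; simp
  obtain ⟨ω, hω, him⟩ := exists_phase (inner ℂ x (B y)) (inner ℂ y (B x))
  set y' := ω • y with hy'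
  have hωn : ‖ω‖ = 1 := by
    have h1 : ‖ω‖ ^ 2 = 1 := by
      rw [Complex.mul_conj, Complex.normSq_eq_norm_sq] at hω
      exact_mod_cast hω
    have h2 := norm_nonneg ω
    nlinarith
  have hy'n : ‖y'‖ = 1 := by rw [hy', norm_smul, hωn, hy, one_mul]
  have hBy' : inner ℂ y' (B y') = 1 := by
    rw [hy', map_smul, inner_smul_left, inner_smul_right, hBy, mul_one, mul_comm, hω]
  set c := (ω * inner ℂ x (B y) + conj ω * inner ℂ y (B x)).re with hc
  have hcross : inner ℂ x (B y') + inner ℂ y' (B x) = (c : ℂ) := by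
    rw [hy', map_smul, inner_smul_left, inner_smul_right]
    apply Complex.ext
    · rw [Complex.ofReal_re]
    · rw [Complex.ofReal_im, ← him]
  clear_value y' c
  have hform : ∀ s : ℝ, inner ℂ (((1 - s : ℝ) : ℂ) • x + ((s : ℝ) : ℂ) • y')
      (B (((1 - s : ℝ) : ℂ) • x + ((s : ℝ) : ℂ) • y')) = (((1 - s) * s * c + s ^ 2 : ℝ) : ℂ) := by
    intro s
    rw [map_add, map_smul, map_smul, inner_add_left, inner_add_right, inner_add_right,
      inner_smul_left, inner_smul_left, inner_smul_right, inner_smul_right, inner_smul_left,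
      inner_smul_left, inner_smul_right, inner_smul_right, hBx, hBy']
    simp only [Complex.conj_ofReal]
    push_cast
    linear_combination ((1 - (s:ℂ)) * s) * hcross
  let g : ℝ → ℝ := fun s => ((1 - s) * s * c + s ^ 2) -
    t * ‖((1 - s : ℝ) : ℂ) • x + ((s : ℝ) : ℂ) • y'‖ ^ 2
  have hgc : Continuous g := by fun_prop
  have hg0 : g 0 ≤ 0 := by
    simp only [g]; simp [hx]; exact ht
  have hg1 : 0 ≤ g 1 := by
    simp only [g]; simp [hy'n]; linarith
  obtain ⟨σ, hσ, hgσ⟩ : (0:ℝ) ∈ g '' Set.Icc 0 1 :=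
    intermediate_value_Icc zero_le_one hgc.continuousOn ⟨hg0, hg1⟩
  set u := ((1 - σ : ℝ) : ℂ) • x + ((σ : ℝ) : ℂ) • y' with hu
  have hu0 : u ≠ 0 := by
    intro h0
    by_cases hσ0 : σ = 0
    · rw [hu, hσ0] at h0
      simp at h0
      rw [h0] at hx; simp at hx
    · have hσc : ((σ : ℝ) : ℂ) ≠ 0 := by exact_mod_cast hσ0
      have hyx : y' = (-(((1 - σ : ℝ) : ℂ) / ((σ : ℝ) : ℂ))) • x := by
        have h2 : ((σ : ℝ) : ℂ) • y' = -(((1 - σ : ℝ) : ℂ) • x) := by
          rw [eq_neg_iff_add_eq_zero, add_comm, ← hu, h0]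
        calc y' = (((σ : ℝ) : ℂ))⁻¹ • (((σ : ℝ) : ℂ) • y') := by
              rw [smul_smul, inv_mul_cancel₀ hσc, one_smul]
          _ = _ := by
              rw [h2, smul_neg, smul_smul, neg_smul]
              congr 2
              field_simp
      rw [hyx, map_smul, inner_smul_left, inner_smul_right, hBx] at hBy'
      simp at hBy'
  have hun : 0 < ‖u‖ := norm_pos_iff.mpr hu0
  have hfu := hform σ
  rw [← hu] at hfu
  have hgu : ((1 - σ) * σ * c + σ ^ 2) = t * ‖u‖ ^ 2 := by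
    have : g σ = 0 := hgσ
    simp only [g] at this
    rw [← hu] at this
    linarith
  refine ⟨((‖u‖⁻¹ : ℝ) : ℂ) • u, ?_, ?_⟩
  · rw [norm_smul, Complex.norm_real, Real.norm_of_nonneg (by positivity)]
    field_simp
  · rw [map_smul, inner_smul_left, inner_smul_right, hBA, hfu, hgu, Complex.conj_ofReal]
    have hs' : s = 1 - t := by linarith
    rw [hs']
    have hunc : ((‖u‖ : ℝ) : ℂ) ≠ 0 := by exact_mod_cast hun.ne'
    simp only [Complex.real_smul]
    push_cast
    field_simp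
    ring

/-- Separation of the numerical range from a closed convex cone. -/
theorem separation [FiniteDimensional ℂ E] (A : E →L[ℂ] E) (K : Set ℂ) (hKc : Convex ℝ K)
    (hKcl : IsClosed K) (hK0 : (0:ℂ) ∈ K) (hKs : ∀ c : ℝ, 0 ≤ c → ∀ z ∈ K, (c : ℂ) * z ∈ K)
    (hdisj : ∀ x : E, ‖x‖ = 1 → inner ℂ x (A x) ∉ K) :
    ∃ κ : ℂ, ∃ δ : ℝ, 0 < δ ∧ (∀ z ∈ K, 0 ≤ (κ * z).re) ∧
      ∀ x : E, (κ * inner ℂ x (A x)).re ≤ -δ * ‖x‖ ^ 2 := by
  have : ProperSpace E := FiniteDimensional.proper ℂ E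
  set W : Set ℂ := {z : ℂ | ∃ x : E, ‖x‖ = 1 ∧ inner ℂ x (A x) = z} with hW
  have hWc : IsCompact W := by
    have : W = (fun x : E => inner ℂ x (A x)) '' Metric.sphere 0 1 := by
      ext z; simp [hW]
    rw [this]
    exact (isCompact_sphere 0 1).image (by fun_prop)
  have hd : Disjoint W K := by
    rw [Set.disjoint_left]
    rintro z ⟨x, hx, rfl⟩
    exact hdisj x hx
  obtain ⟨f, u, v, hfu, huv, hvf⟩ :=
    geometric_hahn_banach_compact_closed (toeplitz_hausdorff A) hWc hKc hKcl hd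
  have hv0 : v < 0 := by simpa using hvf 0 hK0
  have hfre : ∀ z : ℂ, f z = ((⟨f 1, -f Complex.I⟩ : ℂ) * z).re := by
    intro z
    have : z = z.re • (1:ℂ) + z.im • Complex.I := by
      apply Complex.ext <;> simp
    conv_lhs => rw [this, map_add, map_smul, map_smul]
    simp
    ring
  refine ⟨⟨f 1, -f Complex.I⟩, -u, by linarith, ?_, ?_⟩
  · intro z hz
    rw [← hfre]
    by_contra hcon
    push Not at hcon
    have h1 := hvf _ (hKs (v / f z + 1) (by
      have := div_pos_of_neg_of_neg hv0 hcon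
      linarith) z hz)
    have h2 : (((v / f z + 1 : ℝ) : ℂ) * z) = (v / f z + 1 : ℝ) • z := by simp
    rw [h2, map_smul, smul_eq_mul, add_mul, div_mul_cancel₀ _ hcon.ne] at h1
    linarith
  · intro x
    rw [← hfre]
    by_cases hx : x = 0
    · simp [hx]
    have hxn : 0 < ‖x‖ := norm_pos_iff.mpr hx
    set e := ((‖x‖⁻¹ : ℝ) : ℂ) • x with he
    have hen : ‖e‖ = 1 := by
      rw [he, norm_smul, Complex.norm_real, Real.norm_of_nonneg (by positivity)]
      field_simp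
    have h1 := hfu _ ⟨e, hen, rfl⟩
    have h2 : inner ℂ x (A x) = (‖x‖ ^ 2 : ℝ) • inner ℂ e (A e) := by
      rw [he, map_smul, inner_smul_left, inner_smul_right, Complex.conj_ofReal]
      have hunc : ((‖x‖ : ℝ) : ℂ) ≠ 0 := by exact_mod_cast hxn.ne'
      simp only [Complex.real_smul]
      push_cast
      field_simp
    rw [h2, map_smul, smul_eq_mul]
    have : 0 < ‖x‖ ^ 2 := by positivity
    nlinarith

end H640R2.PhaseMu
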