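import Mathlib
import Pool.Agent.H640R2.PhaseMuA

open Complex ComplexConjugate

namespace H640R2.PhaseMu

variable {E : Type*} [NormedAddCommGroup E] [InnerProductSpace ℂ E]

theorem exists_tau (a d ε : ℝ) (h : 2 * ε * |d| ≤ a) (hε : 0 ≤ ε) :
    ∃ τ : ℝ, -1 ≤ τ ∧ τ ≤ 1 ∧ τ * a = ε * (1 + τ ^ 2) * d := by
  let g : ℝ → ℝ := fun τ => τ * a - ε * (1 + τ ^ 2) * d
  have hgc : Continuous g := by fun_prop
  have h1 : ε * d ≤ ε * |d| := mul_le_mul_of_nonneg_left (le_abs_self _) hε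
  have h2 : -(ε * |d|) ≤ ε * d := by
    have := mul_le_mul_of_nonneg_left (neg_abs_le d) hε
    linarith
  have hg0 : g (-1) ≤ 0 := by
    simp only [g]; nlinarith
  have hg1 : 0 ≤ g 1 := by
    simp only [g]; nlinarith
  obtain ⟨τ, hτ, hgτ⟩ : (0:ℝ) ∈ g '' Set.Icc (-1) 1 :=
    intermediate_value_Icc (by norm_num) hgc.continuousOn ⟨hg0, hg1⟩
  refine ⟨τ, hτ.1, hτ.2, ?_⟩
  simp only [g] at hgτ
  linarith

theorem self_inner' (u : E) : inner ℂ u u = ((‖u‖ ^ 2 : ℝ) : ℂ) := by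
  rw [inner_self_eq_norm_sq_to_K]
  push_cast; rfl

/-- A constrained maximiser which is an eigenvector is a reducing eigenvector. -/
theorem reducing_of_max [CompleteSpace E] (N : E →L[ℂ] E) (ρ : ℝ) (hρ : 0 ≤ ρ) (x : E)
    (hx : ‖x‖ = 1) (hNx : N x = -((ρ : ℂ) • x))
    (H : ∀ y : E, (inner ℂ y (N y)).im = 0 → (inner ℂ y (N y)).re ≤ 0 → ‖N y‖ ≤ ρ * ‖y‖) :
    (ContinuousLinearMap.adjoint N) x = -((ρ : ℂ) • x) := by
  by_contra hcon
  set v := (ContinuousLinearMap.adjoint N) x + (ρ : ℂ) • x with hv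
  have hv0 : v ≠ 0 := by
    intro h
    exact hcon (eq_neg_of_add_eq_zero_left h)
  have hvn : 0 < ‖v‖ := norm_pos_iff.mpr hv0
  have hxv : inner ℂ x v = 0 := by
    rw [hv, inner_add_right, inner_smul_right, ContinuousLinearMap.adjoint_inner_right, hNx,
      inner_neg_left, inner_smul_left, self_inner', hx]
    simp
  have hvx : inner ℂ v x = 0 := by rw [← inner_conj_symm, hxv, map_zero]
  have hNxv : inner ℂ x (N v) = ((‖v‖ ^ 2 : ℝ) : ℂ) := by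
    rw [← ContinuousLinearMap.adjoint_inner_left]
    have : (ContinuousLinearMap.adjoint N) x = v - (ρ : ℂ) • x := by rw [hv]; abel
    rw [this, inner_sub_left, inner_smul_left, hxv, self_inner', mul_zero, sub_zero]
  set D := inner ℂ v (N v) with hD
  -- choose ε
  obtain ⟨ε, hε, hε1, hε2⟩ : ∃ ε : ℝ, 0 < ε ∧ 2 * ε * ‖D‖ < ‖v‖ ^ 2 ∧ ε * ρ < 1 := by
    refine ⟨min (‖v‖ ^ 2 / (2 * ‖D‖ + 1) / 2) (1 / (ρ + 1) / 2), ?_, ?_, ?_⟩
    · have := norm_nonneg D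
      positivity
    · have hD0 := norm_nonneg D
      have h1 : min (‖v‖ ^ 2 / (2 * ‖D‖ + 1) / 2) (1 / (ρ + 1) / 2) ≤
        ‖v‖ ^ 2 / (2 * ‖D‖ + 1) / 2 := min_le_left _ _
      have h2 : 2 * (‖v‖ ^ 2 / (2 * ‖D‖ + 1) / 2) * ‖D‖ < ‖v‖ ^ 2 := by
        have : ‖v‖ ^ 2 / (2 * ‖D‖ + 1) * (2 * ‖D‖ + 1) = ‖v‖ ^ 2 := by field_simp
        have h3 : 0 < ‖v‖ ^ 2 / (2 * ‖D‖ + 1) := by positivity
        nlinarith
      calc _ ≤ 2 * (‖v‖ ^ 2 / (2 * ‖D‖ + 1) / 2) * ‖D‖ := by gcongr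
        _ < _ := h2
    · have h1 : min (‖v‖ ^ 2 / (2 * ‖D‖ + 1) / 2) (1 / (ρ + 1) / 2) ≤ (1 / (ρ + 1) / 2) :=
        min_le_right _ _
      have h2 : (1 / (ρ + 1) / 2) * ρ < 1 := by
        have : 1 / (ρ + 1) * (ρ + 1) = 1 := by field_simp
        have h3 : 0 < 1 / (ρ + 1) := by positivity
        nlinarith
      calc _ ≤ (1 / (ρ + 1) / 2) * ρ := by gcongr
        _ < _ := h2
  have him : |D.im| ≤ ‖D‖ := Complex.abs_im_le_norm D
  have hre : |D.re| ≤ ‖D‖ := Complex.abs_re_le_norm D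
  obtain ⟨τ, hτ1, hτ2, hτ⟩ := exists_tau (‖v‖ ^ 2) D.im ε (by nlinarith) hε.le
  have hτsq : τ ^ 2 ≤ 1 := by nlinarith
  set k : ℂ := ⟨-ε, -(ε * τ)⟩ with hk
  have hkn : k * conj k = ((ε ^ 2 * (1 + τ ^ 2) : ℝ) : ℂ) := by
    apply Complex.ext
    · simp [hk]; rw [← Complex.ofReal_pow, ← Complex.ofReal_pow, Complex.ofReal_im,
        Complex.ofReal_im]; simp [← Complex.ofReal_pow]; ring
    · simp [hk]; rw [← Complex.ofReal_pow, ← Complex.ofReal_pow, Complex.ofReal_im,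
        Complex.ofReal_im]; simp; ring
  set y := x + k • v with hy
  have hNy : N y = -((ρ : ℂ) • x) + k • N v := by rw [hy, map_add, map_smul, hNx]
  have hform : inner ℂ y (N y) = -(ρ : ℂ) + k * ((‖v‖ ^ 2 : ℝ) : ℂ) +
      ((ε ^ 2 * (1 + τ ^ 2) : ℝ) : ℂ) * D := by
    rw [hNy, hy, inner_add_left, inner_add_right, inner_add_right, inner_smul_left,
      inner_smul_left, inner_neg_right, inner_neg_right, inner_smul_right, inner_smul_right,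
      inner_smul_right, inner_smul_right, hvx, hNxv, self_inner', hx, ← hD, ← hkn]
    simp
    ring
  have hfre : (inner ℂ y (N y)).re = -ρ - ε * ‖v‖ ^ 2 + ε ^ 2 * (1 + τ ^ 2) * D.re := by
    rw [hform]
    simp only [Complex.add_re, Complex.neg_re, Complex.ofReal_re, Complex.mul_re,
      Complex.ofReal_im, hk]
    ring
  have hfim : (inner ℂ y (N y)).im = 0 := by
    rw [hform]
    simp only [Complex.add_im, Complex.neg_im, Complex.ofReal_re, Complex.mul_im,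
      Complex.ofReal_im, hk]
    linear_combination (-ε) * hτ
  have hfneg : (inner ℂ y (N y)).re < 0 := by
    rw [hfre]
    have h1 : (1 + τ ^ 2) * D.re ≤ 2 * ‖D‖ := by
      have := (abs_le.mp hre).2
      have h3 : (1 + τ ^ 2) * D.re ≤ (1 + τ ^ 2) * ‖D‖ :=
        mul_le_mul_of_nonneg_left this (by positivity)
      have h4 := norm_nonneg D
      nlinarith
    have h2 : ε ^ 2 * (1 + τ ^ 2) * D.re ≤ ε * (2 * ε * ‖D‖) := by
      have := mul_le_mul_of_nonneg_left h1 (sq_nonneg ε)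
      nlinarith
    have h5 : ε * (2 * ε * ‖D‖) < ε * ‖v‖ ^ 2 := mul_lt_mul_of_pos_left hε1 hε
    linarith
  have hkey := H y hfim hfneg.le
  rcases hρ.eq_or_lt with h0 | h0
  · rw [← h0, zero_mul] at hkey
    have : N y = 0 := norm_le_zero_iff.mp hkey
    rw [this, inner_zero_right] at hfneg
    simp at hfneg
  · have hsq : ‖N y‖ ^ 2 ≤ (ρ * ‖y‖) ^ 2 := pow_le_pow_left₀ (norm_nonneg _) hkey 2
    have hkn2 : ‖k‖ ^ 2 = ε ^ 2 * (1 + τ ^ 2) := by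
      have := hkn
      rw [Complex.mul_conj, Complex.normSq_eq_norm_sq] at this
      exact_mod_cast this
    have e1 : ‖y‖ ^ 2 = 1 + ε ^ 2 * (1 + τ ^ 2) * ‖v‖ ^ 2 := by
      rw [hy, @norm_add_sq ℂ, inner_smul_right, hxv, norm_smul, mul_pow, hkn2, hx]
      simp
    have e2 : ‖N y‖ ^ 2 = ρ ^ 2 + 2 * ρ * ε * ‖v‖ ^ 2 + ε ^ 2 * (1 + τ ^ 2) * ‖N v‖ ^ 2 := by
      rw [hNy, @norm_add_sq ℂ, inner_neg_left, inner_smul_left, inner_smul_right, hNxv, norm_neg,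
        norm_smul, norm_smul, mul_pow, mul_pow, hkn2, hx, Complex.norm_real,
        Real.norm_of_nonneg hρ]
      have : RCLike.re (-((starRingEnd ℂ) (ρ : ℂ) * (k * ((‖v‖ ^ 2 : ℝ) : ℂ)))) =
          ρ * ε * ‖v‖ ^ 2 := by
        rw [RCLike.re_to_complex, Complex.conj_ofReal, Complex.neg_re, Complex.re_ofReal_mul,
          Complex.re_mul_ofReal, hk]
        ring
      rw [this]
      ring
    rw [mul_pow, e1, e2] at hsq
    have h6 : 0 ≤ ε ^ 2 * (1 + τ ^ 2) * ‖N v‖ ^ 2 := by positivity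
    have h7 : 2 * ρ * ε * ‖v‖ ^ 2 ≤ ρ ^ 2 * (ε ^ 2 * (1 + τ ^ 2) * ‖v‖ ^ 2) := by nlinarith
    have h8 : ρ ^ 2 * (ε ^ 2 * (1 + τ ^ 2) * ‖v‖ ^ 2) ≤ ρ ^ 2 * (ε ^ 2 * 2 * ‖v‖ ^ 2) := by
      gcongr
      linarith
    have h9 : 2 * ρ * ε * ‖v‖ ^ 2 ≤ 2 * ρ * ε * ‖v‖ ^ 2 * (ε * ρ) := by nlinarith
    have h10 : 0 < 2 * ρ * ε * ‖v‖ ^ 2 := by positivity
    nlinarith

end H640R2.PhaseMu
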