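import Mathlib
import Pool.Agent.H640R2.PhaseMuD

open Complex ComplexConjugate

namespace H640R2.PhaseMu

variable {E : Type*} [NormedAddCommGroup E] [InnerProductSpace ℂ E]

/-- A strong maximiser is either a top singular vector or a reducing eigenvector on the boundary. -/
theorem strong_max [CompleteSpace E] {θ : ℝ} (h0 : 0 ≤ θ) (h1 : θ < Real.pi / 2)
    (M : E →L[ℂ] E) (x : E) (hx : ‖x‖ = 1) (hpos : 0 < ‖M x‖)
    (hst : Real.cos θ * ‖M x‖ ≤ -(inner ℂ x (M x)).re)
    (H : ∀ y : E, Real.cos θ * ‖inner ℂ y (M y)‖ ≤ -(inner ℂ y (M y)).re → ‖M y‖ ≤ ‖M x‖ * ‖y‖) :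
    (∀ y, ‖M y‖ ≤ ‖M x‖ * ‖y‖) ∨
      ∃ l : ℂ, M x = l • x ∧ (ContinuousLinearMap.adjoint M) x = conj l • x ∧
        (l = -((‖M x‖ : ℂ) * ⟨Real.cos θ, Real.sin θ⟩) ∨
          l = -((‖M x‖ : ℂ) * ⟨Real.cos θ, -Real.sin θ⟩)) := by
  have hc : 0 < Real.cos θ := Real.cos_pos_of_mem_Ioo ⟨by linarith [Real.pi_pos], h1⟩
  have hs : 0 ≤ Real.sin θ := Real.sin_nonneg_of_nonneg_of_le_pi h0 (by linarith [Real.pi_pos])
  have hsc := Real.sin_sq_add_cos_sq θ
  set ρ := ‖M x‖ with hρ
  set w := inner ℂ x (M x) with hw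
  have hwn : ‖w‖ ≤ ρ := by
    have := norm_inner_le_norm (𝕜 := ℂ) x (M x)
    rw [hx, one_mul] at this
    exact this
  have hcw : Real.cos θ * ‖w‖ ≤ -w.re := le_trans (mul_le_mul_of_nonneg_left hwn hc.le) hst
  rcases hcw.lt_or_eq with hlt | heq
  · -- interior case
    left
    intro y
    -- the curve x + t y
    let φ : ℝ → ℝ := fun t => Real.cos θ * ‖inner ℂ (x + (t : ℂ) • y) (M (x + (t : ℂ) • y))‖ +
      (inner ℂ (x + (t : ℂ) • y) (M (x + (t : ℂ) • y))).re
    have hφc : Continuous φ := by fun_prop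
    have hφ0 : φ 0 < 0 := by
      simp only [φ]
      simp only [Complex.ofReal_zero, zero_smul, add_zero]
      linarith
    have hev : ∀ᶠ t in nhds (0:ℝ), φ t < 0 := hφc.continuousAt.eventually_lt_const hφ0
    obtain ⟨δ, hδ, hball⟩ := Metric.eventually_nhds_iff.mp hev
    set t := δ / 2 with ht
    have htpos : 0 < t := by positivity
    have ht1 : φ t < 0 := hball (by simp [ht, abs_of_pos hδ]; linarith)
    have ht2 : φ (-t) < 0 := hball (by simp [ht, abs_of_pos hδ]; linarith)
    have hk1 := H (x + (t : ℂ) • y) (by simp only [φ] at ht1; linarith)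
    have hk2 := H (x + ((-t : ℝ) : ℂ) • y) (by simp only [φ] at ht2; linarith)
    have hq1 : ‖M (x + (t : ℂ) • y)‖ ^ 2 ≤ (ρ * ‖x + (t : ℂ) • y‖) ^ 2 :=
      pow_le_pow_left₀ (norm_nonneg _) hk1 2
    have hq2 : ‖M (x + ((-t : ℝ) : ℂ) • y)‖ ^ 2 ≤ (ρ * ‖x + ((-t : ℝ) : ℂ) • y‖) ^ 2 :=
      pow_le_pow_left₀ (norm_nonneg _) hk2 2
    have ex : ∀ s : ℝ, ‖x + (s : ℂ) • y‖ ^ 2 = 1 + 2 * s * (inner ℂ x y).re + s ^ 2 * ‖y‖ ^ 2 := by
      intro s
      rw [@norm_add_sq ℂ, inner_smul_right, norm_smul, mul_pow, hx, Complex.norm_real,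
        Real.norm_eq_abs, sq_abs, RCLike.re_to_complex, Complex.re_ofReal_mul]
      ring
    have eM : ∀ s : ℝ, ‖M (x + (s : ℂ) • y)‖ ^ 2 =
        ρ ^ 2 + 2 * s * (inner ℂ (M x) (M y)).re + s ^ 2 * ‖M y‖ ^ 2 := by
      intro s
      rw [map_add, map_smul, @norm_add_sq ℂ, inner_smul_right, norm_smul, mul_pow,
        Complex.norm_real, Real.norm_eq_abs, sq_abs, RCLike.re_to_complex, Complex.re_ofReal_mul]
      ring
    rw [mul_pow, ex, eM] at hq1 hq2
    have hsum : t ^ 2 * ‖M y‖ ^ 2 ≤ t ^ 2 * (ρ * ‖y‖) ^ 2 := by nlinarith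
    have h5 : ‖M y‖ ^ 2 ≤ (ρ * ‖y‖) ^ 2 := le_of_mul_le_mul_left hsum (by positivity)
    exact (pow_le_pow_iff_left₀ (norm_nonneg _) (by positivity) (two_ne_zero)).mp h5
  · -- boundary case
    right
    have hwρ : ‖w‖ = ρ := by
      have : Real.cos θ * ρ ≤ Real.cos θ * ‖w‖ := by linarith
      exact le_antisymm hwn (le_of_mul_le_mul_left this hc)
    have hMx : M x = w • x := by
      have h2 : ‖M x - w • x‖ ^ 2 = 0 := by
        rw [@norm_sub_sq ℂ, inner_smul_right, norm_smul, hx, mul_one, hwρ,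
          ← inner_conj_symm (M x) x, ← hw, RCLike.re_to_complex, Complex.mul_conj,
          Complex.normSq_eq_norm_sq, Complex.ofReal_re, hwρ]
        ring
      exact sub_eq_zero.mp (norm_eq_zero.mp (pow_eq_zero_iff (two_ne_zero) |>.mp h2))
    rw [hwρ] at heq
    -- w = -ρ e^{±iθ}
    have him : w.im = -(ρ * Real.sin θ) ∨ w.im = ρ * Real.sin θ := by
      have h2 : w.im ^ 2 = (ρ * Real.sin θ) ^ 2 := by
        have := Complex.normSq_apply w
        rw [Complex.normSq_eq_norm_sq, hwρ] at this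
        have h3 : w.re = -(Real.cos θ * ρ) := by linarith
        rw [h3] at this
        nlinarith
      rcases sq_eq_sq_iff_eq_or_eq_neg.mp h2 with h | h
      · exact Or.inr h
      · exact Or.inl h
    -- general reduction
    have main : ∀ s : ℝ, s ^ 2 + Real.cos θ ^ 2 = 1 → w = -((ρ : ℂ) * ⟨Real.cos θ, s⟩) →
        (ContinuousLinearMap.adjoint M) x = conj w • x := by
      intro s hs1 hws
      set u : ℂ := ⟨Real.cos θ, s⟩ with hu
      have huu : conj u * u = 1 := by
        apply Complex.ext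
        · simp [hu]; nlinarith
        · simp [hu]; ring
      have hun : ‖u‖ = 1 := by
        have h2 : ‖u‖ ^ 2 = 1 := by
          rw [mul_comm, Complex.mul_conj, Complex.normSq_eq_norm_sq] at huu
          exact_mod_cast huu
        have h3 := norm_nonneg u
        nlinarith
      have hNx : (conj u • M) x = -((ρ : ℂ) • x) := by
        simp only [_root_.smul_apply]
        rw [hMx, smul_smul, hws, ← neg_smul]
        congr 1
        linear_combination (-(ρ : ℂ)) * huu
      have := reducing_of_max (conj u • M) ρ hpos.le x hx hNx ?_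
      · rw [map_smulₛₗ] at this
        simp only [_root_.smul_apply, Complex.conj_conj] at this
        have h3 : (ContinuousLinearMap.adjoint M) x =
            conj u • (u • (ContinuousLinearMap.adjoint M) x) := by
          rw [smul_smul, huu, one_smul]
        rw [h3, this, smul_neg, smul_smul, ← neg_smul, hws, map_neg, map_mul, Complex.conj_ofReal]
        congr 1
        ring
      · intro y hy1 hy2
        simp only [_root_.smul_apply] at hy1 hy2 ⊢
        rw [inner_smul_right] at hy1 hy2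
        rw [norm_smul, RCLike.norm_conj, hun, one_mul]
        apply H
        set q := conj u * inner ℂ y (M y) with hq
        have hqr : inner ℂ y (M y) = u * q := by
          rw [hq, ← mul_assoc, mul_comm u, huu, one_mul]
        have hqq : q = (q.re : ℂ) := by
          apply Complex.ext <;> simp [hy1]
        rw [hqr, norm_mul, hun, one_mul, hqq, Complex.norm_real, Real.norm_eq_abs,
          abs_of_nonpos hy2, Complex.re_mul_ofReal, hu]
        simp only
        linarith
    rcases him with h | h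
    · have hww : w = -((ρ : ℂ) * ⟨Real.cos θ, Real.sin θ⟩) := by
        apply Complex.ext
        · simp; linarith
        · simp [h]
      exact ⟨w, hMx, main _ hsc hww, Or.inl hww⟩
    · have hww : w = -((ρ : ℂ) * ⟨Real.cos θ, -Real.sin θ⟩) := by
        apply Complex.ext
        · simp; linarith
        · simp [h]
      exact ⟨w, hMx, main _ (by rw [neg_sq]; exact hsc) hww, Or.inr hww⟩

end H640R2.PhaseMu
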