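import Mathlib
import Pool.Agent.H640R2.PhaseMuA
import Pool.Agent.H640R2.PhaseMuC
import Pool.Agent.H640R2.PhaseMuE

open Complex ComplexConjugate

namespace H640R2.PhaseMu

variable {E : Type*} [NormedAddCommGroup E] [InnerProductSpace ℂ E]

/-- feasibility of the LMI, in form language -/
def Feas (θ : ℝ) (M : E →L[ℂ] E) (γ : ℝ) : Prop :=
  ∃ r : ℝ, 0 < r ∧ ∃ β : ℝ, (θ ≠ 0 → |β| ≤ Real.cot θ) ∧
    ∀ x : E, x ≠ 0 → r * (‖M x‖ ^ 2 - γ ^ 2 * ‖x‖ ^ 2) -
      2 * ((1 + Complex.I * (β : ℂ)) * inner ℂ x (M x)).re < 0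

theorem re_form (β : ℝ) (w : ℂ) : ((1 + Complex.I * (β : ℂ)) * w).re = w.re - β * w.im := by
  simp

theorem cot_nonneg {θ : ℝ} (h0 : 0 ≤ θ) (h1 : θ ≤ Real.pi / 2) : 0 ≤ Real.cot θ := by
  rw [Real.cot_eq_cos_div_sin]
  exact div_nonneg (Real.cos_nonneg_of_mem_Icc ⟨by linarith, h1⟩)
    (Real.sin_nonneg_of_nonneg_of_le_pi h0 (by linarith [Real.pi_pos]))

/-- the multiplier is nonpositive on minus the sector -/
theorem mult_nonpos {θ : ℝ} (h0 : 0 ≤ θ) (h1 : θ ≤ Real.pi / 2) (β : ℝ)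
    (hβ : θ ≠ 0 → |β| ≤ Real.cot θ) (w : ℂ) (hw : Real.cos θ * ‖w‖ ≤ -w.re) :
    ((1 + Complex.I * (β : ℂ)) * w).re ≤ 0 := by
  rw [re_form]
  have h2 : Real.cos θ * |(-w).im| ≤ Real.sin θ * (-w).re :=
    sector_im h0 h1 (by rw [norm_neg, Complex.neg_re]; exact hw)
  rw [Complex.neg_im, abs_neg, Complex.neg_re] at h2
  by_cases hθ : θ = 0
  · subst hθ
    simp only [Real.cos_zero, one_mul, Real.sin_zero, zero_mul] at h2 hw
    have h3 : w.im = 0 := abs_nonpos_iff.mp h2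
    have := norm_nonneg w
    rw [h3]; linarith
  · have hs : 0 < Real.sin θ :=
      Real.sin_pos_of_pos_of_lt_pi (lt_of_le_of_ne h0 (Ne.symm hθ)) (by linarith [Real.pi_pos])
    have h3 := hβ hθ
    rw [Real.cot_eq_cos_div_sin, le_div_iff₀ hs] at h3
    have h4 : -(β * w.im) ≤ |β| * |w.im| := by
      rw [← abs_mul]; exact neg_le_abs _
    have h5 : |β| * |w.im| * Real.sin θ ≤ -w.re * Real.sin θ := by
      have := mul_le_mul_of_nonneg_right h3 (abs_nonneg w.im)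
      nlinarith
    have h6 := le_of_mul_le_mul_right h5 hs
    linarith

theorem feas_bound {θ : ℝ} (h0 : 0 ≤ θ) (h1 : θ ≤ Real.pi / 2) {M : E →L[ℂ] E} {γ : ℝ}
    (hγ : 0 < γ) (hF : Feas θ M γ) (x : E) (hx : x ≠ 0)
    (hw : Real.cos θ * ‖inner ℂ x (M x)‖ ≤ -(inner ℂ x (M x)).re) : ‖M x‖ < γ * ‖x‖ := by
  obtain ⟨r, hr, β, hβ, hlmi⟩ := hF
  have h2 := hlmi x hx
  have h3 := mult_nonpos h0 h1 β hβ _ hw
  have h4 : r * (‖M x‖ ^ 2 - γ ^ 2 * ‖x‖ ^ 2) < 0 := by linarith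
  have h5 : ‖M x‖ ^ 2 - γ ^ 2 * ‖x‖ ^ 2 < 0 := by
    by_contra hcon
    push Not at hcon
    have := mul_nonneg hr.le hcon
    linarith
  have h6 : ‖M x‖ ^ 2 < (γ * ‖x‖) ^ 2 := by rw [mul_pow]; linarith
  exact (pow_lt_pow_iff_left₀ (norm_nonneg _) (by positivity) (two_ne_zero)).mp h6

theorem feas_of_norm {θ : ℝ} (h0 : 0 ≤ θ) (h1 : θ ≤ Real.pi / 2) (M : E →L[ℂ] E) {ρ γ : ℝ}
    (hρ : 0 ≤ ρ) (hM : ∀ x, ‖M x‖ ≤ ρ * ‖x‖) (hγ : ρ < γ) : Feas θ M γ := by
  have hg : 0 < γ ^ 2 - ρ ^ 2 := by nlinarith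
  refine ⟨(2 * ρ + 1) / (γ ^ 2 - ρ ^ 2), by positivity, 0, ?_, ?_⟩
  · intro _
    rw [abs_zero]; exact cot_nonneg h0 h1
  · intro x hx
    rw [re_form]
    have hxn : 0 < ‖x‖ := norm_pos_iff.mpr hx
    have h2 : |(inner ℂ x (M x)).re| ≤ ρ * ‖x‖ ^ 2 := by
      calc _ ≤ ‖inner ℂ x (M x)‖ := Complex.abs_re_le_norm _
        _ ≤ ‖x‖ * ‖M x‖ := norm_inner_le_norm _ _
        _ ≤ ‖x‖ * (ρ * ‖x‖) := by gcongr; exact hM x
        _ = _ := by ring
    have h3 : ‖M x‖ ^ 2 ≤ (ρ * ‖x‖) ^ 2 := pow_le_pow_left₀ (norm_nonneg _) (hM x) 2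
    have h4 : (2 * ρ + 1) / (γ ^ 2 - ρ ^ 2) * (‖M x‖ ^ 2 - γ ^ 2 * ‖x‖ ^ 2) ≤
        (2 * ρ + 1) / (γ ^ 2 - ρ ^ 2) * (-(γ ^ 2 - ρ ^ 2) * ‖x‖ ^ 2) := by
      gcongr
      nlinarith
    have h5 : (2 * ρ + 1) / (γ ^ 2 - ρ ^ 2) * (-(γ ^ 2 - ρ ^ 2) * ‖x‖ ^ 2) =
        -(2 * ρ + 1) * ‖x‖ ^ 2 := by field_simp
    rw [h5] at h4
    have h6 := (abs_le.mp h2).1
    have h7 : 0 < ‖x‖ ^ 2 := by positivity
    nlinarith

/-- normalising a multiplier -/
theorem feas_of_mult {θ : ℝ} (M : E →L[ℂ] E) (γ R a b : ℝ) (hR : 0 < R) (ha : 0 < a)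
    (hab : θ ≠ 0 → |b| ≤ Real.cot θ * a)
    (h : ∀ x : E, x ≠ 0 → R * (‖M x‖ ^ 2 - γ ^ 2 * ‖x‖ ^ 2) -
      2 * (a * (inner ℂ x (M x)).re - b * (inner ℂ x (M x)).im) < 0) : Feas θ M γ := by
  refine ⟨R / a, by positivity, b / a, ?_, ?_⟩
  · intro hθ
    rw [abs_div, abs_of_pos ha, div_le_iff₀ ha]
    exact hab hθ
  · intro x hx
    rw [re_form]
    have h2 := h x hx
    have h3 : R / a * (‖M x‖ ^ 2 - γ ^ 2 * ‖x‖ ^ 2) -
        2 * ((inner ℂ x (M x)).re - b / a * (inner ℂ x (M x)).im) =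
        (R * (‖M x‖ ^ 2 - γ ^ 2 * ‖x‖ ^ 2) -
      2 * (a * (inner ℂ x (M x)).re - b * (inner ℂ x (M x)).im)) / a := by
      field_simp
    rw [h3]
    exact div_neg_of_neg_of_pos h2 ha

/-- case (a) -/
theorem feas_of_trivial [FiniteDimensional ℂ E] {θ : ℝ} (h0 : 0 ≤ θ) (h1 : θ ≤ Real.pi / 2)
    (M : E →L[ℂ] E)
    (H : ∀ y : E, Real.cos θ * ‖inner ℂ y (M y)‖ ≤ -(inner ℂ y (M y)).re → M y = 0)
    {γ : ℝ} (hγ : 0 < γ) : Feas θ M γ := by
  have : CompleteSpace E := FiniteDimensional.complete ℂ E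
  have hc : 0 ≤ Real.cos θ := Real.cos_nonneg_of_mem_Icc ⟨by linarith, h1⟩
  have hs : 0 ≤ Real.sin θ := Real.sin_nonneg_of_nonneg_of_le_pi h0 (by linarith [Real.pi_pos])
  have hc1 : Real.cos θ ≤ 1 := Real.cos_le_one θ
  have hsc := Real.sin_sq_add_cos_sq θ
  -- kernel of M is contained in the kernel of the adjoint
  have hker : ∀ u : E, M u = 0 → (ContinuousLinearMap.adjoint M) u = 0 := by
    intro u hu
    by_cases hu0 : u = 0
    · simp [hu0]
    have hun : 0 < ‖u‖ := norm_pos_iff.mpr hu0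
    have h2 := reducing_of_max M 0 le_rfl (((‖u‖⁻¹ : ℝ) : ℂ) • u)
      (by rw [norm_smul, Complex.norm_real, Real.norm_of_nonneg (by positivity)]; field_simp)
      (by rw [map_smul, hu]; simp) (by
        intro y hy1 hy2
        have h3 : M y = 0 := by
          apply H
          have h4 : inner ℂ y (M y) = (((inner ℂ y (M y)).re : ℝ) : ℂ) := by
            apply Complex.ext <;> simp [hy1]
          rw [h4, Complex.norm_real, Real.norm_eq_abs, Complex.ofReal_re, abs_of_nonpos hy2]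
          nlinarith
        rw [h3]; simp)
    rw [map_smul] at h2
    simp only [Complex.ofReal_zero, zero_smul, neg_zero, smul_eq_zero] at h2
    rcases h2 with h2 | h2
    · exfalso
      have : ‖u‖⁻¹ = 0 := by exact_mod_cast h2
      have h5 : 0 < ‖u‖⁻¹ := by positivity
      linarith
    · exact h2
  let V : Submodule ℂ E := LinearMap.ker (M : E →ₗ[ℂ] E)
  have hV : ∀ u, u ∈ V ↔ M u = 0 := by intro u; simp [V]
  let P : E →L[ℂ] E := V.starProjection
  have hPV : ∀ x, P x ∈ V := fun x => V.starProjection_apply_mem x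
  have hPorth : ∀ x, x - P x ∈ Vᗮ := fun x => V.sub_starProjection_mem_orthogonal x
  have hMP : ∀ x, M (P x) = 0 := fun x => (hV _).mp (hPV x)
  have hMv : ∀ x, M (x - P x) = M x := by intro x; rw [map_sub, hMP, sub_zero]
  have hadj0 : ∀ x, (ContinuousLinearMap.adjoint M) (P x) = 0 := fun x => hker _ (hMP x)
  have hinner : ∀ x, inner ℂ x (M x) = inner ℂ (x - P x) (M (x - P x)) := by
    intro x
    rw [hMv, inner_sub_left, ← ContinuousLinearMap.adjoint_inner_left M x (P x), hadj0,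
      inner_zero_left, sub_zero]
  have hinnerP : ∀ x, inner ℂ x (P x) = ((‖P x‖ ^ 2 : ℝ) : ℂ) := by
    intro x
    have h2 : inner ℂ (x - P x) (P x) = 0 := (V.mem_orthogonal' _).mp (hPorth x) _ (hPV x)
    rw [inner_sub_left, sub_eq_zero] at h2
    rw [h2, self_inner']
  set K : Set ℂ := {z : ℂ | Real.cos θ * ‖z‖ ≤ -z.re} with hK
  obtain ⟨κ, δ, hδ, hκ1, hκ2⟩ := separation (M + P) K
    (by
      intro z hz w hw s t hs' ht' hst
      simp only [hK, Set.mem_ofPred_eq] at hz hw ⊢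
      have h2 : ‖s • z + t • w‖ ≤ s * ‖z‖ + t * ‖w‖ := by
        refine (norm_add_le _ _).trans ?_
        rw [norm_smul, norm_smul, Real.norm_of_nonneg hs', Real.norm_of_nonneg ht']
      simp only [Complex.add_re, Complex.real_smul, Complex.re_ofReal_mul]
      have h3 := mul_le_mul_of_nonneg_left h2 hc
      simp only [Complex.real_smul] at h3
      nlinarith)
    (by
      apply isClosed_le <;> fun_prop)
    (by simp [hK])
    (by
      intro c hc' z hz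
      simp only [hK, Set.mem_ofPred_eq] at hz ⊢
      rw [norm_mul, Complex.norm_real, Real.norm_of_nonneg hc', Complex.re_ofReal_mul]
      nlinarith)
    (by
      intro x hx hmem
      simp only [hK, Set.mem_ofPred_eq, _root_.add_apply] at hmem
      rw [inner_add_right, hinnerP, hinner] at hmem
      set v := x - P x with hv
      set w := inner ℂ v (M v) with hw
      set p := ‖P x‖ ^ 2 with hp
      have hp0 : 0 ≤ p := by positivity
      rw [Complex.add_re, Complex.ofReal_re] at hmem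
      have h2 : ‖w‖ ≤ ‖w + (p : ℂ)‖ + p := by
        have h3 : w = (w + (p : ℂ)) - (p : ℂ) := by ring
        calc ‖w‖ = ‖(w + (p : ℂ)) - (p : ℂ)‖ := by rw [← h3]
          _ ≤ ‖w + (p : ℂ)‖ + ‖(p : ℂ)‖ := norm_sub_le _ _
          _ = _ := by rw [Complex.norm_real, Real.norm_of_nonneg hp0]
      have h4 : Real.cos θ * ‖w‖ ≤ -w.re := by
        have := mul_le_mul_of_nonneg_left h2 hc
        nlinarith
      have h5 : M v = 0 := H v h4
      have h6 : v ∈ V := (hV v).mpr h5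
      have h7 : v = 0 := by
        have h8 : inner ℂ v v = 0 := (V.mem_orthogonal' _).mp (hPorth x) _ h6
        exact inner_self_eq_zero.mp h8
      have h9 : w = 0 := by rw [hw, h7]; simp
      rw [h9] at hmem
      simp only [zero_add, Complex.zero_re] at hmem
      rw [Complex.norm_real, Real.norm_of_nonneg hp0] at hmem
      have h10 : p = 0 := by nlinarith
      have h11 : P x = 0 := by
        rw [hp] at h10
        exact norm_eq_zero.mp (pow_eq_zero_iff (two_ne_zero) |>.mp h10)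
      have h12 : x = 0 := by
        have : x = v + P x := by rw [hv]; abel
        rw [this, h7, h11, add_zero]
      rw [h12] at hx; simp at hx)
  -- extract multipliers
  set a := -κ.re with ha
  set b := -κ.im with hb
  have ha0 : 0 ≤ a := by
    have := hκ1 (-1) (by simp [hK, hc1])
    simpa [ha] using this
  have hb1 : b * Real.sin θ ≤ a * Real.cos θ := by
    have := hκ1 (-⟨Real.cos θ, Real.sin θ⟩) (by
      simp only [hK, Set.mem_ofPred_eq, norm_neg, Complex.neg_re, neg_neg]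
      have : ‖(⟨Real.cos θ, Real.sin θ⟩ : ℂ)‖ = 1 := by
        have h2 : ‖(⟨Real.cos θ, Real.sin θ⟩ : ℂ)‖ ^ 2 = 1 := by
          rw [← Complex.normSq_eq_norm_sq, Complex.normSq_apply]; simp only; nlinarith
        have h3 := norm_nonneg (⟨Real.cos θ, Real.sin θ⟩ : ℂ)
        nlinarith
      rw [this, mul_one])
    simp only [Complex.mul_re, Complex.neg_re, Complex.neg_im] at this
    rw [ha, hb]; linarith
  have hb2 : -b * Real.sin θ ≤ a * Real.cos θ := by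
    have := hκ1 (-⟨Real.cos θ, -Real.sin θ⟩) (by
      simp only [hK, Set.mem_ofPred_eq, norm_neg, Complex.neg_re, neg_neg]
      have : ‖(⟨Real.cos θ, -Real.sin θ⟩ : ℂ)‖ = 1 := by
        have h2 : ‖(⟨Real.cos θ, -Real.sin θ⟩ : ℂ)‖ ^ 2 = 1 := by
          rw [← Complex.normSq_eq_norm_sq, Complex.normSq_apply]; simp only; nlinarith
        have h3 := norm_nonneg (⟨Real.cos θ, -Real.sin θ⟩ : ℂ)
        nlinarith
      rw [this, mul_one])
    simp only [Complex.mul_re, Complex.neg_re, Complex.neg_im] at this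
    rw [ha, hb]; linarith
  have habs : |b| * Real.sin θ ≤ a * Real.cos θ := by
    rcases abs_cases b with h | h
    · rw [h.1]; exact hb1
    · rw [h.1]; exact hb2
  have hlow : ∀ v : E, P v = 0 → δ * ‖v‖ ^ 2 ≤ a * (inner ℂ v (M v)).re - b * (inner ℂ v (M v)).im := by
    intro v hv
    have h2 := hκ2 v
    simp only [_root_.add_apply] at h2
    rw [hv, add_zero, Complex.mul_re] at h2
    rw [ha, hb]; linarith
  have hPv : ∀ x, P (x - P x) = 0 := by
    intro x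
    exact (Submodule.starProjection_apply_eq_zero_iff V).mpr (hPorth x)
  set m := ‖M‖ with hm
  have hm0 : 0 ≤ m := norm_nonneg _
  set ε := δ / (2 * (m + 1)) with hε
  have hεpos : 0 < ε := by positivity
  have ha' : 0 < a + ε := by linarith
  have hεm : ε * m ≤ δ / 2 := by
    have : ε * (2 * (m + 1)) = δ := by rw [hε]; field_simp
    nlinarith
  refine feas_of_mult M γ (δ / (m ^ 2 + 1)) (a + ε) b (by positivity) ha' ?_ ?_
  · intro hθ
    have hsp : 0 < Real.sin θ :=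
      Real.sin_pos_of_pos_of_lt_pi (lt_of_le_of_ne h0 (Ne.symm hθ)) (by linarith [Real.pi_pos])
    rw [Real.cot_eq_cos_div_sin, div_mul_eq_mul_div, le_div_iff₀ hsp]
    nlinarith
  · intro x hx
    have hxn : 0 < ‖x‖ := norm_pos_iff.mpr hx
    set v := x - P x with hv
    have hw : inner ℂ x (M x) = inner ℂ v (M v) := hinner x
    have hMx : ‖M x‖ = ‖M v‖ := by rw [hv, hMv]
    rw [hw, hMx]
    have h2 := hlow v (hPv x)
    have h3 : ‖M v‖ ≤ m * ‖v‖ := M.le_opNorm v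
    have h4 : |(inner ℂ v (M v)).re| ≤ m * ‖v‖ ^ 2 := by
      calc _ ≤ ‖inner ℂ v (M v)‖ := Complex.abs_re_le_norm _
        _ ≤ ‖v‖ * ‖M v‖ := norm_inner_le_norm _ _
        _ ≤ ‖v‖ * (m * ‖v‖) := by gcongr
        _ = _ := by ring
    have h5 := (abs_le.mp h4).1
    have h6 : ‖M v‖ ^ 2 ≤ m ^ 2 * ‖v‖ ^ 2 := by
      have := pow_le_pow_left₀ (norm_nonneg _) h3 2
      rwa [mul_pow] at this
    have h7 : δ / (m ^ 2 + 1) * ‖M v‖ ^ 2 ≤ δ * ‖v‖ ^ 2 := by
      rw [div_mul_eq_mul_div, div_le_iff₀ (by positivity)]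
      have : 0 ≤ δ * ‖v‖ ^ 2 := by positivity
      nlinarith
    have h8 : 0 < δ / (m ^ 2 + 1) * (γ ^ 2 * ‖x‖ ^ 2) := by positivity
    have h9 : -(ε * m * ‖v‖ ^ 2) ≤ ε * (inner ℂ v (M v)).re := by nlinarith
    have h10 : ε * m * ‖v‖ ^ 2 ≤ δ / 2 * ‖v‖ ^ 2 :=
      mul_le_mul_of_nonneg_right hεm (by positivity)
    nlinarith

end H640R2.PhaseMu
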