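import Mathlib
import Pool.Agent.H640R2.PhaseMuF

open Complex ComplexConjugate

namespace H640R2.PhaseMu

variable {E : Type*} [NormedAddCommGroup E] [InnerProductSpace ℂ E]

/-- moving along a boundary ray of the sector reaches the sector from a half plane -/
theorem exists_shift {θ : ℝ} (h0 : 0 ≤ θ) (h1 : θ < Real.pi / 2) (ρ e : ℝ) (hρ : 0 < ρ)
    (he : e = 1 ∨ e = -1) (z : ℂ)
    (hz : 0 ≤ ((⟨Real.sin θ, e * Real.cos θ⟩ : ℂ) * z).re)
    (hz0 : θ = 0 → ((⟨Real.sin θ, e * Real.cos θ⟩ : ℂ) * z).re = 0) :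
    ∃ C : ℝ, 0 ≤ C ∧ Real.cos θ * ‖z + ((C * ρ : ℝ) : ℂ) * ⟨Real.cos θ, e * Real.sin θ⟩‖ ≤
      (z + ((C * ρ : ℝ) : ℂ) * ⟨Real.cos θ, e * Real.sin θ⟩).re := by
  have hc : 0 < Real.cos θ := Real.cos_pos_of_mem_Ioo ⟨by linarith [Real.pi_pos], h1⟩
  have hs : 0 ≤ Real.sin θ := Real.sin_nonneg_of_nonneg_of_le_pi h0 (by linarith [Real.pi_pos])
  have hsc := Real.sin_sq_add_cos_sq θ
  have hee : e ^ 2 = 1 := by rcases he with h | h <;> rw [h] <;> norm_num
  -- coordinates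
  set p := Real.cos θ * z.re + e * Real.sin θ * z.im with hp
  set q := Real.cos θ * z.im - e * Real.sin θ * z.re with hq
  have hzre : z.re = Real.cos θ * p - e * Real.sin θ * q := by
    rw [hp, hq]
    linear_combination (-z.re) * hsc - z.re * Real.sin θ ^ 2 * hee
  have hzim : z.im = Real.cos θ * q + e * Real.sin θ * p := by
    rw [hp, hq]
    linear_combination (-z.im) * hsc - z.im * Real.sin θ ^ 2 * hee
  have hqe : ((⟨Real.sin θ, e * Real.cos θ⟩ : ℂ) * z).re = -(e * q) := by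
    rw [Complex.mul_re, hq]
    simp only
    linear_combination (-Real.sin θ * z.re) * hee
  rw [hqe] at hz
  have hqabs : |q| = -(e * q) := by
    rcases he with h | h
    · rw [h] at hz ⊢
      rw [abs_of_nonpos (by linarith)]; ring
    · rw [h] at hz ⊢
      rw [abs_of_nonneg (by linarith)]; ring
  set C := (|p| + |q| * (Real.cos θ / Real.sin θ)) / ρ with hC
  have hC0 : 0 ≤ C := by positivity
  have hCρ : C * ρ = |p| + |q| * (Real.cos θ / Real.sin θ) := by rw [hC]; field_simp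
  refine ⟨C, hC0, ?_⟩
  set P := p + C * ρ with hP
  have hP0 : |q| * (Real.cos θ / Real.sin θ) ≤ P := by
    rw [hP, hCρ]
    have := neg_abs_le p
    linarith
  have hPnn : 0 ≤ P := le_trans (by positivity) hP0
  have hre : (z + ((C * ρ : ℝ) : ℂ) * ⟨Real.cos θ, e * Real.sin θ⟩).re =
      Real.cos θ * P + Real.sin θ * |q| := by
    rw [Complex.add_re, Complex.re_ofReal_mul, hzre, hP, hqabs]
    ring
  have him : (z + ((C * ρ : ℝ) : ℂ) * ⟨Real.cos θ, e * Real.sin θ⟩).im =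
      Real.cos θ * q + e * Real.sin θ * P := by
    rw [Complex.add_im, Complex.im_ofReal_mul, hzim, hP]
    ring
  have hnsq : ‖z + ((C * ρ : ℝ) : ℂ) * ⟨Real.cos θ, e * Real.sin θ⟩‖ ^ 2 = P ^ 2 + q ^ 2 := by
    rw [← Complex.normSq_eq_norm_sq, Complex.normSq_apply, hre, him, hqabs]
    have h3 : (Real.cos θ * P + Real.sin θ * -(e * q)) * (Real.cos θ * P + Real.sin θ * -(e * q)) +
      (Real.cos θ * q + e * Real.sin θ * P) * (Real.cos θ * q + e * Real.sin θ * P) =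
      (Real.cos θ ^ 2 + e ^ 2 * Real.sin θ ^ 2) * (P ^ 2 + q ^ 2) := by ring
    rw [h3, hee]
    have : Real.cos θ ^ 2 + 1 * Real.sin θ ^ 2 = 1 := by linarith
    rw [this, one_mul]
  have hkey : Real.cos θ ^ 2 * q ^ 2 ≤ 2 * Real.cos θ * Real.sin θ * P * |q| := by
    by_cases hθ : θ = 0
    · have h5 := hz0 hθ
      rw [hqe] at h5
      have h6 : |q| = 0 := by rw [hqabs, h5]
      have h7 : q = 0 := abs_eq_zero.mp h6
      rw [h7]; simp
    · have hsp : 0 < Real.sin θ :=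
        Real.sin_pos_of_pos_of_lt_pi (lt_of_le_of_ne h0 (Ne.symm hθ)) (by linarith [Real.pi_pos])
      have h6 : |q| * Real.cos θ ≤ P * Real.sin θ := by
        have := mul_le_mul_of_nonneg_right hP0 hsp.le
        calc |q| * Real.cos θ = |q| * (Real.cos θ / Real.sin θ) * Real.sin θ := by field_simp
          _ ≤ _ := this
      have h8 : q ^ 2 = |q| ^ 2 := (sq_abs q).symm
      rw [h8]
      have h9 : 0 ≤ Real.cos θ * |q| := by positivity
      nlinarith [mul_le_mul_of_nonneg_left h6 h9]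
  rw [hre]
  have hfin : (Real.cos θ * ‖z + ((C * ρ : ℝ) : ℂ) * ⟨Real.cos θ, e * Real.sin θ⟩‖) ^ 2 ≤
      (Real.cos θ * P + Real.sin θ * |q|) ^ 2 := by
    rw [mul_pow, hnsq]
    have h9 : 0 ≤ Real.sin θ ^ 2 * |q| ^ 2 := by positivity
    nlinarith
  exact (pow_le_pow_iff_left₀ (by positivity) (by positivity) (two_ne_zero)).mp hfin

/-- the claim for case (c): a half-plane condition already bounds `‖M y‖` -/
theorem claim_c [CompleteSpace E] {θ : ℝ} (h0 : 0 ≤ θ) (h1 : θ < Real.pi / 2)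
    (M : E →L[ℂ] E) (ρ e : ℝ) (hρ : 0 < ρ) (he : e = 1 ∨ e = -1) (x₀ : E) (hx₀ : ‖x₀‖ = 1)
    (l : ℂ) (hl : l = -((ρ : ℂ) * ⟨Real.cos θ, e * Real.sin θ⟩)) (hM1 : M x₀ = l • x₀)
    (hM2 : (ContinuousLinearMap.adjoint M) x₀ = conj l • x₀)
    (H : ∀ y : E, Real.cos θ * ‖inner ℂ y (M y)‖ ≤ -(inner ℂ y (M y)).re → ‖M y‖ ≤ ρ * ‖y‖)
    (y : E) (hy : ((⟨Real.sin θ, e * Real.cos θ⟩ : ℂ) * inner ℂ y (M y)).re ≤ 0)
    (hy0 : θ = 0 → ((⟨Real.sin θ, e * Real.cos θ⟩ : ℂ) * inner ℂ y (M y)).re = 0) :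
    ‖M y‖ ≤ ρ * ‖y‖ := by
  have hsc := Real.sin_sq_add_cos_sq θ
  have hee : e ^ 2 = 1 := by rcases he with h | h <;> rw [h] <;> norm_num
  have hln : ‖l‖ = ρ := by
    rw [hl, norm_neg, norm_mul, Complex.norm_real, Real.norm_of_nonneg hρ.le]
    have : ‖(⟨Real.cos θ, e * Real.sin θ⟩ : ℂ)‖ = 1 := by
      have h2 : ‖(⟨Real.cos θ, e * Real.sin θ⟩ : ℂ)‖ ^ 2 = 1 := by
        rw [← Complex.normSq_eq_norm_sq, Complex.normSq_apply]; simp only
        linear_combination hsc + Real.sin θ ^ 2 * hee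
      have h3 := norm_nonneg (⟨Real.cos θ, e * Real.sin θ⟩ : ℂ)
      nlinarith
    rw [this, mul_one]
  set κ : ℂ := ⟨Real.sin θ, e * Real.cos θ⟩ with hκ
  have hκl : (κ * l).re = 0 := by
    rw [hl, hκ]
    simp only [Complex.mul_re, Complex.neg_re, Complex.neg_im, Complex.mul_im, Complex.ofReal_re,
      Complex.ofReal_im]
    linear_combination (ρ * Real.sin θ * Real.cos θ) * hee
  set a := inner ℂ x₀ y with ha
  set y' := y - a • x₀ with hy'
  have hox : inner ℂ x₀ y' = 0 := by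
    rw [hy', inner_sub_right, inner_smul_right, self_inner', hx₀, ← ha]; simp
  have hox' : inner ℂ y' x₀ = 0 := by rw [← inner_conj_symm, hox, map_zero]
  have hoM : inner ℂ x₀ (M y') = 0 := by
    rw [← ContinuousLinearMap.adjoint_inner_left, hM2, inner_smul_left, hox, mul_zero]
  have hdec : y = a • x₀ + y' := by rw [hy']; abel
  have form : ∀ b : ℂ, inner ℂ (b • x₀ + y') (M (b • x₀ + y')) =
      ((‖b‖ ^ 2 : ℝ) : ℂ) * l + inner ℂ y' (M y') := by
    intro b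
    rw [map_add, map_smul, hM1, inner_add_left, inner_add_right, inner_add_right,
      inner_smul_left, inner_smul_left, inner_smul_right, inner_smul_right, inner_smul_right,
      inner_smul_right, hoM, hox', self_inner', hx₀]
    have : conj b * b = ((‖b‖ ^ 2 : ℝ) : ℂ) := by
      rw [mul_comm, Complex.mul_conj, Complex.normSq_eq_norm_sq]
    rw [← this]
    push_cast
    ring
  have nrm : ∀ b : ℂ, ‖b • x₀ + y'‖ ^ 2 = ‖b‖ ^ 2 + ‖y'‖ ^ 2 := by
    intro b
    rw [@norm_add_sq ℂ, inner_smul_left, hox, norm_smul, hx₀]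
    simp
  have nrmM : ∀ b : ℂ, ‖M (b • x₀ + y')‖ ^ 2 = ‖b‖ ^ 2 * ρ ^ 2 + ‖M y'‖ ^ 2 := by
    intro b
    rw [map_add, map_smul, hM1, @norm_add_sq ℂ, inner_smul_left, inner_smul_left, hoM,
      norm_smul, norm_smul, hx₀, hln]
    simp
    ring
  have hy2 : 0 ≤ (κ * -(inner ℂ y' (M y'))).re := by
    have h3 := form a
    rw [← hdec] at h3
    rw [h3, mul_add, Complex.add_re] at hy
    have h4 : (κ * (((‖a‖ ^ 2 : ℝ) : ℂ) * l)).re = 0 := by
      rw [mul_left_comm, Complex.re_ofReal_mul, hκl, mul_zero]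
    rw [h4] at hy
    rw [mul_neg, Complex.neg_re]
    linarith
  have hy3 : θ = 0 → (κ * -(inner ℂ y' (M y'))).re = 0 := by
    intro hθ
    have hy0' := hy0 hθ
    have h3 := form a
    rw [← hdec] at h3
    rw [h3, mul_add, Complex.add_re] at hy0'
    have h4 : (κ * (((‖a‖ ^ 2 : ℝ) : ℂ) * l)).re = 0 := by
      rw [mul_left_comm, Complex.re_ofReal_mul, hκl, mul_zero]
    rw [h4] at hy0'
    rw [mul_neg, Complex.neg_re]
    linarith
  obtain ⟨C, hC0, hC⟩ := exists_shift h0 h1 ρ e hρ he (-(inner ℂ y' (M y'))) hy2 hy3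
  have hsq : ‖((Real.sqrt C : ℝ) : ℂ)‖ ^ 2 = C := by
    rw [Complex.norm_real, Real.norm_eq_abs, sq_abs, Real.sq_sqrt hC0]
  have hH := H (((Real.sqrt C : ℝ) : ℂ) • x₀ + y') (by
    rw [form, hsq]
    have h5 : -(inner ℂ y' (M y')) + ((C * ρ : ℝ) : ℂ) * ⟨Real.cos θ, e * Real.sin θ⟩ =
        -((C : ℂ) * l + inner ℂ y' (M y')) := by
      rw [hl]; push_cast; ring
    rw [h5, norm_neg, Complex.neg_re] at hC
    exact hC)
  have hH2 := pow_le_pow_left₀ (norm_nonneg _) hH 2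
  rw [mul_pow, nrm, nrmM] at hH2
  have h6 : ‖M y‖ ^ 2 ≤ (ρ * ‖y‖) ^ 2 := by
    have h7 := nrm a
    have h8 := nrmM a
    rw [← hdec] at h7 h8
    rw [mul_pow, h7, h8]
    nlinarith
  exact (pow_le_pow_iff_left₀ (norm_nonneg _) (by positivity) (two_ne_zero)).mp h6

/-- a half-plane bound gives feasibility (S-procedure) -/
theorem feas_of_claim [FiniteDimensional ℂ E] {θ : ℝ} (h0 : 0 ≤ θ) (h1 : θ ≤ Real.pi / 2)
    (M : E →L[ℂ] E) (ρ e : ℝ) (hρ : 0 < ρ) (he : e = 1 ∨ e = -1)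
    (claim : ∀ y : E, ((⟨Real.sin θ, e * Real.cos θ⟩ : ℂ) * inner ℂ y (M y)).re ≤ 0 →
      (θ = 0 → ((⟨Real.sin θ, e * Real.cos θ⟩ : ℂ) * inner ℂ y (M y)).re = 0) → ‖M y‖ ≤ ρ * ‖y‖)
    {γ : ℝ} (hγ : ρ < γ) : Feas θ M γ := by
  have : CompleteSpace E := FiniteDimensional.complete ℂ E
  have hc : 0 ≤ Real.cos θ := Real.cos_nonneg_of_mem_Icc ⟨by linarith, h1⟩
  have hs : 0 ≤ Real.sin θ := Real.sin_nonneg_of_nonneg_of_le_pi h0 (by linarith [Real.pi_pos])
  have hsc := Real.sin_sq_add_cos_sq θ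
  have hee : e ^ 2 = 1 := by rcases he with h | h <;> rw [h] <;> norm_num
  set κ : ℂ := ⟨Real.sin θ, e * Real.cos θ⟩ with hκ
  -- the operator for the two forms
  have hγ0 : 0 < γ := lt_trans hρ hγ
  let A : E →L[ℂ] E := (ContinuousLinearMap.adjoint M) ∘L M -
    ((γ ^ 2 : ℝ) : ℂ) • ContinuousLinearMap.id ℂ E +
    (Complex.I / 2) • (κ • M + conj κ • ContinuousLinearMap.adjoint M)
  have hA : ∀ x, inner ℂ x (A x) =
      (⟨‖M x‖ ^ 2 - γ ^ 2 * ‖x‖ ^ 2, (κ * inner ℂ x (M x)).re⟩ : ℂ) := by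
    intro x
    have h2 : inner ℂ x ((ContinuousLinearMap.adjoint M) x) = conj (inner ℂ x (M x)) := by
      rw [ContinuousLinearMap.adjoint_inner_right, inner_conj_symm]
    have h3 : κ * inner ℂ x (M x) + conj κ * conj (inner ℂ x (M x)) =
        ((2 * (κ * inner ℂ x (M x)).re : ℝ) : ℂ) := by
      rw [← map_mul, Complex.add_conj]
    simp only [A, _root_.add_apply, _root_.sub_apply, _root_.smul_apply,
      ContinuousLinearMap.comp_apply, ContinuousLinearMap.id_apply]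
    rw [inner_add_right, inner_sub_right, inner_smul_right, inner_smul_right, inner_add_right,
      inner_smul_right, inner_smul_right, ContinuousLinearMap.adjoint_inner_right, h2, h3,
      self_inner', self_inner']
    apply Complex.ext
    · simp [← Complex.ofReal_pow]
    · simp [← Complex.ofReal_pow]
  set K : Set ℂ := {z : ℂ | 0 ≤ z.re ∧ z.im ≤ 0 ∧ (θ = 0 → z.im = 0)} with hK
  obtain ⟨μ, δ, hδ, hμ1, hμ2⟩ := separation A K
    (by
      intro z hz w hw s t hs' ht' hst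
      simp only [hK, Set.mem_ofPred_eq] at hz hw ⊢
      simp only [Complex.add_re, Complex.real_smul, Complex.re_ofReal_mul, Complex.add_im,
        Complex.im_ofReal_mul]
      refine ⟨?_, ?_, ?_⟩
      · have h3 := mul_nonneg hs' hz.1
        have h4 := mul_nonneg ht' hw.1
        linarith
      · have h3 := mul_nonneg hs' (neg_nonneg.mpr hz.2.1)
        have h4 := mul_nonneg ht' (neg_nonneg.mpr hw.2.1)
        linarith
      · intro h; rw [hz.2.2 h, hw.2.2 h]; simp)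
    (by
      have e1 : K = {z : ℂ | 0 ≤ z.re} ∩ ({z : ℂ | z.im ≤ 0} ∩ {z : ℂ | θ = 0 → z.im = 0}) := by
        ext z; simp [hK]
      rw [e1]
      refine (isClosed_le (by fun_prop) (by fun_prop)).inter
        ((isClosed_le (by fun_prop) (by fun_prop)).inter ?_)
      by_cases hθ : θ = 0
      · simp only [hθ, forall_const]
        exact isClosed_eq (by fun_prop) (by fun_prop)
      · simp only [hθ, false_imp_iff]
        simp)
    (by simp [hK])
    (by
      intro c hc' z hz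
      simp only [hK, Set.mem_ofPred_eq] at hz ⊢
      simp only [Complex.re_ofReal_mul, Complex.im_ofReal_mul]
      refine ⟨mul_nonneg hc' hz.1, ?_, ?_⟩
      · have h3 := mul_nonneg hc' (neg_nonneg.mpr hz.2.1)
        linarith
      · intro h; rw [hz.2.2 h]; simp)
    (by
      intro x hx hmem
      rw [hA] at hmem
      simp only [hK, Set.mem_ofPred_eq] at hmem
      have h3 := claim x hmem.2.1 hmem.2.2
      rw [hx, mul_one] at h3
      have h4 := hmem.1
      rw [hx] at h4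
      have h5 := pow_le_pow_left₀ (norm_nonneg _) h3 2
      nlinarith)
  -- multipliers
  have hμre : 0 ≤ μ.re := by
    have := hμ1 1 (by simp [hK])
    simpa using this
  have hμim : θ ≠ 0 → 0 ≤ μ.im := by
    intro hθ
    have := hμ1 (-Complex.I) (by simp [hK, hθ])
    simpa using this
  have hmain : ∀ x : E, μ.re * (‖M x‖ ^ 2 - γ ^ 2 * ‖x‖ ^ 2) - μ.im * (κ * inner ℂ x (M x)).re ≤
      -δ * ‖x‖ ^ 2 := by
    intro x
    have := hμ2 x
    rw [hA, Complex.mul_re] at this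
    exact this
  set m := ‖M‖ with hm
  have hm0 : 0 ≤ m := norm_nonneg _
  set ζ := δ / (4 * (m ^ 2 + 1)) with hζ
  set η := δ / (4 * (m + 1)) with hη
  have hζpos : 0 < ζ := by positivity
  have hηpos : 0 < η := by positivity
  have hζm : ζ * m ^ 2 ≤ δ / 4 := by
    have : ζ * (4 * (m ^ 2 + 1)) = δ := by rw [hζ]; field_simp
    nlinarith
  have hηm : η * m ≤ δ / 4 := by
    have : η * (4 * (m + 1)) = δ := by rw [hη]; field_simp
    nlinarith
  have hsμ : 0 ≤ μ.im * Real.sin θ := by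
    by_cases hθ : θ = 0
    · rw [hθ]; simp
    · exact mul_nonneg (hμim hθ) hs
  refine feas_of_mult M γ (2 * (μ.re + ζ)) (μ.im * Real.sin θ + 2 * η) (μ.im * (e * Real.cos θ))
    (by positivity) (by positivity) ?_ ?_
  · intro hθ
    have hsp : 0 < Real.sin θ :=
      Real.sin_pos_of_pos_of_lt_pi (lt_of_le_of_ne h0 (Ne.symm hθ)) (by linarith [Real.pi_pos])
    have he1 : |e| = 1 := by rcases he with h | h <;> rw [h] <;> simp
    rw [Real.cot_eq_cos_div_sin, div_mul_eq_mul_div, le_div_iff₀ hsp, abs_mul, abs_mul, he1,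
      abs_of_nonneg (hμim hθ), abs_of_nonneg hc]
    have : 0 ≤ Real.cos θ * η := by positivity
    nlinarith
  · intro x hx
    have hxn : 0 < ‖x‖ := norm_pos_iff.mpr hx
    have h2 := hmain x
    have h3 : ‖M x‖ ≤ m * ‖x‖ := M.le_opNorm x
    have h4 : |(inner ℂ x (M x)).re| ≤ m * ‖x‖ ^ 2 := by
      calc _ ≤ ‖inner ℂ x (M x)‖ := Complex.abs_re_le_norm _
        _ ≤ ‖x‖ * ‖M x‖ := norm_inner_le_norm _ _
        _ ≤ ‖x‖ * (m * ‖x‖) := by gcongr
        _ = _ := by ring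
    have h5 := (abs_le.mp h4).1
    have h6 : ‖M x‖ ^ 2 ≤ m ^ 2 * ‖x‖ ^ 2 := by
      have := pow_le_pow_left₀ (norm_nonneg _) h3 2
      rwa [mul_pow] at this
    have h7 : (κ * inner ℂ x (M x)).re = Real.sin θ * (inner ℂ x (M x)).re -
        e * Real.cos θ * (inner ℂ x (M x)).im := by
      rw [hκ, Complex.mul_re]
    rw [h7] at h2
    have h8 : ζ * ‖M x‖ ^ 2 ≤ δ / 4 * ‖x‖ ^ 2 := by
      calc _ ≤ ζ * (m ^ 2 * ‖x‖ ^ 2) := by gcongr
        _ = ζ * m ^ 2 * ‖x‖ ^ 2 := by ring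
        _ ≤ _ := by gcongr
    have h9 : -(η * m * ‖x‖ ^ 2) ≤ η * (inner ℂ x (M x)).re := by nlinarith
    have h10 : η * m * ‖x‖ ^ 2 ≤ δ / 4 * ‖x‖ ^ 2 :=
      mul_le_mul_of_nonneg_right hηm (by positivity)
    have h11 : 0 < δ * ‖x‖ ^ 2 := by positivity
    have h12 : 0 < ζ * (γ ^ 2 * ‖x‖ ^ 2) := by positivity
    nlinarith

/-- case (c) -/
theorem feas_of_reducing [FiniteDimensional ℂ E] {θ : ℝ} (h0 : 0 ≤ θ) (h1 : θ < Real.pi / 2)
    (M : E →L[ℂ] E) (ρ e : ℝ) (hρ : 0 < ρ) (he : e = 1 ∨ e = -1) (x₀ : E) (hx₀ : ‖x₀‖ = 1)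
    (l : ℂ) (hl : l = -((ρ : ℂ) * ⟨Real.cos θ, e * Real.sin θ⟩)) (hM1 : M x₀ = l • x₀)
    (hM2 : haveI : CompleteSpace E := FiniteDimensional.complete ℂ E
      (ContinuousLinearMap.adjoint M) x₀ = conj l • x₀)
    (H : ∀ y : E, Real.cos θ * ‖inner ℂ y (M y)‖ ≤ -(inner ℂ y (M y)).re → ‖M y‖ ≤ ρ * ‖y‖)
    {γ : ℝ} (hγ : ρ < γ) : Feas θ M γ := by
  have : CompleteSpace E := FiniteDimensional.complete ℂ E
  exact feas_of_claim h0 h1.le M ρ e hρ he
    (fun y hy hy0 => claim_c h0 h1 M ρ e hρ he x₀ hx₀ l hl hM1 hM2 H y hy hy0) hγ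

end H640R2.PhaseMu
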