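import Mathlib
import Pool.Agent.H640R2.PhaseMuDefs
import Pool.Agent.H640R2.PhaseMuB
import Pool.Agent.H640R2.PhaseMuG

open Complex ComplexConjugate Matrix
open scoped ComplexOrder

namespace H640R2.PhaseMu

variable {n : ℕ}

theorem op_star (A : Matrix (Fin n) (Fin n) ℂ) : op Aᴴ = ContinuousLinearMap.adjoint (op A) := by
  have : op (star A) = star (op A) := map_star (Matrix.toEuclideanCLM (n := Fin n) (𝕜 := ℂ)) A
  rw [← ContinuousLinearMap.star_eq_adjoint, ← this]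
  rfl

theorem inner_op (A : Matrix (Fin n) (Fin n) ℂ) (x : EuclideanSpace ℂ (Fin n)) :
    inner ℂ x (op A x) = star (WithLp.ofLp x) ⬝ᵥ (A *ᵥ WithLp.ofLp x) := by
  rw [EuclideanSpace.inner_eq_star_dotProduct, dotProduct_comm]
  rfl

theorem form_lmi (M : Matrix (Fin n) (Fin n) ℂ) (r β γ : ℝ) (x : EuclideanSpace ℂ (Fin n)) :
    inner ℂ x (op (-((r : ℂ) • (Mᴴ * M - ((γ : ℂ) ^ 2) • (1 : Matrix (Fin n) (Fin n) ℂ)) -
      ((1 + Complex.I * (β : ℂ)) • M + ((1 + Complex.I * (β : ℂ)) • M)ᴴ))) x) =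
    ((-(r * (‖op M x‖ ^ 2 - γ ^ 2 * ‖x‖ ^ 2) -
      2 * ((1 + Complex.I * (β : ℂ)) * inner ℂ x (op M x)).re) : ℝ) : ℂ) := by
  have hop : op (-((r : ℂ) • (Mᴴ * M - ((γ : ℂ) ^ 2) • (1 : Matrix (Fin n) (Fin n) ℂ)) -
      ((1 + Complex.I * (β : ℂ)) • M + ((1 + Complex.I * (β : ℂ)) • M)ᴴ))) =
      -((r : ℂ) • (ContinuousLinearMap.adjoint (op M) ∘L op M - ((γ : ℂ) ^ 2) •
        ContinuousLinearMap.id ℂ _) -
      ((1 + Complex.I * (β : ℂ)) • op M + (conj (1 + Complex.I * (β : ℂ))) •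
        ContinuousLinearMap.adjoint (op M))) := by
    rw [← op_star]
    have h1 : ((1 + Complex.I * (β : ℂ)) • M)ᴴ = (conj (1 + Complex.I * (β : ℂ))) • Mᴴ := by
      rw [Matrix.conjTranspose_smul]; rfl
    rw [h1]
    simp only [op, map_neg, map_sub, map_add, map_smul, map_mul, map_one]
    rfl
  rw [hop]
  have h2 : inner ℂ x ((ContinuousLinearMap.adjoint (op M)) x) = conj (inner ℂ x (op M x)) := by
    rw [ContinuousLinearMap.adjoint_inner_right, inner_conj_symm]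
  have h3 : (1 + Complex.I * (β : ℂ)) * inner ℂ x (op M x) +
      conj (1 + Complex.I * (β : ℂ)) * conj (inner ℂ x (op M x)) =
      ((2 * ((1 + Complex.I * (β : ℂ)) * inner ℂ x (op M x)).re : ℝ) : ℂ) := by
    rw [← map_mul, Complex.add_conj]
  simp only [_root_.neg_apply, _root_.add_apply, _root_.sub_apply, _root_.smul_apply,
    ContinuousLinearMap.comp_apply, ContinuousLinearMap.id_apply]
  rw [inner_neg_right, inner_sub_right, inner_smul_right, inner_sub_right, inner_smul_right,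
    inner_add_right, inner_smul_right, inner_smul_right,
    ContinuousLinearMap.adjoint_inner_right, h2, h3, self_inner', self_inner']
  push_cast
  ring

theorem herm_lmi (M : Matrix (Fin n) (Fin n) ℂ) (r β γ : ℝ) :
    (-((r : ℂ) • (Mᴴ * M - ((γ : ℂ) ^ 2) • (1 : Matrix (Fin n) (Fin n) ℂ)) -
      ((1 + Complex.I * (β : ℂ)) • M + ((1 + Complex.I * (β : ℂ)) • M)ᴴ))).IsHermitian := by
  have h1 : ((γ : ℂ) ^ 2) = ((γ ^ 2 : ℝ) : ℂ) := by push_cast; ring
  unfold Matrix.IsHermitian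
  rw [h1]
  simp only [Matrix.conjTranspose_neg, Matrix.conjTranspose_sub, Matrix.conjTranspose_smul,
    Matrix.conjTranspose_add, Matrix.conjTranspose_mul, Matrix.conjTranspose_conjTranspose,
    Matrix.conjTranspose_one, Complex.star_def, Complex.conj_ofReal,
    Complex.conj_conj]
  rw [add_comm ((starRingEnd ℂ) (1 + Complex.I * (β : ℂ)) • Mᴴ)]

theorem lmi_iff_feas (θ : ℝ) (M : Matrix (Fin n) (Fin n) ℂ) (γ : ℝ) :
    LMI θ M γ ↔ Feas θ (op M) γ := by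
  unfold LMI Feas
  constructor
  · rintro ⟨r, hr, β, hβ, hpd⟩
    refine ⟨r, hr, β, fun h => abs_le.mpr (hβ h), ?_⟩
    intro x hx
    have h1 := (posDef_iff_dotProduct_mulVec.mp hpd).2 (x := WithLp.ofLp x) (by
      intro h; apply hx; exact (WithLp.ofLp_eq_zero 2).mp h)
    rw [← inner_op, form_lmi] at h1
    have h2 := Complex.zero_lt_real.mp h1
    linarith
  · rintro ⟨r, hr, β, hβ, hf⟩
    refine ⟨r, hr, β, fun h => abs_le.mp (hβ h), ?_⟩
    rw [posDef_iff_dotProduct_mulVec]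
    refine ⟨herm_lmi M r β γ, ?_⟩
    intro x hx
    have h1 := hf (WithLp.toLp 2 x) (by intro h; apply hx; exact (WithLp.toLp_eq_zero 2).mp h)
    have h2 := form_lmi M r β γ (WithLp.toLp 2 x)
    rw [inner_op] at h2
    change 0 < star (WithLp.ofLp (WithLp.toLp 2 x)) ⬝ᵥ (_ *ᵥ WithLp.ofLp (WithLp.toLp 2 x))
    rw [h2]
    exact Complex.zero_lt_real.mpr (by linarith)

/-! ### basic facts on `muHat` -/

theorem feas_mono {θ : ℝ} {M : Matrix (Fin n) (Fin n) ℂ} {γ γ' : ℝ} (h0 : 0 < γ) (h : γ ≤ γ')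
    (hF : LMI θ M γ) : LMI θ M γ' := by
  rw [lmi_iff_feas] at hF ⊢
  obtain ⟨r, hr, β, hβ, hf⟩ := hF
  refine ⟨r, hr, β, hβ, fun x hx => ?_⟩
  have h1 := hf x hx
  have h2 : r * (‖op M x‖ ^ 2 - γ' ^ 2 * ‖x‖ ^ 2) ≤ r * (‖op M x‖ ^ 2 - γ ^ 2 * ‖x‖ ^ 2) := by
    gcongr
  linarith

theorem bddBelow_lmi (θ : ℝ) (M : Matrix (Fin n) (Fin n) ℂ) :
    BddBelow {γ : ℝ | 0 < γ ∧ LMI θ M γ} := ⟨0, fun _ h => h.1.le⟩

theorem muHat_nonneg (θ : ℝ) (M : Matrix (Fin n) (Fin n) ℂ) : 0 ≤ muHat θ M :=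
  Real.sInf_nonneg fun _ h => h.1.le

theorem muHat_le {θ : ℝ} {M : Matrix (Fin n) (Fin n) ℂ} {ρ : ℝ} (hρ : 0 ≤ ρ)
    (h : ∀ γ, ρ < γ → LMI θ M γ) : muHat θ M ≤ ρ := by
  refine le_of_forall_pos_le_add fun ε hε => ?_
  exact csInf_le (bddBelow_lmi θ M) ⟨by linarith, h _ (by linarith)⟩

theorem lmi_of_gt {θ : ℝ} (h0 : 0 ≤ θ) (h1 : θ ≤ Real.pi / 2) {M : Matrix (Fin n) (Fin n) ℂ}
    {γ : ℝ} (h : muHat θ M < γ) : LMI θ M γ := by
  have hne : {γ : ℝ | 0 < γ ∧ LMI θ M γ}.Nonempty := by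
    refine ⟨‖op M‖ + 1, by positivity, ?_⟩
    rw [lmi_iff_feas]
    exact feas_of_norm h0 h1 (op M) (norm_nonneg _) (op M).le_opNorm (by linarith)
  obtain ⟨γ', ⟨hγ0, hγ'⟩, hlt⟩ := exists_lt_of_csInf_lt hne h
  exact feas_mono hγ0 hlt.le hγ'

/-- vectors over minus the sector are not expanded by more than `muHat` -/
theorem norm_le_muHat {θ : ℝ} (h0 : 0 ≤ θ) (h1 : θ ≤ Real.pi / 2) (M : Matrix (Fin n) (Fin n) ℂ)
    (x : EuclideanSpace ℂ (Fin n))
    (hw : Real.cos θ * ‖inner ℂ x (op M x)‖ ≤ -(inner ℂ x (op M x)).re) :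
    ‖op M x‖ ≤ muHat θ M * ‖x‖ := by
  by_cases hx : x = 0
  · simp [hx]
  have hxn : 0 < ‖x‖ := norm_pos_iff.mpr hx
  rw [← div_le_iff₀ hxn]
  refine le_of_forall_pos_le_add fun ε hε => ?_
  have hm := muHat_nonneg θ M
  have h2 := feas_bound h0 h1 (by linarith : 0 < muHat θ M + ε)
    ((lmi_iff_feas _ _ _).mp (lmi_of_gt h0 h1 (by linarith))) x hx hw
  rw [div_le_iff₀ hxn]
  exact h2.le

theorem muHat_le_norm {θ : ℝ} (h0 : 0 ≤ θ) (h1 : θ ≤ Real.pi / 2) (M : Matrix (Fin n) (Fin n) ℂ) :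
    muHat θ M ≤ ‖op M‖ := by
  refine muHat_le (norm_nonneg _) fun γ hγ => ?_
  rw [lmi_iff_feas]
  exact feas_of_norm h0 h1 (op M) (norm_nonneg _) (op M).le_opNorm hγ

/-! ### the class of multipliers -/

theorem gamma_iff {θ : ℝ} (h0 : 0 ≤ θ) (h1 : θ ≤ Real.pi / 2) (Γ : Matrix (Fin n) (Fin n) ℂ) :
    Γ ∈ GammaClass θ ↔ ∀ x : EuclideanSpace ℂ (Fin n),
      Real.cos θ * ‖inner ℂ x (op Γ x)‖ ≤ (inner ℂ x (op Γ x)).re := by
  constructor
  · intro h x
    by_cases hx : x = 0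
    · simp [hx]
    have hxn : 0 < ‖x‖ := norm_pos_iff.mpr hx
    have h2 := (mem_sector h0 h1 _).mp (h (((‖x‖⁻¹ : ℝ) : ℂ) • x)
      (by rw [norm_smul, Complex.norm_real, Real.norm_of_nonneg (by positivity)]; field_simp))
    have h3 : inner ℂ (((‖x‖⁻¹ : ℝ) : ℂ) • x) (op Γ (((‖x‖⁻¹ : ℝ) : ℂ) • x)) =
        ((‖x‖⁻¹ ^ 2 : ℝ) : ℂ) * inner ℂ x (op Γ x) := by
      rw [map_smul, inner_smul_left, inner_smul_right, Complex.conj_ofReal]
      push_cast; ring
    rw [h3, norm_mul, Complex.norm_real, Real.norm_of_nonneg (by positivity),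
      Complex.re_ofReal_mul] at h2
    have h4 : 0 < ‖x‖⁻¹ ^ 2 := by positivity
    have h5 : ‖x‖⁻¹ ^ 2 * (Real.cos θ * ‖inner ℂ x (op Γ x)‖) ≤
        ‖x‖⁻¹ ^ 2 * (inner ℂ x (op Γ x)).re := by linarith
    exact le_of_mul_le_mul_left h5 h4
  · intro h x _
    exact (mem_sector h0 h1 _).mpr (h x)

theorem sing_iff (Γ M : Matrix (Fin n) (Fin n) ℂ) :
    (1 + Γ * M).det = 0 ↔ ∃ x : EuclideanSpace ℂ (Fin n), x ≠ 0 ∧ op Γ (op M x) = -x := by
  rw [← Matrix.exists_mulVec_eq_zero_iff]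
  constructor
  · rintro ⟨v, hv, h⟩
    refine ⟨WithLp.toLp 2 v, fun h' => hv ((WithLp.toLp_eq_zero 2).mp h'), ?_⟩
    rw [Matrix.add_mulVec, Matrix.one_mulVec, ← Matrix.mulVec_mulVec] at h
    have h2 : Γ *ᵥ (M *ᵥ v) = -v := eq_neg_of_add_eq_zero_right h
    change WithLp.toLp 2 (Γ *ᵥ (M *ᵥ v)) = _
    rw [h2]; rfl
  · rintro ⟨x, hx, h⟩
    refine ⟨WithLp.ofLp x, fun h' => hx ((WithLp.ofLp_eq_zero 2).mp h'), ?_⟩
    rw [Matrix.add_mulVec, Matrix.one_mulVec, ← Matrix.mulVec_mulVec]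
    have h2 : Γ *ᵥ (M *ᵥ WithLp.ofLp x) = WithLp.ofLp (op Γ (op M x)) := rfl
    rw [h2, h]
    simp

theorem sing_bound {θ : ℝ} (h0 : 0 ≤ θ) (h1 : θ ≤ Real.pi / 2) {M Γ : Matrix (Fin n) (Fin n) ℂ}
    (hΓ : Γ ∈ GammaClass θ) {x : EuclideanSpace ℂ (Fin n)}
    (h : op Γ (op M x) = -x) : ‖op M x‖ ≤ muHat θ M * ‖x‖ := by
  apply norm_le_muHat h0 h1
  have h2 := (gamma_iff h0 h1 Γ).mp hΓ (op M x)
  rw [h, inner_neg_right, norm_neg, Complex.neg_re, ← inner_conj_symm, RCLike.norm_conj,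
    Complex.conj_re] at h2
  exact h2

theorem one_le_of_sing {θ : ℝ} (h0 : 0 ≤ θ) (h1 : θ ≤ Real.pi / 2)
    {M Γ : Matrix (Fin n) (Fin n) ℂ} (hΓ : Γ ∈ SingSet θ M) :
    0 < muHat θ M ∧ 1 / muHat θ M ≤ ‖op Γ‖ := by
  obtain ⟨x, hx, h⟩ := (sing_iff Γ M).mp hΓ.2
  have hxn : 0 < ‖x‖ := norm_pos_iff.mpr hx
  have h2 := sing_bound h0 h1 hΓ.1 h
  have h3 : ‖x‖ ≤ ‖op Γ‖ * ‖op M x‖ := by
    have := (op Γ).le_opNorm (op M x)
    rw [h, norm_neg] at this
    exact this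
  have hm := muHat_nonneg θ M
  have h4 : ‖x‖ ≤ ‖op Γ‖ * muHat θ M * ‖x‖ := by
    calc ‖x‖ ≤ ‖op Γ‖ * ‖op M x‖ := h3
      _ ≤ ‖op Γ‖ * (muHat θ M * ‖x‖) := by gcongr
      _ = _ := by ring
  have h5 : 1 ≤ ‖op Γ‖ * muHat θ M := by
    have : 1 * ‖x‖ ≤ ‖op Γ‖ * muHat θ M * ‖x‖ := by linarith
    exact le_of_mul_le_mul_right this hxn
  have h6 : 0 < muHat θ M := by
    rcases hm.eq_or_lt with h | h
    · rw [← h] at h5; linarith
    · exact h
  refine ⟨h6, ?_⟩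
  rw [div_le_iff₀ h6]
  exact h5

theorem mu_nonneg (θ : ℝ) (M : Matrix (Fin n) (Fin n) ℂ) : 0 ≤ mu θ M := by
  unfold mu
  split_ifs
  · apply div_nonneg zero_le_one
    apply Real.sInf_nonneg
    rintro _ ⟨Γ, _, rfl⟩
    exact norm_nonneg _
  · exact le_rfl

theorem inv_le_sInf {θ : ℝ} (h0 : 0 ≤ θ) (h1 : θ ≤ Real.pi / 2) {M : Matrix (Fin n) (Fin n) ℂ}
    (hne : (SingSet θ M).Nonempty) :
    0 < muHat θ M ∧ 1 / muHat θ M ≤ sInf ((fun Γ => ‖op Γ‖) '' SingSet θ M) := by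
  obtain ⟨Γ, hΓ⟩ := hne
  refine ⟨(one_le_of_sing h0 h1 hΓ).1, ?_⟩
  refine le_csInf (Set.Nonempty.image (fun Γ => ‖op Γ‖) ⟨Γ, hΓ⟩) ?_
  rintro _ ⟨Γ', hΓ', rfl⟩
  exact (one_le_of_sing h0 h1 hΓ').2

theorem mu_le_muHat {θ : ℝ} (h0 : 0 ≤ θ) (h1 : θ ≤ Real.pi / 2) (M : Matrix (Fin n) (Fin n) ℂ) :
    mu θ M ≤ muHat θ M := by
  unfold mu
  split_ifs with hne
  · obtain ⟨h2, h3⟩ := inv_le_sInf h0 h1 hne
    have h4 : 0 < 1 / muHat θ M := by positivity
    calc 1 / sInf ((fun Γ => ‖op Γ‖) '' SingSet θ M) ≤ 1 / (1 / muHat θ M) :=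
          one_div_le_one_div_of_le h4 h3
      _ = muHat θ M := by simp
  · exact muHat_nonneg θ M

/-- a strong vector gives a lower bound for `mu` -/
theorem le_mu {θ : ℝ} (h0 : 0 ≤ θ) (h1 : θ ≤ Real.pi / 2) (M : Matrix (Fin n) (Fin n) ℂ)
    (x : EuclideanSpace ℂ (Fin n)) (hx : ‖x‖ = 1) (hMx : op M x ≠ 0)
    (hst : Real.cos θ * ‖op M x‖ ≤ -(inner ℂ x (op M x)).re) : ‖op M x‖ ≤ mu θ M := by
  obtain ⟨G, hG1, hG2, hG3⟩ := key_sufficiency h0 h1 (op M x) (-x) hMx (by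
    rw [norm_neg, hx, mul_one, inner_neg_right, Complex.neg_re, ← inner_conj_symm, Complex.conj_re]
    exact hst)
  have hMn : 0 < ‖op M x‖ := norm_pos_iff.mpr hMx
  set Γ : Matrix (Fin n) (Fin n) ℂ := (Matrix.toEuclideanCLM (n := Fin n) (𝕜 := ℂ)).symm G with hΓ
  have hop : op Γ = G := by
    unfold op
    rw [hΓ]
    exact (Matrix.toEuclideanCLM (n := Fin n) (𝕜 := ℂ)).apply_symm_apply G
  have hmem : Γ ∈ SingSet θ M := by
    refine ⟨(gamma_iff h0 h1 Γ).mpr (by rw [hop]; exact hG3), (sing_iff Γ M).mpr ⟨x, ?_, ?_⟩⟩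
    · intro h; rw [h] at hx; simp at hx
    · rw [hop]; exact hG1
  have hne : (SingSet θ M).Nonempty := ⟨Γ, hmem⟩
  have hΓn : ‖op Γ‖ ≤ 1 / ‖op M x‖ := by
    rw [hop]
    refine G.opNorm_le_bound (by positivity) fun y => ?_
    have := hG2 y
    rw [norm_neg, hx] at this
    exact this
  have hbdd : BddBelow ((fun Γ => ‖op Γ‖) '' SingSet θ M) := by
    refine ⟨0, ?_⟩
    rintro _ ⟨Γ', _, rfl⟩
    exact norm_nonneg _
  have h2 : sInf ((fun Γ => ‖op Γ‖) '' SingSet θ M) ≤ 1 / ‖op M x‖ :=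
    (csInf_le hbdd (Set.mem_image_of_mem (fun Γ => ‖op Γ‖) hmem)).trans hΓn
  obtain ⟨h3, h4⟩ := inv_le_sInf h0 h1 hne
  have h5 : 0 < 1 / muHat θ M := by positivity
  unfold mu
  rw [if_pos hne]
  calc ‖op M x‖ = 1 / (1 / ‖op M x‖) := by simp
    _ ≤ _ := one_div_le_one_div_of_le (by linarith) h2

theorem isCompact_pairs (θ : ℝ) (M : Matrix (Fin n) (Fin n) ℂ) (R : ℝ) :
    IsCompact {p : (EuclideanSpace ℂ (Fin n) →L[ℂ] EuclideanSpace ℂ (Fin n)) ×
      EuclideanSpace ℂ (Fin n) | (‖p.1‖ ≤ R ∧ ‖p.2‖ = 1) ∧ p.1 (op M p.2) = -p.2 ∧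
        ∀ y, Real.cos θ * ‖inner ℂ y (p.1 y)‖ ≤ (inner ℂ y (p.1 y)).re} := by
  have hproper : ProperSpace (EuclideanSpace ℂ (Fin n) →L[ℂ] EuclideanSpace ℂ (Fin n)) :=
    FiniteDimensional.proper ℂ _
  have h1 : IsCompact ((Metric.closedBall (0 : EuclideanSpace ℂ (Fin n) →L[ℂ]
      EuclideanSpace ℂ (Fin n)) R) ×ˢ (Metric.sphere (0 : EuclideanSpace ℂ (Fin n)) 1)) :=
    (isCompact_closedBall _ _).prod (isCompact_sphere _ _)
  have h2 : IsClosed {p : (EuclideanSpace ℂ (Fin n) →L[ℂ] EuclideanSpace ℂ (Fin n)) ×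
      EuclideanSpace ℂ (Fin n) | p.1 (op M p.2) = -p.2 ∧
        ∀ y, Real.cos θ * ‖inner ℂ y (p.1 y)‖ ≤ (inner ℂ y (p.1 y)).re} := by
    have e : {p : (EuclideanSpace ℂ (Fin n) →L[ℂ] EuclideanSpace ℂ (Fin n)) ×
      EuclideanSpace ℂ (Fin n) | p.1 (op M p.2) = -p.2 ∧
        ∀ y, Real.cos θ * ‖inner ℂ y (p.1 y)‖ ≤ (inner ℂ y (p.1 y)).re} =
        {p | p.1 (op M p.2) = -p.2} ∩
        ⋂ y, {p | Real.cos θ * ‖inner ℂ y (p.1 y)‖ ≤ (inner ℂ y (p.1 y)).re} := by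
      ext p; simp
    rw [e]
    refine IsClosed.inter ?_ (isClosed_iInter fun y => ?_)
    · exact isClosed_eq (by fun_prop) (by fun_prop)
    · exact isClosed_le (by fun_prop) (by fun_prop)
  have h3 := h1.inter_right h2
  convert h3 using 1
  ext p
  simp [Set.mem_prod]

/-- if the bound is exact and positive, a strong vector exists at level `muHat` -/
theorem exists_strong {θ : ℝ} (h0 : 0 ≤ θ) (h1 : θ ≤ Real.pi / 2) (M : Matrix (Fin n) (Fin n) ℂ)
    (heq : mu θ M = muHat θ M) (hpos : 0 < muHat θ M) :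
    ∃ x : EuclideanSpace ℂ (Fin n), ‖x‖ = 1 ∧ ‖op M x‖ = muHat θ M ∧
      Real.cos θ * ‖op M x‖ ≤ -(inner ℂ x (op M x)).re := by
  set m := muHat θ M with hm
  have hne : (SingSet θ M).Nonempty := by
    by_contra hcon
    unfold mu at heq
    rw [if_neg hcon] at heq
    linarith
  have hsinf : sInf ((fun Γ => ‖op Γ‖) '' SingSet θ M) = 1 / m := by
    unfold mu at heq
    rw [if_pos hne] at heq
    rw [← heq]; simp
  obtain ⟨Γ₀, hΓ₀⟩ := hne
  have hmem : ∀ Γ ∈ SingSet θ M, ∃ x : EuclideanSpace ℂ (Fin n), ‖x‖ = 1 ∧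
      op Γ (op M x) = -x := by
    intro Γ hΓ
    obtain ⟨x, hx, h⟩ := (sing_iff Γ M).mp hΓ.2
    have hxn : 0 < ‖x‖ := norm_pos_iff.mpr hx
    refine ⟨((‖x‖⁻¹ : ℝ) : ℂ) • x, ?_, ?_⟩
    · rw [norm_smul, Complex.norm_real, Real.norm_of_nonneg (by positivity)]; field_simp
    · rw [map_smul, map_smul, h, smul_neg]
  set K := {p : (EuclideanSpace ℂ (Fin n) →L[ℂ] EuclideanSpace ℂ (Fin n)) ×
      EuclideanSpace ℂ (Fin n) | (‖p.1‖ ≤ ‖op Γ₀‖ ∧ ‖p.2‖ = 1) ∧ p.1 (op M p.2) = -p.2 ∧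
        ∀ y, Real.cos θ * ‖inner ℂ y (p.1 y)‖ ≤ (inner ℂ y (p.1 y)).re} with hK
  have hKc : IsCompact K := isCompact_pairs θ M _
  have hKne : K.Nonempty := by
    obtain ⟨x, hx1, hx2⟩ := hmem Γ₀ hΓ₀
    exact ⟨(op Γ₀, x), ⟨le_rfl, hx1⟩, hx2, (gamma_iff h0 h1 Γ₀).mp hΓ₀.1⟩
  obtain ⟨⟨G, x⟩, hGK, hmin⟩ := hKc.exists_isMinOn hKne
    (f := fun p => ‖p.1‖) (by fun_prop)
  obtain ⟨⟨hG1, hx1⟩, hG2, hG3⟩ := hGK
  simp only at hG1 hx1 hG2 hG3
  have hmin' : ∀ p ∈ K, ‖G‖ ≤ ‖p.1‖ := fun p hp => isMinOn_iff.mp hmin p hp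
  have hGle : ‖G‖ ≤ 1 / m := by
    rw [← hsinf]
    refine le_csInf (Set.Nonempty.image (fun Γ => ‖op Γ‖) ⟨Γ₀, hΓ₀⟩) ?_
    rintro _ ⟨Γ, hΓ, rfl⟩
    by_cases hle : ‖op Γ‖ ≤ ‖op Γ₀‖
    · obtain ⟨y, hy1, hy2⟩ := hmem Γ hΓ
      have hmemK : (op Γ, y) ∈ K := ⟨⟨hle, hy1⟩, hy2, (gamma_iff h0 h1 Γ).mp hΓ.1⟩
      have h6 : ‖G‖ ≤ ‖op Γ‖ := hmin' (op Γ, y) hmemK
      exact h6
    · push Not at hle
      exact hG1.trans hle.le
  -- norm of M x
  have hMx1 : ‖op M x‖ ≤ m := by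
    have h2 : Real.cos θ * ‖inner ℂ x (op M x)‖ ≤ -(inner ℂ x (op M x)).re := by
      have h3 := hG3 (op M x)
      rw [hG2, inner_neg_right, norm_neg, Complex.neg_re, ← inner_conj_symm, RCLike.norm_conj,
        Complex.conj_re] at h3
      exact h3
    have := norm_le_muHat h0 h1 M x h2
    rwa [hx1, mul_one] at this
  have hMx2 : m ≤ ‖op M x‖ := by
    have h2 := G.le_opNorm (op M x)
    rw [hG2, norm_neg, hx1] at h2
    have h3 : 1 ≤ 1 / m * ‖op M x‖ := h2.trans (by gcongr)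
    rw [one_div_mul_eq_div, le_div_iff₀ hpos, one_mul] at h3
    exact h3
  have hMx : ‖op M x‖ = m := le_antisymm hMx1 hMx2
  refine ⟨x, hx1, hMx, ?_⟩
  -- apply the key lemma to m • G
  have hcG : ∀ y, ‖((m : ℂ) • G) y‖ ≤ ‖y‖ := by
    intro y
    rw [_root_.smul_apply, norm_smul, Complex.norm_real, Real.norm_of_nonneg hpos.le]
    calc m * ‖G y‖ ≤ m * (‖G‖ * ‖y‖) := by gcongr; exact G.le_opNorm y
      _ ≤ m * (1 / m * ‖y‖) := by gcongr
      _ = ‖y‖ := by field_simp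
  have hin : ∀ y, inner ℂ y (((m : ℂ) • G) y) = (m : ℂ) * inner ℂ y (G y) := by
    intro y; rw [_root_.smul_apply, inner_smul_right]
  have key := key_necessity h0 h1 ((m : ℂ) • G) (by
    intro y
    rw [hin, norm_mul, Complex.norm_real, Real.norm_of_nonneg hpos.le, Complex.re_ofReal_mul]
    have := hG3 y
    calc Real.cos θ * (m * ‖inner ℂ y (G y)‖) = m * (Real.cos θ * ‖inner ℂ y (G y)‖) := by ring
      _ ≤ m * (inner ℂ y (G y)).re := by gcongr) hcG (op M x) (by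
    rw [_root_.smul_apply, hG2, norm_smul, norm_neg, hx1, Complex.norm_real,
      Real.norm_of_nonneg hpos.le, hMx, mul_one])
  rw [hin, hG2, inner_neg_right, ← inner_conj_symm, Complex.re_ofReal_mul, Complex.neg_re,
    Complex.conj_re, hMx] at key
  rw [hMx]
  have h5 : m * (Real.cos θ * m) ≤ m * -(inner ℂ x (op M x)).re := by nlinarith
  exact le_of_mul_le_mul_left h5 hpos

/-! ### sufficiency -/

theorem muHat_eq_zero_of_trivial {θ : ℝ} (h0 : 0 ≤ θ) (h1 : θ ≤ Real.pi / 2)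
    (M : Matrix (Fin n) (Fin n) ℂ)
    (H : ∀ y : EuclideanSpace ℂ (Fin n),
      Real.cos θ * ‖inner ℂ y (op M y)‖ ≤ -(inner ℂ y (op M y)).re → op M y = 0) :
    muHat θ M = 0 := by
  refine le_antisymm (muHat_le le_rfl fun γ hγ => ?_) (muHat_nonneg _ _)
  rw [lmi_iff_feas]
  exact feas_of_trivial h0 h1 (op M) H hγ

theorem eq_of_muHat_zero {θ : ℝ} (h0 : 0 ≤ θ) (h1 : θ ≤ Real.pi / 2)
    (M : Matrix (Fin n) (Fin n) ℂ) (h : muHat θ M = 0) : mu θ M = muHat θ M := by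
  have h2 := mu_le_muHat h0 h1 M
  have h3 := mu_nonneg θ M
  linarith

theorem homog {θ : ℝ} {M : Matrix (Fin n) (Fin n) ℂ} {ρ : ℝ}
    (H : ∀ y : EuclideanSpace ℂ (Fin n), ‖y‖ = 1 →
      Real.cos θ * ‖inner ℂ y (op M y)‖ ≤ -(inner ℂ y (op M y)).re → ‖op M y‖ ≤ ρ)
    (y : EuclideanSpace ℂ (Fin n))
    (hy : Real.cos θ * ‖inner ℂ y (op M y)‖ ≤ -(inner ℂ y (op M y)).re) :
    ‖op M y‖ ≤ ρ * ‖y‖ := by
  by_cases hy0 : y = 0
  · simp [hy0]
  have hyn : 0 < ‖y‖ := norm_pos_iff.mpr hy0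
  have h3 : inner ℂ (((‖y‖⁻¹ : ℝ) : ℂ) • y) (op M (((‖y‖⁻¹ : ℝ) : ℂ) • y)) =
      ((‖y‖⁻¹ ^ 2 : ℝ) : ℂ) * inner ℂ y (op M y) := by
    rw [map_smul, inner_smul_left, inner_smul_right, Complex.conj_ofReal]
    push_cast; ring
  have h2 := H (((‖y‖⁻¹ : ℝ) : ℂ) • y)
    (by rw [norm_smul, Complex.norm_real, Real.norm_of_nonneg (by positivity)]; field_simp)
    (by
      rw [h3, norm_mul, Complex.norm_real, Real.norm_of_nonneg (by positivity),
        Complex.re_ofReal_mul]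
      have h4 : 0 < ‖y‖⁻¹ ^ 2 := by positivity
      nlinarith)
  rw [map_smul, norm_smul, Complex.norm_real, Real.norm_of_nonneg (by positivity)] at h2
  have : ‖y‖⁻¹ * ‖op M y‖ * ‖y‖ ≤ ρ * ‖y‖ := mul_le_mul_of_nonneg_right h2 hyn.le
  calc ‖op M y‖ = ‖y‖⁻¹ * ‖op M y‖ * ‖y‖ := by field_simp
    _ ≤ _ := this

theorem muHat_le_of_strong {θ : ℝ} (h0 : 0 ≤ θ) (h1 : θ ≤ Real.pi / 2)
    (M : Matrix (Fin n) (Fin n) ℂ) (x : EuclideanSpace ℂ (Fin n)) (hx : ‖x‖ = 1)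
    (hst : Real.cos θ * ‖op M x‖ ≤ -(inner ℂ x (op M x)).re) (hMx : op M x ≠ 0)
    (H : ∀ y : EuclideanSpace ℂ (Fin n),
      Real.cos θ * ‖inner ℂ y (op M y)‖ ≤ -(inner ℂ y (op M y)).re → ‖op M y‖ ≤ ‖op M x‖ * ‖y‖) :
    muHat θ M ≤ ‖op M x‖ := by
  have hpos : 0 < ‖op M x‖ := norm_pos_iff.mpr hMx
  refine muHat_le hpos.le fun γ hγ => ?_
  rw [lmi_iff_feas]
  rcases h1.lt_or_eq with h1' | h1'
  · rcases strong_max h0 h1' (op M) x hx hpos hst H with h | ⟨l, hl1, hl2, hl3⟩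
    · exact feas_of_norm h0 h1 (op M) hpos.le h hγ
    · rcases hl3 with hl3 | hl3
      · exact feas_of_reducing h0 h1' (op M) ‖op M x‖ 1 hpos (Or.inl rfl) x hx l
          (by rw [hl3, one_mul]) hl1 hl2 H hγ
      · exact feas_of_reducing h0 h1' (op M) ‖op M x‖ (-1) hpos (Or.inr rfl) x hx l
          (by rw [hl3, neg_one_mul]) hl1 hl2 H hγ
  · refine feas_of_claim h0 h1 (op M) ‖op M x‖ 1 hpos (Or.inl rfl) ?_ hγ
    intro y hy _
    apply H
    rw [h1', Real.cos_pi_div_two] at hy ⊢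
    rw [Real.sin_pi_div_two, Complex.mul_re] at hy
    simp only [mul_zero, zero_mul, one_mul, sub_zero] at hy ⊢
    linarith

theorem mem_neg_sector {θ : ℝ} (h0 : 0 ≤ θ) (h1 : θ ≤ Real.pi / 2) (w : ℂ) :
    -w ∈ sector θ ↔ Real.cos θ * ‖w‖ ≤ -w.re := by
  rw [mem_sector h0 h1, norm_neg, Complex.neg_re]

/-- the criterion -/
theorem criterion (M : Matrix (Fin n) (Fin n) ℂ) {θ : ℝ} (h0 : 0 ≤ θ) (h1 : θ ≤ Real.pi / 2) :
    mu θ M = muHat θ M ↔
        (∀ x : EuclideanSpace ℂ (Fin n), ‖x‖ = 1 → -inner ℂ x (op M x) ∉ sector θ) ∨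
        ∃ x : EuclideanSpace ℂ (Fin n), ‖x‖ = 1 ∧
          Real.cos θ * ‖op M x‖ ≤ -(inner ℂ x (op M x)).re ∧
          ∀ y : EuclideanSpace ℂ (Fin n), ‖y‖ = 1 → -inner ℂ y (op M y) ∈ sector θ →
            ‖op M y‖ ≤ ‖op M x‖ := by
  constructor
  · intro heq
    rcases (muHat_nonneg θ M).eq_or_lt with hz | hpos
    · by_cases hC : ∀ x : EuclideanSpace ℂ (Fin n), ‖x‖ = 1 → -inner ℂ x (op M x) ∉ sector θ
      · exact Or.inl hC
      · right
        push Not at hC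
        obtain ⟨x, hx, hxC⟩ := hC
        have hb : ∀ y : EuclideanSpace ℂ (Fin n), ‖y‖ = 1 → -inner ℂ y (op M y) ∈ sector θ →
            ‖op M y‖ ≤ 0 := by
          intro y hy hyC
          have := norm_le_muHat h0 h1 M y ((mem_neg_sector h0 h1 _).mp hyC)
          rw [← hz, zero_mul] at this
          exact this
        have hx0 : op M x = 0 := norm_le_zero_iff.mp (hb x hx hxC)
        refine ⟨x, hx, ?_, ?_⟩
        · rw [hx0]; simp
        · intro y hy hyC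
          rw [hx0, norm_zero]
          exact hb y hy hyC
    · right
      obtain ⟨x, hx, hMx, hst⟩ := exists_strong h0 h1 M heq hpos
      refine ⟨x, hx, hst, ?_⟩
      intro y hy hyC
      have := norm_le_muHat h0 h1 M y ((mem_neg_sector h0 h1 _).mp hyC)
      rw [hy, mul_one] at this
      rw [hMx]
      exact this
  · rintro (hC | ⟨x, hx, hst, hmax⟩)
    · apply eq_of_muHat_zero h0 h1
      apply muHat_eq_zero_of_trivial h0 h1
      intro y hy
      have h2 := homog (ρ := 0) (fun y hy1 hy2 =>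
        absurd ((mem_neg_sector h0 h1 _).mpr hy2) (hC y hy1)) y hy
      rw [zero_mul] at h2
      exact norm_le_zero_iff.mp h2
    · have H : ∀ y : EuclideanSpace ℂ (Fin n),
        Real.cos θ * ‖inner ℂ y (op M y)‖ ≤ -(inner ℂ y (op M y)).re →
          ‖op M y‖ ≤ ‖op M x‖ * ‖y‖ :=
        homog fun y hy1 hy2 => hmax y hy1 ((mem_neg_sector h0 h1 _).mpr hy2)
      by_cases hMx : op M x = 0
      · apply eq_of_muHat_zero h0 h1
        apply muHat_eq_zero_of_trivial h0 h1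
        intro y hy
        have h2 := H y hy
        rw [hMx, norm_zero, zero_mul] at h2
        exact norm_le_zero_iff.mp h2
      · apply le_antisymm (mu_le_muHat h0 h1 M)
        exact (muHat_le_of_strong h0 h1 M x hx hst hMx H).trans (le_mu h0 h1 M x hx hMx hst)

/-- exactness at `θ = π/2` -/
theorem exact_pi_div_two (M : Matrix (Fin n) (Fin n) ℂ) :
    mu (Real.pi / 2) M = muHat (Real.pi / 2) M := by
  have h0 : 0 ≤ Real.pi / 2 := by positivity
  rw [criterion M h0 le_rfl]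
  set K : Set (EuclideanSpace ℂ (Fin n)) :=
    {x | ‖x‖ = 1 ∧ (inner ℂ x (op M x)).re ≤ 0} with hK
  have hKc : IsCompact K := by
    have e : K = Metric.sphere 0 1 ∩ {x | (inner ℂ x (op M x)).re ≤ 0} := by
      ext x; simp [hK]
    rw [e]
    exact (isCompact_sphere _ _).inter_right (isClosed_le (by fun_prop) (by fun_prop))
  have hmem : ∀ x : EuclideanSpace ℂ (Fin n), -inner ℂ x (op M x) ∈ sector (Real.pi / 2) ↔
      (inner ℂ x (op M x)).re ≤ 0 := by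
    intro x
    rw [mem_neg_sector h0 le_rfl, Real.cos_pi_div_two, zero_mul]
    constructor <;> intro h <;> linarith
  by_cases hne : K.Nonempty
  · right
    obtain ⟨x, hxK, hmax⟩ := hKc.exists_isMaxOn hne (f := fun x => ‖op M x‖) (by fun_prop)
    refine ⟨x, hxK.1, ?_, ?_⟩
    · rw [Real.cos_pi_div_two, zero_mul]
      have := hxK.2
      linarith
    · intro y hy hyC
      have hyK : y ∈ K := ⟨hy, (hmem y).mp hyC⟩
      exact isMaxOn_iff.mp hmax y hyK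
  · left
    intro x hx hxC
    exact hne ⟨x, hx, (hmem x).mp hxC⟩

theorem arg_cases {θ : ℝ} (h0 : 0 ≤ θ) (h1 : θ < Real.pi / 2) (l : ℂ) (hl : l ≠ 0) :
    |Complex.arg (-l)| = θ ↔ (l = -((‖l‖ : ℂ) * ⟨Real.cos θ, Real.sin θ⟩) ∨
          l = -((‖l‖ : ℂ) * ⟨Real.cos θ, -Real.sin θ⟩)) := by
  have hpi := Real.pi_pos
  have hn : 0 < ‖l‖ := norm_pos_iff.mpr hl
  have e1 : ∀ t : ℝ, (⟨Real.cos t, Real.sin t⟩ : ℂ) = Complex.cos t + Complex.sin t * Complex.I := by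
    intro t
    apply Complex.ext
    · simp [← Complex.ofReal_cos, ← Complex.ofReal_sin]
    · simp [← Complex.ofReal_cos, ← Complex.ofReal_sin]
  constructor
  · intro h
    have h2 : -l = (‖l‖ : ℂ) * ⟨Real.cos (Complex.arg (-l)), Real.sin (Complex.arg (-l))⟩ := by
      rw [e1]
      have := Complex.norm_mul_cos_add_sin_mul_I (-l)
      rw [norm_neg] at this
      exact this.symm
    rcases abs_cases (Complex.arg (-l)) with hc | hc
    · left
      rw [hc.1] at h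
      rw [h] at h2
      rw [← h2, neg_neg]
    · right
      have h3 : Complex.arg (-l) = -θ := by rw [← h, hc.1, neg_neg]
      rw [h3, Real.cos_neg, Real.sin_neg] at h2
      rw [← h2, neg_neg]
  · rintro (h | h)
    · have h2 : -l = (‖l‖ : ℂ) * (Complex.cos θ + Complex.sin θ * Complex.I) := by
        rw [← e1]
        conv_lhs => rw [h]
        rw [neg_neg]
      rw [h2, Complex.arg_mul_cos_add_sin_mul_I hn ⟨by linarith, by linarith⟩, abs_of_nonneg h0]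
    · have h2 : -l = (‖l‖ : ℂ) * (Complex.cos (-θ : ℝ) + Complex.sin (-θ : ℝ) * Complex.I) := by
        rw [← e1, Real.cos_neg, Real.sin_neg]
        conv_lhs => rw [h]
        rw [neg_neg]
      rw [h2, Complex.arg_mul_cos_add_sin_mul_I hn ⟨by linarith, by linarith⟩, abs_neg,
        abs_of_nonneg h0]

/-- the explicit trichotomy for `θ < π/2` -/
theorem trichotomy (M : Matrix (Fin n) (Fin n) ℂ) {θ : ℝ} (h0 : 0 ≤ θ) (h1 : θ < Real.pi / 2) :
    mu θ M = muHat θ M ↔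
        (∀ x : EuclideanSpace ℂ (Fin n), -inner ℂ x (op M x) ∈ sector θ → op M x = 0) ∨
        (∃ x : EuclideanSpace ℂ (Fin n), ‖x‖ = 1 ∧ ‖op M x‖ = ‖op M‖ ∧
          Real.cos θ * ‖op M x‖ ≤ -(inner ℂ x (op M x)).re) ∨
        ∃ x : EuclideanSpace ℂ (Fin n), ‖x‖ = 1 ∧ ∃ l : ℂ, l ≠ 0 ∧ |Complex.arg (-l)| = θ ∧
          op M x = l • x ∧ op Mᴴ x = conj l • x ∧
          ∀ y : EuclideanSpace ℂ (Fin n), -inner ℂ y (op M y) ∈ sector θ →
            ‖op M y‖ ≤ ‖l‖ * ‖y‖ := by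
  constructor
  · intro heq
    rcases (criterion M h0 h1.le).mp heq with hC | ⟨x, hx, hst, hmax⟩
    · left
      intro y hyC
      have h2 := homog (ρ := 0) (fun y hy1 hy2 =>
        absurd ((mem_neg_sector h0 h1.le _).mpr hy2) (hC y hy1)) y
          ((mem_neg_sector h0 h1.le _).mp hyC)
      rw [zero_mul] at h2
      exact norm_le_zero_iff.mp h2
    · have H : ∀ y : EuclideanSpace ℂ (Fin n),
        Real.cos θ * ‖inner ℂ y (op M y)‖ ≤ -(inner ℂ y (op M y)).re →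
          ‖op M y‖ ≤ ‖op M x‖ * ‖y‖ :=
        homog fun y hy1 hy2 => hmax y hy1 ((mem_neg_sector h0 h1.le _).mpr hy2)
      by_cases hMx : op M x = 0
      · left
        intro y hy
        have h2 := H y ((mem_neg_sector h0 h1.le _).mp hy)
        rw [hMx, norm_zero, zero_mul] at h2
        exact norm_le_zero_iff.mp h2
      · right
        have hpos : 0 < ‖op M x‖ := norm_pos_iff.mpr hMx
        rcases strong_max h0 h1 (op M) x hx hpos hst H with h | ⟨l, hl1, hl2, hl3⟩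
        · left
          refine ⟨x, hx, le_antisymm ?_ ?_, hst⟩
          · have := (op M).le_opNorm x
            rwa [hx, mul_one] at this
          · exact (op M).opNorm_le_bound hpos.le h
        · right
          have hln : ‖l‖ = ‖op M x‖ := by rw [hl1, norm_smul, hx, mul_one]
          have hl0 : l ≠ 0 := by
            rw [← norm_pos_iff, hln]; exact hpos
          refine ⟨x, hx, l, hl0, ?_, hl1, ?_, ?_⟩
          · rw [arg_cases h0 h1 l hl0, hln]; exact hl3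
          · rw [op_star]; exact hl2
          · intro y hy
            rw [hln]
            exact H y ((mem_neg_sector h0 h1.le _).mp hy)
  · rintro (ha | ⟨x, hx, hMx, hst⟩ | ⟨x, hx, l, hl0, hl, hl1, hl2, H⟩)
    · apply eq_of_muHat_zero h0 h1.le
      apply muHat_eq_zero_of_trivial h0 h1.le
      intro y hy
      exact ha y ((mem_neg_sector h0 h1.le _).mpr hy)
    · rw [criterion M h0 h1.le]
      right
      refine ⟨x, hx, hst, ?_⟩
      intro y hy _
      rw [hMx]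
      have := (op M).le_opNorm y
      rwa [hy, mul_one] at this
    · have hln : ‖l‖ = ‖op M x‖ := by rw [hl1, norm_smul, hx, mul_one]
      rw [criterion M h0 h1.le]
      right
      have hform : inner ℂ x (op M x) = l := by
        rw [hl1, inner_smul_right, self_inner', hx]; simp
      refine ⟨x, hx, ?_, ?_⟩
      · rw [hform, ← hln]
        rcases (arg_cases h0 h1 l hl0).mp hl with h | h
        · have : l.re = -(‖l‖ * Real.cos θ) := by
            conv_lhs => rw [h]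
            rw [Complex.neg_re, Complex.re_ofReal_mul]
          rw [this]; linarith
        · have : l.re = -(‖l‖ * Real.cos θ) := by
            conv_lhs => rw [h]
            rw [Complex.neg_re, Complex.re_ofReal_mul]
          rw [this]; linarith
      · intro y hy hyC
        have := H y hyC
        rw [hy, mul_one, hln] at this
        exact this

/-! ### the counterexample -/

theorem ker_of_form_zero {E : Type*} [NormedAddCommGroup E] [InnerProductSpace ℂ E]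
    [CompleteSpace E] (B : E →L[ℂ] E) (hB : ∀ z, 0 ≤ (inner ℂ z (B z)).re) (y : E)
    (hy : (inner ℂ y (B y)).re = 0) : B y + (ContinuousLinearMap.adjoint B) y = 0 := by
  set v := B y + (ContinuousLinearMap.adjoint B) y with hv
  by_contra hcon
  have hvn : 0 < ‖v‖ := norm_pos_iff.mpr hcon
  have h1 : ∀ t : ℝ, 0 < t → ‖v‖ ^ 2 ≤ t * (inner ℂ v (B v)).re := by
    intro t ht
    have h2 := hB (y - (t : ℂ) • v)
    have h3 : inner ℂ (y - (t : ℂ) • v) (B (y - (t : ℂ) • v)) =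
        inner ℂ y (B y) - (t : ℂ) * (inner ℂ y (B v) + inner ℂ v (B y)) +
          ((t ^ 2 : ℝ) : ℂ) * inner ℂ v (B v) := by
      rw [map_sub, map_smul, inner_sub_left, inner_sub_right, inner_sub_right, inner_smul_left,
        inner_smul_left, inner_smul_right, inner_smul_right, Complex.conj_ofReal]
      push_cast; ring
    have h4 : (inner ℂ y (B v) + inner ℂ v (B y)).re = ‖v‖ ^ 2 := by
      have h5 : inner ℂ v v = ((‖v‖ ^ 2 : ℝ) : ℂ) := self_inner' v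
      have h6 : (inner ℂ y (B v)).re = (inner ℂ v ((ContinuousLinearMap.adjoint B) y)).re := by
        rw [← ContinuousLinearMap.adjoint_inner_left, ← inner_conj_symm, Complex.conj_re]
      have h7 : (inner ℂ v v).re = ‖v‖ ^ 2 := by rw [h5, Complex.ofReal_re]
      rw [← h7, Complex.add_re, h6]
      conv_rhs => rw [hv, inner_add_right, Complex.add_re, ← hv]
      ring
    rw [h3, Complex.add_re, Complex.sub_re, Complex.re_ofReal_mul, Complex.re_ofReal_mul, hy, h4] at h2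
    have h8 : t * ‖v‖ ^ 2 ≤ t * (t * (inner ℂ v (B v)).re) := by nlinarith
    exact le_of_mul_le_mul_left h8 ht
  have h9 : 0 < ‖v‖ ^ 2 := by positivity
  set c := (inner ℂ v (B v)).re with hc
  have h10 : 0 < c := by
    have := h1 1 one_pos
    linarith
  have h11 := h1 (‖v‖ ^ 2 / (2 * c)) (by positivity)
  have h12 : ‖v‖ ^ 2 / (2 * c) * c = ‖v‖ ^ 2 / 2 := by field_simp
  rw [h12] at h11
  linarith

/-- the skew matrix used for the counterexample -/
def skew (n : ℕ) (hn : 2 ≤ n) : Matrix (Fin n) (Fin n) ℂ :=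
  fun i j => if i = ⟨0, by omega⟩ ∧ j = ⟨1, by omega⟩ then 1 else
    if i = ⟨1, by omega⟩ ∧ j = ⟨0, by omega⟩ then -1 else 0

theorem skew_conj (n : ℕ) (hn : 2 ≤ n) : (skew n hn)ᴴ = -skew n hn := by
  ext i j
  simp only [Matrix.conjTranspose_apply, Matrix.neg_apply, skew]
  have h01 : (⟨0, by omega⟩ : Fin n) ≠ ⟨1, by omega⟩ := by
    intro h; simp at h
  by_cases h1 : j = ⟨0, by omega⟩ <;> by_cases h2 : i = ⟨1, by omega⟩ <;>
    by_cases h3 : j = ⟨1, by omega⟩ <;> by_cases h4 : i = ⟨0, by omega⟩ <;>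
    simp_all

theorem skew_apply (n : ℕ) (hn : 2 ≤ n) (x : EuclideanSpace ℂ (Fin n)) (i : Fin n) :
    (op (skew n hn) x) i = if i = ⟨0, by omega⟩ then x ⟨1, by omega⟩ else
      if i = ⟨1, by omega⟩ then -x ⟨0, by omega⟩ else 0 := by
  have h01 : (⟨0, by omega⟩ : Fin n) ≠ ⟨1, by omega⟩ := by
    intro h; simp at h
  have h : (op (skew n hn) x) i = ∑ j, skew n hn i j * x j := rfl
  rw [h]
  split_ifs with h1 h2
  · rw [Finset.sum_eq_single (⟨1, by omega⟩ : Fin n)]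
    · simp [skew, h1]
    · intro j _ hj
      simp [skew, h1, hj]
    · simp
  · rw [Finset.sum_eq_single (⟨0, by omega⟩ : Fin n)]
    · simp [skew, h2]
    · intro j _ hj
      simp [skew, h2, hj]
    · simp
  · apply Finset.sum_eq_zero
    intro j _
    simp [skew, h1, h2]

theorem skew_re (n : ℕ) (hn : 2 ≤ n) (x : EuclideanSpace ℂ (Fin n)) :
    (inner ℂ x (op (skew n hn) x)).re = 0 := by
  have h1 : inner ℂ x (op (skew n hn) x) =
      -conj (inner ℂ x (op (skew n hn) x)) := by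
    conv_lhs => rw [← ContinuousLinearMap.adjoint_inner_left, ← op_star, skew_conj]
    have : op (-skew n hn) x = -(op (skew n hn) x) := by
      unfold op
      rw [map_neg]; rfl
    rw [this, inner_neg_left, inner_conj_symm]
  have h2 := congrArg Complex.re h1
  rw [Complex.neg_re, Complex.conj_re] at h2
  linarith

theorem skew_norm (n : ℕ) (hn : 2 ≤ n) (x : EuclideanSpace ℂ (Fin n)) :
    ‖op (skew n hn) x‖ ≤ 1 * ‖x‖ := by
  rw [one_mul]
  have h01 : (⟨0, by omega⟩ : Fin n) ≠ ⟨1, by omega⟩ := by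
    intro h; simp at h
  have h : ‖op (skew n hn) x‖ ^ 2 ≤ ‖x‖ ^ 2 := by
    rw [EuclideanSpace.norm_sq_eq, EuclideanSpace.norm_sq_eq]
    have e1 : ∀ i, ‖(op (skew n hn) x) i‖ ^ 2 =
        (if i = ⟨0, by omega⟩ then ‖x ⟨1, by omega⟩‖ ^ 2 else 0) +
        (if i = ⟨1, by omega⟩ then ‖x ⟨0, by omega⟩‖ ^ 2 else 0) := by
      intro i
      rw [skew_apply]
      by_cases h1 : i = ⟨0, by omega⟩
      · have h2 : ¬ (i = (⟨1, by omega⟩ : Fin n)) := by rw [h1]; exact h01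
        simp [h1, h2]
      · by_cases h2 : i = ⟨1, by omega⟩
        · simp [h1, h2]
        · simp [h1, h2]
    simp_rw [e1]
    rw [Finset.sum_add_distrib, Finset.sum_ite_eq', Finset.sum_ite_eq']
    simp only [Finset.mem_univ, if_true]
    have e2 : ∑ i ∈ ({(⟨0, by omega⟩ : Fin n), ⟨1, by omega⟩} : Finset (Fin n)), ‖x i‖ ^ 2 ≤
        ∑ i, ‖x i‖ ^ 2 :=
      Finset.sum_le_sum_of_subset_of_nonneg (Finset.subset_univ _) (fun i _ _ => by positivity)
    rw [Finset.sum_pair h01] at e2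
    linarith
  exact (pow_le_pow_iff_left₀ (norm_nonneg _) (norm_nonneg _) (two_ne_zero)).mp h

theorem skew_example (n : ℕ) (hn : 2 ≤ n) {θ : ℝ} (h0 : 0 ≤ θ) (h1 : θ < Real.pi / 2) :
    mu θ (skew n hn) = 0 ∧ muHat θ (skew n hn) = 1 := by
  have hc : 0 < Real.cos θ := Real.cos_pos_of_mem_Ioo ⟨by linarith [Real.pi_pos], h1⟩
  have h01 : (⟨0, by omega⟩ : Fin n) ≠ ⟨1, by omega⟩ := by
    intro h; simp at h
  constructor
  · have hempty : ¬ (SingSet θ (skew n hn)).Nonempty := by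
      rintro ⟨Γ, hΓ1, hΓ2⟩
      obtain ⟨x, hx, h⟩ := (sing_iff Γ _).mp hΓ2
      set y := op (skew n hn) x with hy
      have hG := (gamma_iff h0 h1.le Γ).mp hΓ1
      have hre : (inner ℂ y (op Γ y)).re = 0 := by
        rw [h, inner_neg_right, Complex.neg_re, ← inner_conj_symm, Complex.conj_re, hy, skew_re,
          neg_zero]
      have hG0 : ∀ z, 0 ≤ (inner ℂ z (op Γ z)).re := fun z => le_trans (by positivity) (hG z)
      have k1 := ker_of_form_zero (op Γ) hG0 y hre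
      have hn0 : ‖inner ℂ y (op Γ y)‖ = 0 := by
        have := hG y
        rw [hre] at this
        have h3 := norm_nonneg (inner ℂ y (op Γ y))
        nlinarith
      have hz : inner ℂ y (op Γ y) = 0 := norm_eq_zero.mp hn0
      have k2 := ker_of_form_zero ((⟨Real.sin θ, Real.cos θ⟩ : ℂ) • op Γ) (by
        intro z
        rw [_root_.smul_apply, inner_smul_right, Complex.mul_re]
        have h4 := sector_im h0 h1.le (hG z)
        have h5 := mul_le_mul_of_nonneg_left (le_abs_self (inner ℂ z (op Γ z)).im) hc.le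
        simp only
        linarith) y (by rw [_root_.smul_apply, inner_smul_right, hz, mul_zero, Complex.zero_re])
      rw [map_smulₛₗ, _root_.smul_apply, _root_.smul_apply, eq_neg_of_add_eq_zero_right k1, smul_neg,
        ← sub_eq_add_neg, ← sub_smul, smul_eq_zero] at k2
      rcases k2 with k2 | k2
      · have := congrArg Complex.im k2
        simp at this
        linarith
      · rw [h] at k2
        exact hx (neg_eq_zero.mp k2)
    unfold mu
    rw [if_neg hempty]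
  · apply le_antisymm
    · refine muHat_le zero_le_one fun γ hγ => ?_
      rw [lmi_iff_feas]
      exact feas_of_norm h0 h1.le _ zero_le_one (skew_norm n hn) hγ
    · set e : EuclideanSpace ℂ (Fin n) := EuclideanSpace.single ⟨0, by omega⟩ 1 with he
      have hen : ‖e‖ = 1 := by rw [he]; simp
      have hMe : op (skew n hn) e = -EuclideanSpace.single ⟨1, by omega⟩ 1 := by
        ext i
        rw [skew_apply, he]
        by_cases h1 : i = ⟨0, by omega⟩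
        · have h2 : ¬ (i = (⟨1, by omega⟩ : Fin n)) := by rw [h1]; exact h01
          simp [h1]
        · by_cases h2 : i = ⟨1, by omega⟩
          · simp [h2]
          · simp [h1, h2]
      have hin : inner ℂ e (op (skew n hn) e) = 0 := by
        rw [hMe, he, inner_neg_right, EuclideanSpace.inner_single_left]
        simp
      have := norm_le_muHat h0 h1.le (skew n hn) e (by rw [hin]; simp)
      rw [hen, mul_one, hMe, norm_neg] at this
      simpa using this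

theorem criterion' (M : Matrix (Fin n) (Fin n) ℂ) {θ : ℝ} (h0 : 0 ≤ θ) (h1 : θ ≤ Real.pi / 2) :
    mu θ M = muHat θ M ↔ Criterion θ M := by
  rw [criterion M h0 h1]
  unfold Criterion Strong Over
  simp only [and_assoc]

theorem trichotomy' (M : Matrix (Fin n) (Fin n) ℂ) {θ : ℝ} (h0 : 0 ≤ θ) (h1 : θ < Real.pi / 2) :
    mu θ M = muHat θ M ↔ CaseA θ M ∨ CaseB θ M ∨ CaseC θ M := by
  rw [trichotomy M h0 h1]
  have hB : CaseB θ M ↔ (∃ x : EuclideanSpace ℂ (Fin n), ‖x‖ = 1 ∧ ‖op M x‖ = ‖op M‖ ∧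
          Real.cos θ * ‖op M x‖ ≤ -(inner ℂ x (op M x)).re) := by
    unfold CaseB Strong
    constructor
    · rintro ⟨x, ⟨h1, h2⟩, h3⟩; exact ⟨x, h1, h3, h2⟩
    · rintro ⟨x, h1, h2, h3⟩; exact ⟨x, ⟨h1, h3⟩, h2⟩
  rw [hB]
  rfl

end H640R2.PhaseMu
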