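import Pool.Agent.H306R2.RZ.Defs
import Pool.Agent.H306R2.RZ.Stubs

set_option autoImplicit false

/-! RZ task S1c (helper640). -/

namespace Pool.Agent.H640R2.RZS1c

open Finset Filter Topology MeasureTheory Pool.Agent.H306R2.RZ

/-- `n^(s-1)` -/
noncomputable def aP (s : ℂ) : ArithmeticFunction ℂ :=
  ⟨fun n => if n = 0 then 0 else (n : ℂ) ^ (s - 1), by simp⟩

/-- `μ(n) n^(s-1)` -/
noncomputable def aM (s : ℂ) : ArithmeticFunction ℂ :=
  ⟨fun n => ((ArithmeticFunction.moebius n : ℤ) : ℂ) * (n : ℂ) ^ (s - 1), by simp⟩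

/-- the coefficients -/
noncomputable def aF (c : ℕ) (s : ℂ) : ArithmeticFunction ℂ :=
  ⟨fun n => if n.Coprime c ∧ n ≠ 0 then (n : ℂ) ^ (-(1 / 2) : ℂ) * ks s n else 0, by simp⟩

theorem aP_apply (s : ℂ) {n : ℕ} (hn : n ≠ 0) : aP s n = (n : ℂ) ^ (s - 1) := by
  unfold aP
  rw [ArithmeticFunction.coe_mk, if_neg hn]

theorem aM_apply (s : ℂ) (n : ℕ) : aM s n =
    ((ArithmeticFunction.moebius n : ℤ) : ℂ) * (n : ℂ) ^ (s - 1) := rfl

theorem aF_apply (c : ℕ) (s : ℂ) (n : ℕ) : aF c s n =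
    if n.Coprime c ∧ n ≠ 0 then (n : ℂ) ^ (-(1 / 2) : ℂ) * ks s n else 0 := rfl

theorem PM (s : ℂ) : aP s * aM s = 1 := by
  ext n
  rw [ArithmeticFunction.mul_apply]
  rcases eq_or_ne n 0 with rfl | hn
  · simp
  · have h1 : ∀ x ∈ n.divisorsAntidiagonal, aP s x.1 * aM s x.2 =
        (n : ℂ) ^ (s - 1) * ((ArithmeticFunction.moebius x.2 : ℤ) : ℂ) := by
      intro x hx
      obtain ⟨hx1, -⟩ := Nat.mem_divisorsAntidiagonal.1 hx
      have hx0 : x.1 ≠ 0 := fun h => hn (by rw [← hx1, h, zero_mul])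
      rw [aP_apply s hx0, aM_apply, ← hx1, Nat.cast_mul, Complex.natCast_mul_natCast_cpow]
      ring
    rw [Finset.sum_congr rfl h1, ← Finset.mul_sum]
    have h2 : ∑ x ∈ n.divisorsAntidiagonal, (ArithmeticFunction.moebius x.2 : ℤ) =
        (1 : ArithmeticFunction ℤ) n := by
      rw [← ArithmeticFunction.coe_zeta_mul_moebius, ArithmeticFunction.coe_zeta_mul_apply,
        Nat.sum_divisorsAntidiagonal' (f := fun _ j => (ArithmeticFunction.moebius j : ℤ))]
    have h3 : ∑ x ∈ n.divisorsAntidiagonal, ((ArithmeticFunction.moebius x.2 : ℤ) : ℂ) =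
        (((1 : ArithmeticFunction ℤ) n : ℤ) : ℂ) := by
      rw [← h2]; push_cast; rfl
    rw [h3, ArithmeticFunction.one_apply, ArithmeticFunction.one_apply]
    split_ifs with h
    · rw [h]; simp
    · simp

theorem MF (c : ℕ) (s : ℂ) (b : ℕ) : (aM s * aF c s) b = gg c s b := by
  rw [ArithmeticFunction.mul_apply]
  unfold gg
  refine Finset.sum_congr rfl fun x hx => ?_
  obtain ⟨hx1, hb⟩ := Nat.mem_divisorsAntidiagonal.1 hx
  have hx0 : x.2 ≠ 0 := fun h => hb (by rw [← hx1, h, mul_zero])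
  rw [aM_apply, aF_apply]
  congr 1
  by_cases h : x.2.Coprime c
  · rw [if_pos ⟨h, hx0⟩, if_pos h]
  · rw [if_neg (fun h' => h h'.1), if_neg h]

theorem gg_zero (c : ℕ) (s : ℂ) : gg c s 0 = 0 := by
  unfold gg; simp

theorem conv (c : ℕ) (s : ℂ) (m : ℕ) : aF c s m =
    ∑ x ∈ m.divisorsAntidiagonal, (x.1 : ℂ) ^ (s - 1) * gg c s x.2 := by
  have h : aP s * (aM s * aF c s) = aF c s := by rw [← mul_assoc, PM, one_mul]
  rw [← h, ArithmeticFunction.mul_apply]
  refine Finset.sum_congr rfl fun x hx => ?_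
  obtain ⟨hx1, hb⟩ := Nat.mem_divisorsAntidiagonal.1 hx
  have hx0 : x.1 ≠ 0 := fun h => hb (by rw [← hx1, h, zero_mul])
  rw [aP_apply s hx0, MF]

theorem sum_conv (N : ℕ) (h : ℕ → ℕ → ℂ) (G : ℕ → ℂ) (hG : ∀ m, N < m → G m = 0) :
    ∑ m ∈ Icc 1 N, (∑ x ∈ m.divisorsAntidiagonal, h x.1 x.2) * G m =
      ∑ b ∈ Icc 1 N, ∑ d ∈ Icc 1 N, h d b * G (d * b) := by
  rw [Finset.sum_comm, ← Finset.sum_product' (f := fun d b => h d b * G (d * b))]
  have e1 : ∑ p ∈ Icc 1 N ×ˢ Icc 1 N, h p.1 p.2 * G (p.1 * p.2) =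
      ∑ p ∈ (Icc 1 N ×ˢ Icc 1 N).filter (fun p : ℕ × ℕ => p.1 * p.2 ≤ N), h p.1 p.2 * G (p.1 * p.2) := by
    rw [Finset.sum_filter]
    refine Finset.sum_congr rfl fun p _ => ?_
    split_ifs with hp
    · rfl
    · rw [hG _ (by omega), mul_zero]
  rw [e1, ← Finset.sum_fiberwise_of_maps_to (t := Icc 1 N) (g := fun p : ℕ × ℕ => p.1 * p.2)]
  · refine Finset.sum_congr rfl fun m hm => ?_
    rw [Finset.mem_Icc] at hm
    rw [Finset.sum_mul]
    refine Finset.sum_congr ?_ ?_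
    · ext p
      simp only [Nat.mem_divisorsAntidiagonal, mem_filter, mem_product, mem_Icc]
      constructor
      · rintro ⟨h1, h2⟩
        have h3 : p.1 ≠ 0 := fun h => h2 (by rw [← h1, h, zero_mul])
        have h4 : p.2 ≠ 0 := fun h => h2 (by rw [← h1, h, mul_zero])
        have h5 : p.1 ≤ p.1 * p.2 := Nat.le_mul_of_pos_right _ (Nat.pos_of_ne_zero h4)
        have h6 : p.2 ≤ p.1 * p.2 := Nat.le_mul_of_pos_left _ (Nat.pos_of_ne_zero h3)
        refine ⟨⟨⟨⟨by omega, by omega⟩, by omega, by omega⟩, by omega⟩, h1⟩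
      · rintro ⟨-, h1⟩
        exact ⟨h1, by omega⟩
    · intro p hp
      rw [(Finset.mem_filter.1 hp).2]
  · intro p hp
    simp only [mem_filter, mem_product, mem_Icc] at hp
    rw [Finset.mem_Icc]
    have : 0 < p.1 * p.2 := Nat.mul_pos (by omega) (by omega)
    exact ⟨this, hp.2⟩

end Pool.Agent.H640R2.RZS1c

open Finset Filter Topology MeasureTheory Pool.Agent.H306R2.RZ Pool.Agent.H640R2.RZS1c in
theorem Pool.Agent.H640R2.S1c (a : ℝ) (ha : 0 < a) (ha1 : a ≤ 1 / 8) : ∃ C : ℝ, 0 < C ∧ ∀ (c : ℕ) (s : ℂ)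
    (L u r B : ℝ) (w : ℝ → ℝ), c ≠ 0 → s.re = 1 / 2 + a → 1 ≤ L → 0 ≤ u → Wt r w → Bd 1 w B →
    ‖(∑' m : ℕ, if m.Coprime c ∧ m ≠ 0 then
        (m : ℂ) ^ (-(1 / 2) : ℂ) * ks s m * (w ((Real.log m + u) / L) : ℂ) else 0) -
      (L : ℂ) * Pc c * Complex.exp (-(s * u)) * ∫ y : ℝ, (w y : ℂ) * Complex.exp (s * L * y)‖ ≤
      C * (1 + ‖s‖) * B * (c : ℝ) ^ a * Real.exp (2 * a * (r * L - u)) := by
  obtain ⟨C1, hC1, h1⟩ := Stubs.S1a a ha ha1
  obtain ⟨C2, hC2, h2⟩ := Stubs.S1b a ha ha1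
  refine ⟨C1 * C2, by positivity, ?_⟩
  intro c s L u r B w hc hs hL hu hw hB
  obtain ⟨sm, sb, seq⟩ := h1 c s hc hs
  set Iw : ℂ := ∫ y : ℝ, (w y : ℂ) * Complex.exp (s * L * y) with hIw
  have hB0 : 0 ≤ B := (abs_nonneg _).trans (hB 0 (by norm_num) 0)
  have hL0 : 0 < L := by linarith
  set K : ℂ := (L : ℂ) * Complex.exp (-(s * u)) * Iw with hK
  set S : ℕ → ℂ := fun b => ∑' m : ℕ, if m = 0 then 0 else
    (m : ℂ) ^ (s - 1) * (w ((Real.log m + (u + Real.log b)) / L) : ℂ) with hS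
  -- vanishing
  obtain ⟨N, hN⟩ := exists_nat_gt (Real.exp (r * L))
  have hvan : ∀ (m : ℕ) (t : ℝ), N < m → 0 ≤ t → w ((Real.log m + t) / L) = 0 := by
    intro m t hm ht
    by_contra hne
    have h3 := (hw.supp _ hne).2
    rw [div_le_iff₀ hL0] at h3
    have hm' : (N : ℝ) < m := by exact_mod_cast hm
    have h4 : Real.exp (r * L) < m := hN.trans hm'
    have h5 : r * L < Real.log m := (Real.lt_log_iff_exp_lt ((Real.exp_pos _).trans h4)).2 h4
    linarith
  -- S b as a finite sum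
  have hSfin : ∀ b : ℕ, 1 ≤ b → S b = ∑ d ∈ Icc 1 N, (d : ℂ) ^ (s - 1) *
      (w ((Real.log ((d * b : ℕ) : ℝ) + u) / L) : ℂ) := by
    intro b hb
    have hb0 : (0 : ℝ) < b := by exact_mod_cast hb
    rw [hS]
    simp only
    rw [tsum_eq_sum (s := Icc 1 N)]
    · refine Finset.sum_congr rfl fun d hd => ?_
      rw [Finset.mem_Icc] at hd
      have hd0 : (0 : ℝ) < d := by exact_mod_cast hd.1
      rw [if_neg (by omega), Nat.cast_mul, Real.log_mul hd0.ne' hb0.ne']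
      congr 4
      ring
    · intro m hm
      rw [Finset.mem_Icc, not_and_or] at hm
      rcases Nat.eq_zero_or_pos m with h0 | h0
      · rw [if_pos h0]
      · rw [if_neg (by omega), hvan m _ (by omega)
          (add_nonneg hu (Real.log_nonneg (by exact_mod_cast hb)))]
        simp
  have hSvan : ∀ b : ℕ, N < b → S b = 0 := by
    intro b hb
    rw [hSfin b (by omega)]
    refine Finset.sum_eq_zero fun d hd => ?_
    rw [Finset.mem_Icc] at hd
    rw [hvan (d * b) u (lt_of_lt_of_le hb (Nat.le_mul_of_pos_left _ hd.1)) hu]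
    simp
  have key1 : (∑' m : ℕ, if m.Coprime c ∧ m ≠ 0 then
        (m : ℂ) ^ (-(1 / 2) : ℂ) * ks s m * (w ((Real.log m + u) / L) : ℂ) else 0) =
      ∑' b : ℕ, gg c s b * S b := by
    have e1 : ∀ m : ℕ, (if m.Coprime c ∧ m ≠ 0 then
        (m : ℂ) ^ (-(1 / 2) : ℂ) * ks s m * (w ((Real.log m + u) / L) : ℂ) else 0) =
        aF c s m * (w ((Real.log m + u) / L) : ℂ) := by
      intro m
      rw [aF_apply]
      split_ifs
      · rfl
      · rw [zero_mul]
    rw [tsum_congr e1, tsum_eq_sum (s := Icc 1 N), tsum_eq_sum (s := Icc 1 N)]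
    · have e2 := sum_conv N (fun d b => (d : ℂ) ^ (s - 1) * gg c s b)
        (fun m => (w ((Real.log m + u) / L) : ℂ)) (fun m hm => by
          simp only [hvan m u hm hu, Complex.ofReal_zero])
      refine Eq.trans ?_ (e2.trans ?_)
      · refine Finset.sum_congr rfl fun m _ => ?_
        rw [conv]
      · refine Finset.sum_congr rfl fun b hb => ?_
        rw [Finset.mem_Icc] at hb
        rw [hSfin b hb.1, Finset.mul_sum]
        refine Finset.sum_congr rfl fun d _ => ?_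
        ring
    · intro b hb
      rw [Finset.mem_Icc, not_and_or] at hb
      rcases Nat.eq_zero_or_pos b with h0 | h0
      · rw [h0, gg_zero, zero_mul]
      · rw [hSvan b (by omega), mul_zero]
    · intro m hm
      rw [Finset.mem_Icc, not_and_or] at hm
      rcases Nat.eq_zero_or_pos m with h0 | h0
      · rw [h0, ArithmeticFunction.map_zero, zero_mul]
      · rw [hvan m u (by omega) hu, Complex.ofReal_zero, mul_zero]
  have key2 : ∀ b : ℕ, ‖gg c s b * S b - gg c s b * (b : ℂ) ^ (-s) * K‖ ≤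
      (‖gg c s b‖ * (b : ℝ) ^ (-(2 * a))) *
        (C2 * (1 + ‖s‖) * B * Real.exp (2 * a * (r * L - u))) := by
    intro b
    rcases Nat.eq_zero_or_pos b with h0 | h0
    · rw [h0, gg_zero]; simp
    · have hb0 : (0 : ℝ) < b := by exact_mod_cast h0
      have hb1 : (1 : ℝ) ≤ b := by exact_mod_cast h0
      have h3 := h2 s L (u + Real.log b) r B w hs hL (add_nonneg hu (Real.log_nonneg hb1)) hw hB
      have e1 : Complex.exp (-(s * ((u + Real.log b : ℝ) : ℂ))) =
          (b : ℂ) ^ (-s) * Complex.exp (-(s * u)) := by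
        have hbC : (b : ℂ) ≠ 0 := by exact_mod_cast hb0.ne'
        rw [Complex.cpow_def_of_ne_zero hbC, ← Complex.exp_add, ← Complex.natCast_log]
        congr 1
        push_cast
        ring
      have e2 : Real.exp (2 * a * (r * L - (u + Real.log b))) =
          Real.exp (2 * a * (r * L - u)) * (b : ℝ) ^ (-(2 * a)) := by
        rw [Real.rpow_def_of_pos hb0, ← Real.exp_add]
        congr 1
        ring
      rw [e1, e2] at h3
      have e3 : gg c s b * S b - gg c s b * (b : ℂ) ^ (-s) * K =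
          gg c s b * (S b - (L : ℂ) * ((b : ℂ) ^ (-s) * Complex.exp (-(s * u))) * Iw) := by
        rw [hK]; ring
      rw [e3, norm_mul]
      calc ‖gg c s b‖ * ‖S b - (L : ℂ) * ((b : ℂ) ^ (-s) * Complex.exp (-(s * u))) * Iw‖
          ≤ ‖gg c s b‖ * (C2 * (1 + ‖s‖) * B *
            (Real.exp (2 * a * (r * L - u)) * (b : ℝ) ^ (-(2 * a)))) :=
            mul_le_mul_of_nonneg_left h3 (norm_nonneg _)
        _ = _ := by ring
  have s1 : Summable (fun b : ℕ => gg c s b * S b) := by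
    refine summable_of_ne_finset_zero (s := Icc 1 N) ?_
    intro b hb
    rw [Finset.mem_Icc, not_and_or] at hb
    rcases Nat.eq_zero_or_pos b with h0 | h0
    · rw [h0, gg_zero, zero_mul]
    · rw [hSvan b (by omega), mul_zero]
  have s2 : Summable (fun b : ℕ => gg c s b * (b : ℂ) ^ (-s)) := by
    refine Summable.of_norm_bounded sm ?_
    intro b
    rcases Nat.eq_zero_or_pos b with h0 | h0
    · rw [h0, gg_zero]; simp
    · have hb0 : (0 : ℝ) < b := by exact_mod_cast h0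
      have hb1 : (1 : ℝ) ≤ b := by exact_mod_cast h0
      rw [norm_mul, Complex.norm_natCast_cpow_of_pos h0]
      refine mul_le_mul_of_nonneg_left ?_ (norm_nonneg _)
      refine Real.rpow_le_rpow_of_exponent_le hb1 ?_
      rw [Complex.neg_re, hs]
      linarith
  have e4 : (∑' b : ℕ, gg c s b * S b) - (L : ℂ) * Pc c * Complex.exp (-(s * u)) * Iw =
      ∑' b : ℕ, (gg c s b * S b - gg c s b * (b : ℂ) ^ (-s) * K) := by
    rw [s1.tsum_sub (s2.mul_right K), tsum_mul_right, seq, hK]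
    ring
  rw [key1, e4]
  have hc0 : (0 : ℝ) ≤ (c : ℝ) ^ a := Real.rpow_nonneg (Nat.cast_nonneg c) a
  have hE : 0 ≤ C2 * (1 + ‖s‖) * B * Real.exp (2 * a * (r * L - u)) := by positivity
  refine (tsum_of_norm_bounded ((sm.mul_right _).hasSum) key2).trans ?_
  rw [tsum_mul_right]
  calc (∑' b : ℕ, ‖gg c s b‖ * (b : ℝ) ^ (-(2 * a))) *
        (C2 * (1 + ‖s‖) * B * Real.exp (2 * a * (r * L - u)))
      ≤ (C1 * (c : ℝ) ^ a) * (C2 * (1 + ‖s‖) * B * Real.exp (2 * a * (r * L - u))) :=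
        mul_le_mul_of_nonneg_right sb hE
    _ = C1 * C2 * (1 + ‖s‖) * B * (c : ℝ) ^ a * Real.exp (2 * a * (r * L - u)) := by ring
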